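import Pool.Agent.Helper46.CR.C2core
import Pool.Agent.Helper8.CR.C1

/-! CR-2: `loc_deriv`, from `log_deriv_bound` (C1). -/

set_option autoImplicit false

namespace Pool.Agent.Helper16.CR

open Complex Filter Topology MeasureTheory Set Metric
open Pool.Agent.Helper13.Bsd Pool.Agent.Helper7.GW Pool.Agent.Helper58.BSD Pool.Agent.Helper29.MS

variable {v : ℝ → ℝ} {G : ℂ → ℂ} {A a η B c : ℝ} {k : ℕ}

/-- C2. as `loc` of MS/Loc.lean, for the derivative (from C1) -/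
theorem loc_deriv (hF : Frame v G A a η B c k) {L : ℂ → ℂ} (hL : Branch v G a L) :
    ∃ δ r K : ℝ, 0 < δ ∧ c ≤ r ∧ 0 ≤ K ∧ ∀ τ0 : ℝ, ∃ (n : ℕ) (ρ : Fin n → ℂ),
      (n : ℝ) ≤ K * Real.log (2 + |τ0|) ∧ (∀ j, ‖ρ j‖ ≤ r ∧ (ρ j).re ≤ -c) ∧
      ∀ x y : ℝ, -c < x → x ≤ 0 → |y| ≤ δ →
        ‖deriv L ((c : ℂ) + (τ0 : ℂ) * I + ((x : ℂ) + (y : ℂ) * I))‖ ≤
          K * Real.log (2 + |τ0|) + ∑ j, ‖(x : ℂ) + (y : ℂ) * I - ρ j‖⁻¹ :=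
  Pool.Agent.Helper46.CR.loc_deriv_core
    (fun {_ _ _ _} hc h1 h2 h3 => log_deriv_bound hc h1 h2 h3) hF hL

end Pool.Agent.Helper16.CR
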