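import Pool.Agent.Helper46.CR.C3core
import Pool.Agent.Helper46.CR.C2
import Pool.Agent.Helper56.CR.C3a

/-! CR-3: `growth_L2_deriv`, from `loc_deriv` (C2) and `inv_sq_int` (C3a). -/

set_option autoImplicit false

namespace Pool.Agent.Helper16.CR

open Complex Filter Topology MeasureTheory Set Metric
open Pool.Agent.Helper13.Bsd Pool.Agent.Helper7.GW Pool.Agent.Helper58.BSD Pool.Agent.Helper29.MS

variable {v : ℝ → ℝ} {G : ℂ → ℂ} {A a η B c : ℝ} {k : ℕ}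

/-- C3. as `growth_L2` of MS/Growth.lean (from C2 and C3a) -/
theorem growth_L2_deriv (hF : Frame v G A a η B c k) {L : ℂ → ℂ} (hL : Branch v G a L) :
    ∃ δ C : ℝ, 0 < δ ∧ 0 ≤ C ∧ ∀ σ τ0 : ℝ, 0 < σ → σ ≤ 1 →
      ∫ τ in Icc (τ0 - δ) (τ0 + δ), ‖deriv L ((σ : ℂ) + (τ : ℂ) * I)‖ ^ 2 ≤
        C * Real.log (2 + |τ0|) ^ 2 / σ := by
  obtain ⟨δ, r, K, hδ, -, hK, hloc⟩ := loc_deriv hF hL
  exact Pool.Agent.Helper46.CR.growth_core hF.hc1 hδ hK hloc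
    fun σ hσ x ρ h => inv_sq_int hδ hσ x ρ h

end Pool.Agent.Helper16.CR
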