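import Pool.Agent.Helper46.CR.C6core
import Pool.Agent.Helper46.CR.C3
import Pool.Agent.Helper76.CR.C4
import Pool.Agent.Helper29.CR.C5

/-! CR-6: `h2_deriv`, from C3, C4, C5 and `growth_L2`. -/

set_option autoImplicit false

namespace Pool.Agent.Helper16.CR

open Complex Filter Topology MeasureTheory Set Metric
open Pool.Agent.Helper13.Bsd Pool.Agent.Helper7.GW Pool.Agent.Helper58.BSD Pool.Agent.Helper29.MS

variable {v : ℝ → ℝ} {G : ℂ → ℂ} {A a η B c : ℝ} {k : ℕ}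

/-- C6. as `h2_bound` of MS/H2.lean: `VV' = - L' / w + (L + κ) / w²`; from C3, `growth_L2`, C4, C5 -/
theorem h2_deriv (hF : Frame v G A a η B c k) {L : ℂ → ℂ} (hL : Branch v G a L) :
    ∃ K : ℝ, 0 ≤ K ∧ ∀ σ : ℝ, 0 < σ → σ ≤ 1 →
      Integrable (fun τ : ℝ => ‖deriv (VV L (kap G)) ((σ : ℂ) + (τ : ℂ) * I)‖ ^ 2) ∧
      ∫ τ : ℝ, ‖deriv (VV L (kap G)) ((σ : ℂ) + (τ : ℂ) * I)‖ ^ 2 ≤ K / σ :=
  Pool.Agent.Helper46.CR.h2_deriv_core hF hL (growth_L2_deriv hF hL)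
    (fun σ0 h0 => vv_deriv_growth hF hL σ0 h0) (near_zero_deriv hF hL)

end Pool.Agent.Helper16.CR
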