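import Pool.Agent.Helper46.CR.V3e
import Pool.Agent.Helper85.CR.D6
import Pool.Agent.Helper29.CR.V3a

/-!
CR, leaf D7: the limit law of `hs x * log x` under the Riemann hypothesis.
-/

set_option autoImplicit false

namespace Pool.Agent.Helper16.CR

open Complex Filter Topology MeasureTheory Set
open Pool.Agent.Helper13.Bsd Pool.Agent.Helper7.GW Pool.Agent.Helper58.BSD Pool.Agent.Helper29.MS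
open Pool.Agent.Helper16.OM (hs)

theorem law_hs_full (W : WeierstrassCurve ℤ) (N : ℕ → ℕ)
    (hNdef : ∀ p : ℕ, N p = 1 + ((Finset.range p ×ˢ Finset.range p).filter
      (fun q : ℕ × ℕ => (p : ℤ) ∣ ((q.2 : ℤ) ^ 2 + W.a₁ * (q.1 : ℤ) * (q.2 : ℤ) + W.a₃ * (q.2 : ℤ)
        - ((q.1 : ℤ) ^ 3 + W.a₂ * (q.1 : ℤ) ^ 2 + W.a₄ * (q.1 : ℤ) + W.a₆)))).card)
    (hΔ : W.Δ ≠ 0) (F : ℂ → ℂ) (hFd : Differentiable ℂ F) (hF : EulerHyp W N F)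
    (hgr : ∃ (A : ℝ) (k : ℕ), ∀ s : ℂ, 1 / 2 ≤ s.re → ‖F s‖ ≤ A * (1 + ‖s‖) ^ k)
    (hRH : ∀ ρ : ℂ, 1 < ρ.re → F ρ ≠ 0) :
    Summable (fun γ : ℝ => if γ = 0 then 0 else (analyticOrderNatAt F (1 + γ * I) : ℝ) ^ 2 / γ ^ 2) ∧
    ∃ μ : Measure ℝ, IsProbabilityMeasure μ ∧ Integrable (fun y : ℝ => y ^ 2) μ ∧ ∫ y, y ∂μ = 0 ∧
      ∫ y, y ^ 2 ∂μ = ∑' γ : ℝ, (if γ = 0 then 0 else (analyticOrderNatAt F (1 + γ * I) : ℝ) ^ 2 / γ ^ 2) ∧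
      ∀ Φ : ℝ → ℝ, Continuous Φ → (∃ C : ℝ, ∀ y, |Φ y| ≤ C * (1 + y ^ 2)) →
        (∀ X : ℝ, IntegrableOn (fun x => Φ (hs W N F x * Real.log x) / x) (Ioc 2 X)) ∧
        Tendsto (fun X : ℝ => (1 / Real.log X) * ∫ x in Ioc 2 X, Φ (hs W N F x * Real.log x) / x) atTop
          (𝓝 (∫ y, Φ y ∂μ)) :=
  law_hs_of_core (fun hu hap => law_quad hu hap) W N hNdef hΔ F hFd hF
    (Pool.Agent.Helper29.CR.measurable_hs W N F) (Pool.Agent.Helper29.CR.hs_bdd W N hNdef hΔ F hFd hF) hgr hRH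

theorem law_hs (W : WeierstrassCurve ℤ) (N : ℕ → ℕ)
    (hNdef : ∀ p : ℕ, N p = 1 + ((Finset.range p ×ˢ Finset.range p).filter
      (fun q : ℕ × ℕ => (p : ℤ) ∣ ((q.2 : ℤ) ^ 2 + W.a₁ * (q.1 : ℤ) * (q.2 : ℤ) + W.a₃ * (q.2 : ℤ)
        - ((q.1 : ℤ) ^ 3 + W.a₂ * (q.1 : ℤ) ^ 2 + W.a₄ * (q.1 : ℤ) + W.a₆)))).card)
    (hΔ : W.Δ ≠ 0) (F : ℂ → ℂ) (hFd : Differentiable ℂ F) (hF : EulerHyp W N F)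
    (hgr : ∃ (A : ℝ) (k : ℕ), ∀ s : ℂ, 1 / 2 ≤ s.re → ‖F s‖ ≤ A * (1 + ‖s‖) ^ k)
    (hRH : ∀ ρ : ℂ, 1 < ρ.re → F ρ ≠ 0) :
    ∃ μ : Measure ℝ, IsProbabilityMeasure μ ∧ Integrable (fun y : ℝ => y ^ 2) μ ∧ ∫ y, y ∂μ = 0 ∧
      ∀ Φ : ℝ → ℝ, Continuous Φ → (∃ M : ℝ, ∀ y, |Φ y| ≤ M * (1 + y ^ 2)) →
        Tendsto (fun X : ℝ => (1 / Real.log X) * ∫ x in Ioc 2 X, Φ (hs W N F x * Real.log x) / x) atTop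
          (𝓝 (∫ y, Φ y ∂μ)) := by
  obtain ⟨-, μ, hμ, hμ2, hμ1, -, hlaw⟩ := law_hs_full W N hNdef hΔ F hFd hF hgr hRH
  exact ⟨μ, hμ, hμ2, hμ1, fun Φ hΦ hM => (hlaw Φ hΦ hM).2⟩

end Pool.Agent.Helper16.CR
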