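import Pool.Agent.Helper46.CR.V3e

/-!
CR, leaf U4b: a lower bound for `log ‖G w‖` in the right half plane from the mean square bound.
-/

set_option autoImplicit false

namespace Pool.Agent.Helper16.CR

open Complex Filter Topology MeasureTheory Set Metric
open Pool.Agent.Helper13.Bsd Pool.Agent.Helper7.GW Pool.Agent.Helper58.BSD Pool.Agent.Helper29.MS
open Pool.Agent.Helper46.CR (lap_all)
open Pool.Agent.Helper16.OM (hs TTb Fac GG_fac hs_exp log_kon ee_rate2 EinL2_bounds)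

variable {v : ℝ → ℝ} {G : ℂ → ℂ} {A a η B c : ℝ} {k : ℕ}

/-- the `L²` bound -/
theorem u4_l2 (hF : Frame v G A a η B c k) {L : ℂ → ℂ} (hL : Branch v G a L) (σ1 : ℝ) (hσ1 : 1 ≤ σ1) :
    ∃ M : ℝ, 0 ≤ M ∧ ∀ σ : ℝ, 0 < σ → σ ≤ σ1 →
      IntegrableOn (fun t => (t * (v t - kap G)) ^ 2 * Real.exp (-σ * t)) (Ioi (0 : ℝ)) ∧
      ∫ t in Ioi (0 : ℝ), (t * (v t - kap G)) ^ 2 * Real.exp (-σ * t) ≤ M / σ := by
  obtain ⟨K, hK0, hK⟩ := h2_deriv hF hL
  obtain ⟨-, hpl⟩ := planch_deriv hF hL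
  have hpi := Real.pi_pos
  have hσ10 : 0 < σ1 := by linarith
  have hI : ∀ σ : ℝ, 0 < σ → IntegrableOn (fun t => (t * (v t - kap G)) ^ 2 * Real.exp (-σ * t)) (Ioi (0 : ℝ)) := by
    intro σ hσ
    have h1 := (hpl (σ / 2) (by positivity)).1
    rwa [show 2 * (σ / 2) = σ by ring] at h1
  have h2 : ∀ σ : ℝ, 0 < σ → σ ≤ 2 → ∫ t in Ioi (0 : ℝ), (t * (v t - kap G)) ^ 2 * Real.exp (-σ * t) ≤ K / (Real.pi * σ) := by
    intro σ hσ hσ2
    have h3 := (hpl (σ / 2) (by positivity)).2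
    rw [show 2 * (σ / 2) = σ by ring] at h3
    have h4 := (hK (σ / 2) (by positivity) (by linarith)).2
    rw [← h3] at h4
    rw [le_div_iff₀ (by positivity)]
    have h5 : K / (σ / 2) = 2 * K / σ := by field_simp
    rw [h5, le_div_iff₀ hσ] at h4
    nlinarith
  refine ⟨K * σ1 / Real.pi, by positivity, fun σ hσ hσle => ⟨hI σ hσ, ?_⟩⟩
  have e1 : K * σ1 / Real.pi / σ = σ1 * (K / (Real.pi * σ)) := by
    field_simp
  rw [e1]
  have e2 : 0 ≤ K / (Real.pi * σ) := by positivity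
  rcases le_total σ 2 with h | h
  · refine (h2 σ hσ h).trans ?_
    nlinarith
  · have h3 : ∫ t in Ioi (0 : ℝ), (t * (v t - kap G)) ^ 2 * Real.exp (-σ * t) ≤
        ∫ t in Ioi (0 : ℝ), (t * (v t - kap G)) ^ 2 * Real.exp (-2 * t) := by
      refine setIntegral_mono_on (hI σ hσ) (hI 2 two_pos) measurableSet_Ioi fun t ht => ?_
      have ht0 : (0 : ℝ) < t := ht
      exact mul_le_mul_of_nonneg_left (Real.exp_le_exp.2 (by nlinarith)) (sq_nonneg _)
    refine h3.trans ((h2 2 two_pos le_rfl).trans ?_)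
    have e3 : σ1 * (K / (Real.pi * σ)) = (σ1 / σ) * (K / Real.pi) := by field_simp
    have e4 : K / (Real.pi * 2) = (1 / 2) * (K / Real.pi) := by field_simp
    rw [e3, e4]
    apply mul_le_mul_of_nonneg_right _ (by positivity)
    have e5 : 1 ≤ σ1 / σ := by rwa [one_le_div hσ]
    linarith

/-- the derivative of `VV` -/
theorem u4_deriv (hF : Frame v G A a η B c k) {L : ℂ → ℂ} (hL : Branch v G a L) (σ1 : ℝ) (hσ1 : 1 ≤ σ1) :
    ∃ C : ℝ, 0 ≤ C ∧ ∀ w : ℂ, 0 < w.re → w.re ≤ σ1 → ‖deriv (VV L (kap G)) w‖ ≤ C / w.re := by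
  obtain ⟨M, hM, h⟩ := u4_l2 hF hL σ1 hσ1
  refine ⟨(M + 1) / 2, by positivity, fun w hw hw1 => ?_⟩
  obtain ⟨hi, hle⟩ := h w.re hw hw1
  have h1 := lap_all hF hL hw
  have he : IntegrableOn (fun t : ℝ => Real.exp (-w.re * t)) (Ioi (0 : ℝ)) := exp_neg_integrableOn_Ioi 0 hw
  have hev : ∫ t in Ioi (0 : ℝ), Real.exp (-w.re * t) = 1 / w.re := by
    have h2 := integral_exp_mul_Ioi (neg_lt_zero.2 hw) 0
    rw [h2, mul_zero, Real.exp_zero]
    field_simp
  have h2 : ‖∫ t in Ioi (0 : ℝ), ((t * (v t - kap G) : ℝ) : ℂ) * cexp (-w * t)‖ ≤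
      ∫ t in Ioi (0 : ℝ), ((t * (v t - kap G)) ^ 2 * Real.exp (-w.re * t) + Real.exp (-w.re * t)) / 2 := by
    refine norm_integral_le_of_norm_le ((hi.add he).div_const 2) (Eventually.of_forall fun t => ?_)
    have e0 := Real.exp_pos (-w.re * t)
    have e1 : ‖cexp (-w * t)‖ = Real.exp (-w.re * t) := by
      rw [norm_exp]
      congr 1
      simp
    rw [norm_mul, e1, norm_real, Real.norm_eq_abs]
    have e2 : |t * (v t - kap G)| ≤ ((t * (v t - kap G)) ^ 2 + 1) / 2 := by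
      nlinarith [sq_nonneg (|t * (v t - kap G)| - 1), sq_abs (t * (v t - kap G))]
    show _ ≤ ((t * (v t - kap G)) ^ 2 * Real.exp (-w.re * t) + Real.exp (-w.re * t)) / 2
    nlinarith [mul_le_mul_of_nonneg_right e2 e0.le]
  rw [h1, norm_neg] at h2
  refine h2.trans ?_
  rw [integral_div, integral_add hi he, hev]
  have e3 : (M + 1) / 2 / w.re = (M / w.re + 1 / w.re) / 2 := by field_simp
  rw [e3]
  linarith

theorem low_of_frame (hF : Frame v G A a η B c k) : ∃ C : ℝ, 0 ≤ C ∧ ∀ w : ℂ, 0 < w.re → 1 ≤ ‖w‖ →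
    -(C * ‖w‖ * (1 + (Real.log ‖w‖ - Real.log w.re))) ≤ Real.log ‖G w‖ := by
  obtain ⟨L, hL⟩ := exists_branch hF
  set σ1 : ℝ := max c 1 with hσ1
  have h1σ : 1 ≤ σ1 := le_max_right _ _
  have hcσ : c ≤ σ1 := le_max_left _ _
  have hσ10 : 0 < σ1 := by linarith
  obtain ⟨C, hC, hd⟩ := u4_deriv hF hL σ1 h1σ
  have hB := hF.hB
  have hlσ : 0 ≤ Real.log σ1 := Real.log_nonneg h1σ
  have hright : ∀ w : ℂ, σ1 ≤ w.re → ‖L w‖ ≤ B := by
    intro w hw
    have h1 := hF.right w (hcσ.trans hw)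
    rw [hL.eq w (by linarith [hF.hc]), norm_neg]
    exact h1
  have hre : ∀ w : ℂ, 0 < w.re → Real.log ‖G w‖ = (L w).re := by
    intro w hw
    rw [← hL.exp w hw, norm_exp, Real.log_exp]
  refine ⟨B + 2 * |kap G| + C * (1 + Real.log σ1), by positivity, fun w hw hw1 => ?_⟩
  rw [hre w hw]
  have hwre : w.re ≤ ‖w‖ := re_le_norm w
  set ℓ : ℝ := Real.log ‖w‖ - Real.log w.re with hℓ
  have hℓ0 : 0 ≤ ℓ := by
    rw [hℓ, sub_nonneg]
    exact Real.log_le_log hw hwre
  have hk := abs_nonneg (kap G)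
  have hprod : 1 ≤ ‖w‖ * (1 + ℓ) := by nlinarith
  rcases le_total σ1 w.re with h | h
  · have h1 := hright w h
    have h2 := neg_abs_le (L w).re
    have h3 := abs_re_le_norm (L w)
    have h4 : B * 1 ≤ (B + 2 * |kap G| + C * (1 + Real.log σ1)) * (‖w‖ * (1 + ℓ)) := by
      apply mul_le_mul _ hprod zero_le_one (by positivity)
      have : 0 ≤ C * (1 + Real.log σ1) := by positivity
      linarith
    rw [mul_assoc]
    linarith
  · -- the bound for `VV`
    set τ : ℝ := w.im with hτ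
    have hline : ∀ s : ℝ, ((s : ℂ) + (τ : ℂ) * I).re = s := by
      intro s
      simp
    have hpos : ∀ s ∈ Icc w.re σ1, (0 : ℝ) < s := fun s hs => hw.trans_le hs.1
    set V : ℂ → ℂ := VV L (kap G) with hV
    have hVd : ∀ z : ℂ, 0 < z.re → HasDerivAt V (deriv V z) z := fun z hz =>
      (hasDerivAt_VV hL (kap G) hz).differentiableAt.hasDerivAt
    have hfd : ∀ s ∈ Icc w.re σ1, HasDerivAt (fun s : ℝ => V ((s : ℂ) + (τ : ℂ) * I))
        (deriv V ((s : ℂ) + (τ : ℂ) * I)) s := by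
      intro s hs
      have h1 := hVd ((s : ℂ) + (τ : ℂ) * I) (by rw [hline]; exact hpos s hs)
      exact (h1.comp_add_const (s : ℂ) ((τ : ℂ) * I)).comp_ofReal
    have hbd : ‖V ((w.re : ℂ) + (τ : ℂ) * I) - V ((σ1 : ℂ) + (τ : ℂ) * I)‖ ≤
        C * (Real.log σ1 - Real.log w.re) := by
      have key := image_norm_le_of_norm_deriv_right_le_deriv_boundary'
        (f := fun s : ℝ => V ((w.re : ℂ) + (τ : ℂ) * I) - V ((s : ℂ) + (τ : ℂ) * I))
        (f' := fun s : ℝ => -deriv V ((s : ℂ) + (τ : ℂ) * I)) (a := w.re) (b := σ1)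
        (B := fun s : ℝ => C * (Real.log s - Real.log w.re)) (B' := fun s : ℝ => C * s⁻¹)
        ?_ ?_ ?_ ?_ ?_ ?_
      · exact key (right_mem_Icc.2 h)
      · exact fun s hs => ((hfd s hs).const_sub _).continuousAt.continuousWithinAt
      · exact fun s hs => ((hfd s ⟨hs.1, hs.2.le⟩).const_sub _).hasDerivWithinAt
      · simp
      · refine ContinuousOn.mul continuousOn_const (ContinuousOn.sub ?_ continuousOn_const)
        exact fun s hs => (Real.continuousAt_log (hpos s hs).ne').continuousWithinAt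
      · intro s hs
        have h1 := ((Real.hasDerivAt_log (hpos s ⟨hs.1, hs.2.le⟩).ne').sub_const (Real.log w.re)).const_mul C
        exact h1.hasDerivWithinAt
      · intro s hs
        have h1 := hd ((s : ℂ) + (τ : ℂ) * I) (by rw [hline]; exact hpos s ⟨hs.1, hs.2.le⟩)
          (by rw [hline]; exact hs.2.le)
        rw [hline] at h1
        rw [norm_neg, ← div_eq_mul_inv]
        exact h1
    have hweq : (w.re : ℂ) + (τ : ℂ) * I = w := re_add_im w
    rw [hweq] at hbd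
    have hV1 : ‖V ((σ1 : ℂ) + (τ : ℂ) * I)‖ ≤ B + |kap G| := by
      have h1 := hright ((σ1 : ℂ) + (τ : ℂ) * I) (by rw [hline])
      have h2 : 1 ≤ ‖(σ1 : ℂ) + (τ : ℂ) * I‖ := by
        have h3 := re_le_norm ((σ1 : ℂ) + (τ : ℂ) * I)
        rw [hline] at h3
        linarith
      simp only [hV, VV]
      rw [norm_div, norm_neg, div_le_iff₀ (by linarith)]
      have h3 : ‖L ((σ1 : ℂ) + (τ : ℂ) * I) + (kap G : ℂ)‖ ≤ B + |kap G| := by
        refine (norm_add_le _ _).trans ?_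
        rw [norm_real, Real.norm_eq_abs]
        linarith
      nlinarith
    have hVw : ‖V w‖ ≤ B + |kap G| + C * (Real.log σ1 - Real.log w.re) := by
      have h1 := norm_add_le (V w - V ((σ1 : ℂ) + (τ : ℂ) * I)) (V ((σ1 : ℂ) + (τ : ℂ) * I))
      rw [sub_add_cancel] at h1
      linarith
    have hw0 : w ≠ 0 := by
      intro h0
      rw [h0] at hw
      simp at hw
    have hLw : L w = -(w * V w) - (kap G : ℂ) := by
      simp only [hV, VV]
      field_simp
      ring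
    have h1 : -(‖w‖ * ‖V w‖) - |kap G| ≤ (L w).re := by
      rw [hLw, sub_re, neg_re, ofReal_re]
      have h2 := (le_abs_self _).trans (abs_re_le_norm (w * V w))
      rw [norm_mul] at h2
      have h3 := le_abs_self (kap G)
      linarith
    have h2 : -Real.log w.re ≤ ℓ := by
      rw [hℓ]
      have := Real.log_nonneg hw1
      linarith
    have h3 : B + |kap G| + C * (Real.log σ1 - Real.log w.re) ≤
        (B + |kap G| + C * (1 + Real.log σ1)) * (1 + ℓ) := by
      have e1 : C * (Real.log σ1 - Real.log w.re) ≤ C * (Real.log σ1 + ℓ) :=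
        mul_le_mul_of_nonneg_left (by linarith) hC
      have e2 : C * (Real.log σ1 + ℓ) ≤ C * ((1 + Real.log σ1) * (1 + ℓ)) := by
        apply mul_le_mul_of_nonneg_left _ hC
        nlinarith
      have e3 : B + |kap G| ≤ (B + |kap G|) * (1 + ℓ) := by nlinarith
      calc B + |kap G| + C * (Real.log σ1 - Real.log w.re) ≤ (B + |kap G|) * (1 + ℓ) +
            C * ((1 + Real.log σ1) * (1 + ℓ)) := by linarith
        _ = _ := by ring
    have h4 : ‖w‖ * ‖V w‖ ≤ ‖w‖ * ((B + |kap G| + C * (1 + Real.log σ1)) * (1 + ℓ)) :=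
      mul_le_mul_of_nonneg_left (hVw.trans h3) (norm_nonneg _)
    have h5 : |kap G| * 1 ≤ |kap G| * (‖w‖ * (1 + ℓ)) := mul_le_mul_of_nonneg_left hprod hk
    have h6 : (B + 2 * |kap G| + C * (1 + Real.log σ1)) * ‖w‖ * (1 + ℓ) =
        ‖w‖ * ((B + |kap G| + C * (1 + Real.log σ1)) * (1 + ℓ)) + |kap G| * (‖w‖ * (1 + ℓ)) := by ring
    rw [h6]
    linarith

private theorem u4_lapInt (h : Grow v A a) {x : ℝ} (hx : a < x) : LapInt v x := by
  unfold LapInt
  have h1 : IntegrableOn (fun t : ℝ => A * Real.exp (-(x - a) * t)) (Ioi (0 : ℝ)) :=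
    (exp_neg_integrableOn_Ioi 0 (sub_pos.2 hx)).const_mul A
  refine Integrable.mono' h1 ?_ ?_
  · exact (h.meas.mul (Real.measurable_exp.comp (measurable_const.mul measurable_id))).aestronglyMeasurable
  · rw [ae_restrict_iff' measurableSet_Ioi]
    refine Eventually.of_forall fun t ht => ?_
    have ht0 : 0 < t := ht
    rw [norm_mul, Real.norm_eq_abs, Real.norm_eq_abs, abs_of_pos (Real.exp_pos _)]
    calc |v t| * Real.exp (-x * t) ≤ (A * Real.exp (a * t)) * Real.exp (-x * t) :=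
          mul_le_mul_of_nonneg_right (h.bd t ht0) (Real.exp_pos _).le
      _ = A * Real.exp (-(x - a) * t) := by
          rw [mul_assoc, ← Real.exp_add]
          congr 2
          ring

/-- the reduced frame, with the relation of the two functions -/
theorem frame_order' (hS : Setup v G A a η) (r : ℕ) (g : ℝ) (hg0 : 0 < g)
    (hg : Tendsto (fun y : ℝ => ‖G (y : ℂ)‖ / y ^ r) (𝓝[>] 0) (𝓝 g))
    (hrh : ∀ s : ℂ, 0 < s.re → G s ≠ 0)
    (hgr : ∀ s : ℂ, -η < s.re → ‖G s‖ ≤ B * (1 + ‖s‖) ^ k)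
    (hr : ∀ s : ℂ, c ≤ s.re → ‖s * Lap v s‖ ≤ B) (mm : ℝ → ℕ) (hmm : Fac G mm) :
    ∃ (G' : ℂ → ℂ) (A' a' B' c' : ℝ) (k' : ℕ),
      Frame (fun t => v t - r * ein t) G' A' a' η B' c' k' ∧ kap G' = -Real.log g ∧ Fac G' mm ∧
      ∀ s : ℂ, 0 < s.re → G s * (1 + s) ^ r = s ^ r * G' s := by
  obtain ⟨G1, hG1, hfac, hG10⟩ := factor_order hS r g hg0 hg
  have hS0 := setup_reduce hS r G1 hG1 hfac
  have hη := hS.hη
  have ha := hS.grow.ha
  have h0 : (fun s => G1 s * (1 + s) ^ r) (0 : ℂ) ≠ 0 := by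
    simp only [add_zero, one_pow, mul_one]
    rw [← norm_pos_iff, hG10]
    exact hg0
  have hkap : kap (fun s => G1 s * (1 + s) ^ r) = -Real.log g := by
    unfold kap
    simp only [add_zero, one_pow, mul_one]
    rw [hG10]
  obtain ⟨C, hC0, hC⟩ := lap_ein_bdd
  have hB0 : 0 ≤ B := by
    have h1 := hgr 0 (by rw [zero_re]; linarith)
    rw [norm_zero, add_zero, one_pow, mul_one] at h1
    exact (norm_nonneg _).trans h1
  -- the bound on the closed ball
  obtain ⟨M, hM⟩ : ∃ M : ℝ, ∀ s ∈ closedBall (0 : ℂ) (η / 2), ‖G1 s * (1 + s) ^ r‖ ≤ M := by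
    have hsub : closedBall (0 : ℂ) (η / 2) ⊆ {s : ℂ | -η < s.re} := by
      intro s hs
      rw [mem_closedBall_zero_iff] at hs
      have h1 := abs_re_le_norm s
      have h2 := neg_abs_le s.re
      show -η < s.re
      linarith
    have hcont : ContinuousOn (fun s => G1 s * (1 + s) ^ r) (closedBall (0 : ℂ) (η / 2)) :=
      (hG1.continuousOn.mono hsub).mul (by fun_prop)
    exact (isCompact_closedBall (0 : ℂ) (η / 2)).exists_bound_of_continuousOn hcont
  have hr0 : (0 : ℝ) ≤ r := Nat.cast_nonneg r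
  have hq0 : 0 ≤ B * (2 / η) ^ r := by positivity
  have hrC : 0 ≤ (r : ℝ) * C := by positivity
  set B' : ℝ := 1 + |M| + B * (2 / η) ^ r + (B + r * C) with hB'
  have habs := abs_nonneg M
  have hF : Frame (fun t => v t - r * ein t) (fun s => G1 s * (1 + s) ^ r) (A + r) (a + 1) η B'
      (max c (a + 2)) (k + r) := by
    refine ⟨hS0, h0, ?_, by rw [hB']; linarith, ?_, ?_, ?_, ?_⟩
    · intro s hs
      have h1 := hrh s hs
      have h2 := hfac s (by linarith)
      rw [h2] at h1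
      have h3 : (1 : ℂ) + s ≠ 0 := by
        intro h
        have := congrArg Complex.re h
        simp at this
        linarith
      exact mul_ne_zero (right_ne_zero_of_mul h1) (pow_ne_zero _ h3)
    · intro s hs
      have hge : (1 : ℝ) ≤ (1 + ‖s‖) ^ (k + r) :=
        one_le_pow₀ (by linarith [norm_nonneg s])
      by_cases hb : ‖s‖ ≤ η / 2
      · have h1 := hM s (by rw [mem_closedBall_zero_iff]; exact hb)
        have h2 : M ≤ B' := by
          have := le_abs_self M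
          rw [hB']
          linarith
        have h3 : 0 ≤ B' := by rw [hB']; linarith
        calc ‖G1 s * (1 + s) ^ r‖ ≤ B' * 1 := by linarith
          _ ≤ B' * (1 + ‖s‖) ^ (k + r) := mul_le_mul_of_nonneg_left hge h3
      · push Not at hb
        have hs0 : 0 < ‖s‖ := by linarith
        have h1 : ‖G1 s‖ ≤ B * (1 + ‖s‖) ^ k * (2 / η) ^ r := by
          have h2 := hgr s hs
          rw [hfac s hs, norm_mul, norm_pow] at h2
          have h3 : 1 ≤ ‖s‖ ^ r * (2 / η) ^ r := by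
            rw [← mul_pow]
            apply one_le_pow₀
            rw [mul_div_assoc', le_div_iff₀ hη]
            linarith
          calc ‖G1 s‖ = ‖G1 s‖ * 1 := (mul_one _).symm
            _ ≤ ‖G1 s‖ * (‖s‖ ^ r * (2 / η) ^ r) := mul_le_mul_of_nonneg_left h3 (norm_nonneg _)
            _ = ‖s‖ ^ r * ‖G1 s‖ * (2 / η) ^ r := by ring
            _ ≤ B * (1 + ‖s‖) ^ k * (2 / η) ^ r :=
                mul_le_mul_of_nonneg_right h2 (by positivity)
        have h4 : ‖(1 + s) ^ r‖ ≤ (1 + ‖s‖) ^ r := by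
          rw [norm_pow]
          apply pow_le_pow_left₀ (norm_nonneg _)
          calc ‖1 + s‖ ≤ ‖(1 : ℂ)‖ + ‖s‖ := norm_add_le _ _
            _ = 1 + ‖s‖ := by rw [norm_one]
        rw [norm_mul]
        calc ‖G1 s‖ * ‖(1 + s) ^ r‖ ≤ (B * (1 + ‖s‖) ^ k * (2 / η) ^ r) * (1 + ‖s‖) ^ r :=
              mul_le_mul h1 h4 (norm_nonneg _) (by positivity)
          _ = B * (2 / η) ^ r * (1 + ‖s‖) ^ (k + r) := by rw [pow_add]; ring
          _ ≤ B' * (1 + ‖s‖) ^ (k + r) := by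
              apply mul_le_mul_of_nonneg_right _ (by positivity)
              rw [hB']
              linarith
    · have := le_max_right c (a + 2)
      linarith
    · have := le_max_right c (a + 2)
      linarith
    · intro s hs
      have hs1 : c ≤ s.re := (le_max_left _ _).trans hs
      have hs2 : a + 2 ≤ s.re := (le_max_right _ _).trans hs
      have hw1 : a < s.re := by linarith
      have hw0 : 0 < s.re := by linarith
      have e1 : Lap (fun t => v t - r * ein t) s = Lap v s - r * Lap ein s := by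
        have hm : Measurable fun t => (r : ℝ) * ein t := measurable_const.mul measurable_ein
        rw [Lap_sub hS.grow.meas hm
          (u4_lapInt hS.grow hw1) ((lapInt_ein hw0).const_mul _), Lap_const_mul]
        push_cast
        rfl
      have e2 : s * Lap (fun t => v t - r * ein t) s = s * Lap v s - r * (s * Lap ein s) := by
        rw [e1]; ring
      rw [e2]
      have h1 := hr s hs1
      have h2 := hC s (by linarith)
      calc ‖s * Lap v s - r * (s * Lap ein s)‖ ≤ ‖s * Lap v s‖ + ‖(r : ℂ) * (s * Lap ein s)‖ :=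
            norm_sub_le _ _
        _ ≤ B + r * C := by
            rw [norm_mul (r : ℂ), Complex.norm_natCast]
            exact add_le_add h1 (mul_le_mul_of_nonneg_left h2 hr0)
        _ ≤ B' := by
            rw [hB']
            linarith
  -- the factorisation
  have hopen : IsOpen {s : ℂ | -η < s.re} := isOpen_lt continuous_const continuous_re
  have hmem : ∀ μ : ℝ, (μ * I : ℂ) ∈ {s : ℂ | -η < s.re} := by
    intro μ
    show -η < (μ * I : ℂ).re
    simp
    linarith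
  have hmm0 : Fac (fun s => G1 s * (1 + s) ^ r) mm := by
    intro μ hμ
    obtain ⟨gm, hga, hgm0, hgeq⟩ := hmm μ hμ
    have hμI : (μ * I : ℂ) ≠ 0 := mul_ne_zero (by exact_mod_cast hμ) I_ne_zero
    have h1I : (1 + μ * I : ℂ) ≠ 0 := by
      intro h1
      have := congrArg Complex.re h1
      simp at this
    refine ⟨fun w => gm w * (1 + w) ^ r / w ^ r, ?_, ?_, ?_⟩
    · refine AnalyticAt.div (hga.mul ?_) ?_ (pow_ne_zero _ hμI)
      · exact (analyticAt_const.add analyticAt_id).pow r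
      · exact analyticAt_id.pow r
    · exact div_ne_zero (mul_ne_zero hgm0 (pow_ne_zero _ h1I)) (pow_ne_zero _ hμI)
    · filter_upwards [hgeq, hopen.mem_nhds (hmem μ), isOpen_ne.mem_nhds hμI] with w h1 h2 h3
      have h4 := hfac w h2
      have h5 : w ^ r ≠ 0 := pow_ne_zero _ h3
      have h6 : G1 w = (w - μ * I) ^ mm μ * gm w / w ^ r := by
        rw [eq_div_iff h5, ← h1, h4]
        ring
      show G1 w * (1 + w) ^ r = _
      rw [h6]
      ring
  refine ⟨_, _, _, _, _, _, hF, hkap, hmm0, fun s hs => ?_⟩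
  rw [hfac s (by linarith)]
  ring

theorem low_hs (W : WeierstrassCurve ℤ) (N : ℕ → ℕ)
    (hNdef : ∀ p : ℕ, N p = 1 + ((Finset.range p ×ˢ Finset.range p).filter
      (fun q : ℕ × ℕ => (p : ℤ) ∣ ((q.2 : ℤ) ^ 2 + W.a₁ * (q.1 : ℤ) * (q.2 : ℤ) + W.a₃ * (q.2 : ℤ)
        - ((q.1 : ℤ) ^ 3 + W.a₂ * (q.1 : ℤ) ^ 2 + W.a₄ * (q.1 : ℤ) + W.a₆)))).card)
    (hΔ : W.Δ ≠ 0) (F : ℂ → ℂ) (hFd : Differentiable ℂ F) (hF : EulerHyp W N F)
    (hgr : ∃ (A : ℝ) (k : ℕ), ∀ s : ℂ, 1 / 2 ≤ s.re → ‖F s‖ ≤ A * (1 + ‖s‖) ^ k)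
    (hRH : ∀ ρ : ℂ, 1 < ρ.re → F ρ ≠ 0) :
    ∃ C : ℝ, 0 ≤ C ∧ ∀ w : ℂ, 0 < w.re → 1 ≤ ‖w‖ →
      -(C * ‖w‖ * (1 + (Real.log ‖w‖ - Real.log w.re))) ≤ Real.log ‖GG N (badW W) F w‖ := by
  set r := analyticOrderNatAt F 1 with hr
  have hN := nhyp W N hNdef
  have hB : EulerB N (badW W) F := hF
  obtain ⟨A, hS⟩ := bsd_setup hN F hFd hB
  obtain ⟨hg0, hg⟩ := GG_lead hN F hFd hB
  rw [← hr] at hg0 hg
  obtain ⟨B1, k, hB1, hgrow⟩ := GG_growth (bad := badW W) hN F hgr
  obtain ⟨B2, hB2, hright⟩ := right_bound (bad := badW W) hN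
  have hrh : ∀ s : ℂ, 0 < s.re → GG N (badW W) F s ≠ 0 := by
    intro s hs h0
    rw [GG_zero_iff hN F s hs.le] at h0
    refine hRH (1 + s) ?_ h0
    rw [add_re, one_re]
    linarith
  set g : ℝ := ‖iteratedDeriv r F 1‖ / (r.factorial : ℝ) * Real.exp (E0 N (badW W)) with hgdef
  have hgr2 : ∀ s : ℂ, -(1 / 100 : ℝ) < s.re → ‖GG N (badW W) F s‖ ≤ max B1 B2 * (1 + ‖s‖) ^ k := by
    intro s hs
    refine (hgrow s hs).trans ?_
    gcongr
    exact le_max_left _ _
  have hr2 : ∀ s : ℂ, (11 : ℝ) ≤ s.re →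
      ‖s * Lap (fun t => LL N (badW W) t - ee N (badW W) t) s‖ ≤ max B1 B2 := fun s hs =>
    (hright s hs).trans (le_max_right _ _)
  have hmm : Fac (GG N (badW W) F) (fun γ : ℝ => analyticOrderNatAt F (1 + γ * I)) := fun μ _ =>
    GG_fac hN F hFd hB (μ * I) (by simp)
  obtain ⟨G', A', a', B', c', k', hFr, -, -, hfac⟩ := frame_order' hS r g hg0 hg hrh hgr2 hr2 _ hmm
  obtain ⟨C, hC, hlow⟩ := low_of_frame hFr
  refine ⟨C + r, by positivity, fun w hw hw1 => ?_⟩
  have h1 := hlow w hw hw1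
  have h2 := hfac w hw
  have hG'0 : G' w ≠ 0 := hFr.rh w hw
  have hw0 : w ≠ 0 := by
    intro h0
    rw [h0] at hw
    simp at hw
  have h1w : (1 : ℂ) + w ≠ 0 := by
    intro h0
    have := congrArg Complex.re h0
    simp at this
    linarith
  have h3 : Real.log ‖GG N (badW W) F w‖ + r * Real.log ‖1 + w‖ = r * Real.log ‖w‖ + Real.log ‖G' w‖ := by
    have h4 := congrArg (fun z : ℂ => Real.log ‖z‖) h2
    simp only [norm_mul, norm_pow] at h4
    rw [Real.log_mul (norm_ne_zero_iff.2 (hrh w hw)) (pow_ne_zero _ (norm_ne_zero_iff.2 h1w)), Real.log_pow,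
      Real.log_mul (pow_ne_zero _ (norm_ne_zero_iff.2 hw0)) (norm_ne_zero_iff.2 hG'0), Real.log_pow] at h4
    exact h4
  have hwn : 0 < ‖w‖ := by linarith
  have h4 : Real.log ‖1 + w‖ ≤ Real.log ‖w‖ + 1 := by
    have h5 : ‖1 + w‖ ≤ 2 * ‖w‖ := by
      have := norm_add_le (1 : ℂ) w
      rw [norm_one] at this
      linarith
    have h6 := Real.log_le_log (norm_pos_iff.2 h1w) h5
    rw [Real.log_mul two_ne_zero hwn.ne'] at h6
    have h7 := Real.log_two_lt_d9
    linarith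
  have hr0 : (0 : ℝ) ≤ r := Nat.cast_nonneg r
  have h5 : (r : ℝ) * Real.log ‖1 + w‖ ≤ r * (Real.log ‖w‖ + 1) := mul_le_mul_of_nonneg_left h4 hr0
  have hℓ : 0 ≤ Real.log ‖w‖ - Real.log w.re := by
    rw [sub_nonneg]
    exact Real.log_le_log hw (re_le_norm w)
  have hprod : 1 ≤ ‖w‖ * (1 + (Real.log ‖w‖ - Real.log w.re)) := by nlinarith
  have h6 : (r : ℝ) * 1 ≤ r * (‖w‖ * (1 + (Real.log ‖w‖ - Real.log w.re))) := mul_le_mul_of_nonneg_left hprod hr0
  have h7 : (C + r) * ‖w‖ * (1 + (Real.log ‖w‖ - Real.log w.re)) =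
      C * ‖w‖ * (1 + (Real.log ‖w‖ - Real.log w.re)) + r * (‖w‖ * (1 + (Real.log ‖w‖ - Real.log w.re))) := by ring
  rw [h7]
  linarith

end Pool.Agent.Helper16.CR
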