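import Pool.Agent.Helper29.MS.Growth

/-!
CR-3, core. The local mean square of `L'` at distance `σ` from the line is `O(log² / σ)`, given the local bound by the zeros.
-/

set_option autoImplicit false

namespace Pool.Agent.Helper46.CR

open Complex Filter Topology MeasureTheory Set Metric
open Pool.Agent.Helper13.Bsd Pool.Agent.Helper7.GW Pool.Agent.Helper58.BSD Pool.Agent.Helper29.MS

theorem growth_core {c δ r K : ℝ} {D : ℂ → ℂ} (hc1 : 1 ≤ c) (hδ : 0 < δ) (hK : 0 ≤ K)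
    (hloc : ∀ τ0 : ℝ, ∃ (n : ℕ) (ρ : Fin n → ℂ),
      (n : ℝ) ≤ K * Real.log (2 + |τ0|) ∧ (∀ j, ‖ρ j‖ ≤ r ∧ (ρ j).re ≤ -c) ∧
      ∀ x y : ℝ, -c < x → x ≤ 0 → |y| ≤ δ →
        ‖D ((c : ℂ) + (τ0 : ℂ) * I + ((x : ℂ) + (y : ℂ) * I))‖ ≤
          K * Real.log (2 + |τ0|) + ∑ j, ‖(x : ℂ) + (y : ℂ) * I - ρ j‖⁻¹)
    (hinv : ∀ (σ : ℝ), 0 < σ → ∀ (x : ℝ) (ρ : ℂ), σ ≤ x - ρ.re →
      IntegrableOn (fun y : ℝ => (‖(x : ℂ) + (y : ℂ) * I - ρ‖⁻¹) ^ 2) (Icc (-δ) δ) ∧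
      ∫ y in Icc (-δ) δ, (‖(x : ℂ) + (y : ℂ) * I - ρ‖⁻¹) ^ 2 ≤ Real.pi / σ) :
    ∃ δ C : ℝ, 0 < δ ∧ 0 ≤ C ∧ ∀ σ τ0 : ℝ, 0 < σ → σ ≤ 1 →
      ∫ τ in Icc (τ0 - δ) (τ0 + δ), ‖D ((σ : ℂ) + (τ : ℂ) * I)‖ ^ 2 ≤
        C * Real.log (2 + |τ0|) ^ 2 / σ := by
  have hc0 : 0 < c := lt_of_lt_of_le one_pos hc1
  refine ⟨δ, 4 * δ * K ^ 2 + 2 * K ^ 2 * Real.pi, hδ, by positivity, ?_⟩
  intro σ τ0 hσ0 hσ1
  have hσc : σ ≤ c := hσ1.trans hc1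
  obtain ⟨n, ρ, hn, hρ, hb⟩ := hloc τ0
  set l : ℝ := Real.log (2 + |τ0|) with hl
  have hl2 : 0 < Real.log 2 := Real.log_pos (by norm_num)
  have hl0 : 0 < l := hl2.trans_le
    (Real.log_le_log (by norm_num) (by linarith [abs_nonneg τ0]))
  have hx1 : -c < σ - c := by linarith
  have hx2 : σ - c ≤ 0 := by linarith
  have htrans : ∫ τ in Icc (τ0 - δ) (τ0 + δ), ‖D ((σ : ℂ) + (τ : ℂ) * I)‖ ^ 2 =
      ∫ y in Icc (-δ) δ, ‖D ((σ : ℂ) + ((y + τ0 : ℝ) : ℂ) * I)‖ ^ 2 := by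
    rw [integral_Icc_eq_integral_Ioc, integral_Icc_eq_integral_Ioc,
      ← intervalIntegral.integral_of_le (by linarith),
      ← intervalIntegral.integral_of_le (by linarith),
      intervalIntegral.integral_comp_add_right
        (fun τ : ℝ => ‖D ((σ : ℂ) + (τ : ℂ) * I)‖ ^ 2)]
    congr 1 <;> ring
  have hint : ∀ j, IntegrableOn (fun y : ℝ =>
      (‖((σ - c : ℝ) : ℂ) + (y : ℂ) * I - ρ j‖⁻¹) ^ 2) (Icc (-δ) δ) ∧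
      ∫ y in Icc (-δ) δ, (‖((σ - c : ℝ) : ℂ) + (y : ℂ) * I - ρ j‖⁻¹) ^ 2 ≤ Real.pi / σ := by
    intro j
    refine hinv σ hσ0 (σ - c) (ρ j) ?_
    have h1 := (hρ j).2
    linarith
  have hg1 : IntegrableOn (fun _ : ℝ => 2 * K ^ 2 * l ^ 2) (Icc (-δ) δ) :=
    integrableOn_const (by rw [Real.volume_Icc]; exact ENNReal.ofReal_ne_top)
  have hg2 : IntegrableOn (fun y : ℝ => ∑ j,
      (‖((σ - c : ℝ) : ℂ) + (y : ℂ) * I - ρ j‖⁻¹) ^ 2) (Icc (-δ) δ) :=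
    integrable_finsetSum _ fun j _ => (hint j).1
  have hg : IntegrableOn (fun y : ℝ => 2 * K ^ 2 * l ^ 2 + 2 * (n : ℝ) * ∑ j,
      (‖((σ - c : ℝ) : ℂ) + (y : ℂ) * I - ρ j‖⁻¹) ^ 2) (Icc (-δ) δ) :=
    hg1.add (hg2.const_mul _)
  have hle : ∀ y ∈ Icc (-δ) δ, ‖D ((σ : ℂ) + ((y + τ0 : ℝ) : ℂ) * I)‖ ^ 2 ≤
      2 * K ^ 2 * l ^ 2 + 2 * (n : ℝ) * ∑ j,
        (‖((σ - c : ℝ) : ℂ) + (y : ℂ) * I - ρ j‖⁻¹) ^ 2 := by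
    intro y hy
    have h1 := hb (σ - c) y hx1 hx2 (abs_le.2 ⟨by linarith [hy.1], hy.2⟩)
    have h2 : (c : ℂ) + (τ0 : ℂ) * I + (((σ - c : ℝ) : ℂ) + (y : ℂ) * I) =
        (σ : ℂ) + ((y + τ0 : ℝ) : ℂ) * I := by
      push_cast
      ring
    rw [h2] at h1
    set S : ℝ := ∑ j, ‖((σ - c : ℝ) : ℂ) + (y : ℂ) * I - ρ j‖⁻¹ with hS
    have hS0 : 0 ≤ S := Finset.sum_nonneg fun j _ => inv_nonneg.2 (norm_nonneg _)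
    have h3 : S ^ 2 ≤ (n : ℝ) * ∑ j, (‖((σ - c : ℝ) : ℂ) + (y : ℂ) * I - ρ j‖⁻¹) ^ 2 := by
      have h4 := sq_sum_le_card_mul_sum_sq (s := (Finset.univ : Finset (Fin n)))
        (f := fun j => ‖((σ - c : ℝ) : ℂ) + (y : ℂ) * I - ρ j‖⁻¹)
      rw [Finset.card_univ, Fintype.card_fin] at h4
      exact h4
    have h5 : 0 ≤ K * l := by positivity
    have h6 : ‖D ((σ : ℂ) + ((y + τ0 : ℝ) : ℂ) * I)‖ ^ 2 ≤ (K * l + S) ^ 2 :=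
      pow_le_pow_left₀ (norm_nonneg _) h1 2
    have h7 : (K * l + S) ^ 2 ≤ 2 * (K * l) ^ 2 + 2 * S ^ 2 := by nlinarith [sq_nonneg (K * l - S)]
    have h8 : (K * l) ^ 2 = K ^ 2 * l ^ 2 := by ring
    nlinarith [h3, h6, h7, h8]
  rw [htrans]
  have hmono : ∫ y in Icc (-δ) δ, ‖D ((σ : ℂ) + ((y + τ0 : ℝ) : ℂ) * I)‖ ^ 2 ≤
      ∫ y in Icc (-δ) δ, (2 * K ^ 2 * l ^ 2 + 2 * (n : ℝ) * ∑ j,
        (‖((σ - c : ℝ) : ℂ) + (y : ℂ) * I - ρ j‖⁻¹) ^ 2) := by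
    refine integral_mono_of_nonneg (ae_of_all _ fun y => sq_nonneg _) hg ?_
    exact (ae_restrict_iff' measurableSet_Icc).2 (ae_of_all _ hle)
  refine hmono.trans ?_
  have e1 : ∫ _ in Icc (-δ) δ, 2 * K ^ 2 * l ^ 2 = (δ - -δ) * (2 * K ^ 2 * l ^ 2) := by
    rw [setIntegral_const, Real.volume_real_Icc_of_le (by linarith), smul_eq_mul]
  have e2 : ∫ y in Icc (-δ) δ, 2 * (n : ℝ) * ∑ j,
        (‖((σ - c : ℝ) : ℂ) + (y : ℂ) * I - ρ j‖⁻¹) ^ 2 =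
      2 * (n : ℝ) * ∑ j, ∫ y in Icc (-δ) δ,
        (‖((σ - c : ℝ) : ℂ) + (y : ℂ) * I - ρ j‖⁻¹) ^ 2 := by
    rw [integral_const_mul, integral_finsetSum _ fun j _ => (hint j).1]
  rw [integral_add hg1 (hg2.const_mul _), e1, e2]
  have hs : ∑ j, ∫ y in Icc (-δ) δ, (‖((σ - c : ℝ) : ℂ) + (y : ℂ) * I - ρ j‖⁻¹) ^ 2 ≤
      (n : ℝ) * (Real.pi / σ) := by
    refine (Finset.sum_le_sum fun j _ => (hint j).2).trans ?_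
    rw [Finset.sum_const, Finset.card_univ, Fintype.card_fin, nsmul_eq_mul]
  have hn0 : (0 : ℝ) ≤ n := Nat.cast_nonneg n
  have hπ : 0 ≤ Real.pi / σ := div_nonneg Real.pi_pos.le hσ0.le
  have h1 : 2 * (n : ℝ) * ∑ j, ∫ y in Icc (-δ) δ,
      (‖((σ - c : ℝ) : ℂ) + (y : ℂ) * I - ρ j‖⁻¹) ^ 2 ≤ 2 * (n : ℝ) * ((n : ℝ) * (Real.pi / σ)) :=
    mul_le_mul_of_nonneg_left hs (by positivity)
  have h2 : (n : ℝ) ^ 2 ≤ (K * l) ^ 2 := pow_le_pow_left₀ hn0 hn 2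
  have h3 : (n : ℝ) ^ 2 * (Real.pi / σ) ≤ (K * l) ^ 2 * (Real.pi / σ) :=
    mul_le_mul_of_nonneg_right h2 hπ
  have h4 : 4 * δ * K ^ 2 * l ^ 2 ≤ 4 * δ * K ^ 2 * l ^ 2 / σ := by
    rw [le_div_iff₀ hσ0]
    exact mul_le_of_le_one_right (by positivity) hσ1
  calc (δ - -δ) * (2 * K ^ 2 * l ^ 2) + 2 * (n : ℝ) * ∑ j, ∫ y in Icc (-δ) δ,
      (‖((σ - c : ℝ) : ℂ) + (y : ℂ) * I - ρ j‖⁻¹) ^ 2
      ≤ (δ - -δ) * (2 * K ^ 2 * l ^ 2) + 2 * (n : ℝ) * ((n : ℝ) * (Real.pi / σ)) := by linarith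
    _ = 4 * δ * K ^ 2 * l ^ 2 + 2 * ((n : ℝ) ^ 2 * (Real.pi / σ)) := by ring
    _ ≤ 4 * δ * K ^ 2 * l ^ 2 / σ + 2 * ((K * l) ^ 2 * (Real.pi / σ)) := by linarith
    _ = (4 * δ * K ^ 2 + 2 * K ^ 2 * Real.pi) * l ^ 2 / σ := by ring

end Pool.Agent.Helper46.CR
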