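import Pool.Agent.Helper29.MS.H2

/-!
CR-6, core. The mean square of `V' = -L' / w + (L + κ) / w²` on `Re w = σ` is `O(1 / σ)`.
Variant of MS-7 (`h2_bound`), from the conclusions of C3, C4, C5 and `growth_L2`.
-/

set_option autoImplicit false

namespace Pool.Agent.Helper46.CR

open Complex Filter Topology MeasureTheory Set Metric
open Pool.Agent.Helper13.Bsd Pool.Agent.Helper7.GW Pool.Agent.Helper58.BSD Pool.Agent.Helper29.MS

variable {v : ℝ → ℝ} {G : ℂ → ℂ} {A a η B c : ℝ} {k : ℕ}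

private theorem C6_log (D x : ℝ) (hD : 1 ≤ D) (hx : 0 ≤ x) (y : ℝ) (hy0 : 1 ≤ y) (hy : y ≤ D * (1 + x)) :
    Real.log y ≤ 4 * D * (1 + x) ^ (1 / 4 : ℝ) := by
  have h1 := Real.log_le_rpow_div (x := y) (by linarith) (show (0 : ℝ) < 1 / 4 by norm_num)
  have h2 : y ^ (1 / 4 : ℝ) ≤ (D * (1 + x)) ^ (1 / 4 : ℝ) :=
    Real.rpow_le_rpow (by linarith) hy (by norm_num)
  rw [Real.mul_rpow (by linarith) (by linarith)] at h2
  have h3 : D ^ (1 / 4 : ℝ) ≤ D := by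
    calc D ^ (1 / 4 : ℝ) ≤ D ^ (1 : ℝ) := Real.rpow_le_rpow_of_exponent_le hD (by norm_num)
      _ = D := Real.rpow_one D
  have h4 : 0 ≤ (1 + x) ^ (1 / 4 : ℝ) := Real.rpow_nonneg (by linarith) _
  have h5 : D ^ (1 / 4 : ℝ) * (1 + x) ^ (1 / 4 : ℝ) ≤ D * (1 + x) ^ (1 / 4 : ℝ) :=
    mul_le_mul_of_nonneg_right h3 h4
  calc Real.log y ≤ y ^ (1 / 4 : ℝ) / (1 / 4) := h1
    _ = 4 * y ^ (1 / 4 : ℝ) := by ring
    _ ≤ 4 * (D * (1 + x) ^ (1 / 4 : ℝ)) := by linarith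
    _ = 4 * D * (1 + x) ^ (1 / 4 : ℝ) := by ring

private theorem C6_summable : Summable (fun m : ℤ => (1 + |(m : ℝ)|) ^ (-(3 / 2) : ℝ)) := by
  have h : Summable (fun n : ℕ => (1 + |(n : ℝ)|) ^ (-(3 / 2) : ℝ)) := by
    have h1 : Summable (fun n : ℕ => (n : ℝ) ^ (-(3 / 2) : ℝ)) :=
      Real.summable_nat_rpow.2 (by norm_num)
    have h2 := (summable_nat_add_iff 1).2 h1
    refine h2.congr fun n => ?_
    rw [abs_of_nonneg (Nat.cast_nonneg n)]
    push_cast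
    rw [add_comm]
  refine Summable.of_nat_of_neg ?_ ?_
  · simpa using h
  · simpa using h

private theorem half_open : IsOpen {w : ℂ | 0 < w.re} :=
  isOpen_lt continuous_const Complex.continuous_re

private theorem cont_line {f : ℂ → ℂ} (hf : DifferentiableOn ℂ f {w : ℂ | 0 < w.re}) {σ : ℝ}
    (hσ : 0 < σ) : Continuous (fun τ : ℝ => ‖f ((σ : ℂ) + (τ : ℂ) * I)‖ ^ 2) := by
  have hre : ∀ τ : ℝ, ((σ : ℂ) + (τ : ℂ) * I).re = σ := fun τ => by simp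
  have hl : Continuous (fun τ : ℝ => (σ : ℂ) + (τ : ℂ) * I) := by fun_prop
  have hLc : Continuous (fun τ : ℝ => f ((σ : ℂ) + (τ : ℂ) * I)) := by
    refine continuous_iff_continuousAt.2 fun τ => ?_
    have h1 : ContinuousAt f ((σ : ℂ) + (τ : ℂ) * I) := by
      refine (hf.differentiableAt ?_).continuousAt
      refine half_open.mem_nhds ?_
      show 0 < ((σ : ℂ) + (τ : ℂ) * I).re
      rw [hre]
      exact hσ
    exact ContinuousAt.comp (f := fun τ : ℝ => (σ : ℂ) + (τ : ℂ) * I) (g := f) h1 hl.continuousAt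
  exact (hLc.norm).pow 2

private theorem vv_diff {L : ℂ → ℂ} (hL : DifferentiableOn ℂ L {w : ℂ | 0 < w.re}) (κ : ℝ) :
    DifferentiableOn ℂ (VV L κ) {w : ℂ | 0 < w.re} := by
  unfold VV
  refine ((hL.add_const _).neg).div differentiableOn_id fun w hw h0 => ?_
  have hw' : 0 < w.re := hw
  rw [show w = 0 from h0] at hw'
  simp at hw'

private theorem vv_deriv {L : ℂ → ℂ} (hL : DifferentiableOn ℂ L {w : ℂ | 0 < w.re}) (κ : ℝ)
    {w : ℂ} (hw : 0 < w.re) :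
    deriv (VV L κ) w = -deriv L w / w + (L w + (κ : ℂ)) / w ^ 2 := by
  have hw0 : w ≠ 0 := by
    rintro rfl
    simp at hw
  have h1 : HasDerivAt L (deriv L w) w :=
    (hL.differentiableAt (half_open.mem_nhds hw)).hasDerivAt
  have h2 : HasDerivAt (fun z => -(L z + (κ : ℂ)) / z)
      ((-(deriv L w) * w - -(L w + (κ : ℂ)) * 1) / w ^ 2) w :=
    ((h1.add_const _).neg).div (hasDerivAt_id w) hw0
  have h3 : VV L κ = fun z => -(L z + (κ : ℂ)) / z := rfl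
  rw [h3, h2.deriv]
  field_simp
  ring

/-- pointwise bound away from `0` -/
private theorem C6_pt {L : ℂ → ℂ} (hL : DifferentiableOn ℂ L {w : ℂ | 0 < w.re})
    (κ σ τ q c2 : ℝ) (hσ : 0 < σ) (hc2 : 0 < c2) (hq : c2 ≤ q) (hqt : q ≤ |τ|) :
    ‖deriv (VV L κ) ((σ : ℂ) + (τ : ℂ) * I)‖ ^ 2 ≤
      2 / q ^ 2 * (‖deriv L ((σ : ℂ) + (τ : ℂ) * I)‖ ^ 2 +
        2 / c2 ^ 2 * (‖L ((σ : ℂ) + (τ : ℂ) * I)‖ ^ 2 + κ ^ 2)) := by
  have hqp : 0 < q := hc2.trans_le hq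
  have him : ((σ : ℂ) + (τ : ℂ) * I).im = τ := by simp
  have hre : ((σ : ℂ) + (τ : ℂ) * I).re = σ := by simp
  obtain ⟨w, hw⟩ : ∃ w : ℂ, w = (σ : ℂ) + (τ : ℂ) * I := ⟨_, rfl⟩
  rw [← hw] at him hre ⊢
  have h1 : q ≤ ‖w‖ := by
    have := Complex.abs_im_le_norm w
    rw [him] at this
    linarith
  have hwp : 0 < ‖w‖ := hqp.trans_le h1
  rw [vv_deriv hL κ (by rw [hre]; exact hσ)]
  have h2 : ‖L w + (κ : ℂ)‖ ^ 2 ≤ 2 * (‖L w‖ ^ 2 + κ ^ 2) := by
    have e1 := norm_add_le (L w) (κ : ℂ)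
    rw [Complex.norm_real, Real.norm_eq_abs] at e1
    have e2 : ‖L w + (κ : ℂ)‖ ^ 2 ≤ (‖L w‖ + |κ|) ^ 2 := by gcongr
    nlinarith [sq_nonneg (‖L w‖ - |κ|), sq_abs κ]
  have h3 : ‖-deriv L w / w + (L w + (κ : ℂ)) / w ^ 2‖ ^ 2 ≤
      2 * (‖deriv L w‖ ^ 2 / ‖w‖ ^ 2) + 2 * (‖L w + (κ : ℂ)‖ ^ 2 / ‖w‖ ^ 4) := by
    have e1 := norm_add_le (-deriv L w / w) ((L w + (κ : ℂ)) / w ^ 2)
    rw [norm_div, norm_div, norm_neg, norm_pow] at e1
    have e2 : ‖-deriv L w / w + (L w + (κ : ℂ)) / w ^ 2‖ ^ 2 ≤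
        (‖deriv L w‖ / ‖w‖ + ‖L w + (κ : ℂ)‖ / ‖w‖ ^ 2) ^ 2 :=
      pow_le_pow_left₀ (norm_nonneg _) e1 2
    have e3 : (‖deriv L w‖ / ‖w‖ + ‖L w + (κ : ℂ)‖ / ‖w‖ ^ 2) ^ 2 ≤
        2 * (‖deriv L w‖ / ‖w‖) ^ 2 + 2 * (‖L w + (κ : ℂ)‖ / ‖w‖ ^ 2) ^ 2 := by
      nlinarith [sq_nonneg (‖deriv L w‖ / ‖w‖ - ‖L w + (κ : ℂ)‖ / ‖w‖ ^ 2)]
    rw [div_pow, div_pow, ← pow_mul] at e3
    exact e2.trans e3
  have h4 : ‖deriv L w‖ ^ 2 / ‖w‖ ^ 2 ≤ ‖deriv L w‖ ^ 2 / q ^ 2 :=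
    div_le_div_of_nonneg_left (by positivity) (by positivity) (by gcongr)
  have h5 : ‖L w + (κ : ℂ)‖ ^ 2 / ‖w‖ ^ 4 ≤ 2 * (‖L w‖ ^ 2 + κ ^ 2) / (q ^ 2 * c2 ^ 2) := by
    apply div_le_div₀ (by positivity) h2 (by positivity)
    have e1 : q ^ 2 ≤ ‖w‖ ^ 2 := by gcongr
    have e2 : c2 ^ 2 ≤ ‖w‖ ^ 2 := by
      have := hq.trans h1
      gcongr
    calc q ^ 2 * c2 ^ 2 ≤ ‖w‖ ^ 2 * ‖w‖ ^ 2 := mul_le_mul e1 e2 (by positivity) (by positivity)
      _ = ‖w‖ ^ 4 := by ring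
  calc ‖-deriv L w / w + (L w + (κ : ℂ)) / w ^ 2‖ ^ 2 ≤
        2 * (‖deriv L w‖ ^ 2 / ‖w‖ ^ 2) + 2 * (‖L w + (κ : ℂ)‖ ^ 2 / ‖w‖ ^ 4) := h3
    _ ≤ 2 * (‖deriv L w‖ ^ 2 / q ^ 2) + 2 * (2 * (‖L w‖ ^ 2 + κ ^ 2) / (q ^ 2 * c2 ^ 2)) := by
        linarith
    _ = _ := by
        field_simp

theorem h2_deriv_core (hF : Frame v G A a η B c k) {L : ℂ → ℂ} (hL : Branch v G a L)
    (hC3 : ∃ δ C : ℝ, 0 < δ ∧ 0 ≤ C ∧ ∀ σ τ0 : ℝ, 0 < σ → σ ≤ 1 →
      ∫ τ in Icc (τ0 - δ) (τ0 + δ), ‖deriv L ((σ : ℂ) + (τ : ℂ) * I)‖ ^ 2 ≤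
        C * Real.log (2 + |τ0|) ^ 2 / σ)
    (hC4 : ∀ σ0 : ℝ, 0 < σ0 → ∃ C : ℝ, 0 ≤ C ∧ ∀ w : ℂ, σ0 ≤ w.re →
      ‖deriv (VV L (kap G)) w‖ ≤ C * (1 + |w.im|) ^ (-(3 / 4) : ℝ))
    (hC5 : ∃ δ K : ℝ, 0 < δ ∧ 0 ≤ K ∧ ∀ w : ℂ, 0 < w.re → ‖w‖ < δ →
      ‖deriv (VV L (kap G)) w‖ ≤ K) :
    ∃ K : ℝ, 0 ≤ K ∧ ∀ σ : ℝ, 0 < σ → σ ≤ 1 →
      Integrable (fun τ : ℝ => ‖deriv (VV L (kap G)) ((σ : ℂ) + (τ : ℂ) * I)‖ ^ 2) ∧
      ∫ τ : ℝ, ‖deriv (VV L (kap G)) ((σ : ℂ) + (τ : ℂ) * I)‖ ^ 2 ≤ K / σ := by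
  obtain ⟨δ, K1, hδ, hK1, hnear⟩ := hC5
  set δ0 : ℝ := δ / 3 with hδ0
  have hδ0p : 0 < δ0 := by positivity
  obtain ⟨C1, hC1, hgr⟩ := hC4 δ0 hδ0p
  obtain ⟨δa, C2, hδa, hC2, hL2⟩ := growth_L2 hF hL
  obtain ⟨δb, Cd, hδb, hCd, hLd⟩ := hC3
  set δ1 : ℝ := min δa δb with hδ1d
  have hδ1 : 0 < δ1 := lt_min hδa hδb
  have hδ1a : δ1 ≤ δa := min_le_left _ _
  have hδ1b : δ1 ≤ δb := min_le_right _ _
  set K' : ℝ := K1 + C1 with hK'
  have hK'0 : 0 ≤ K' := by positivity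
  -- (a)
  have hcen : ∀ σ τ : ℝ, 0 < σ → |τ| ≤ δ0 →
      ‖deriv (VV L (kap G)) ((σ : ℂ) + (τ : ℂ) * I)‖ ≤ K' := by
    intro σ τ hσ hτ
    have hre : ((σ : ℂ) + (τ : ℂ) * I).re = σ := by simp
    rcases le_or_gt σ δ0 with h | h
    · have h1 : ‖(σ : ℂ) + (τ : ℂ) * I‖ < δ := by
        have e1 := norm_add_le (σ : ℂ) ((τ : ℂ) * I)
        rw [norm_mul, Complex.norm_I, mul_one, Complex.norm_real, Complex.norm_real,
          Real.norm_eq_abs, Real.norm_eq_abs, abs_of_pos hσ] at e1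
        have : δ0 * 3 = δ := by rw [hδ0]; ring
        linarith
      have h2 := hnear _ (by rw [hre]; exact hσ) h1
      linarith
    · have h2 := hgr ((σ : ℂ) + (τ : ℂ) * I) (by rw [hre]; exact h.le)
      have h3 : (1 + |((σ : ℂ) + (τ : ℂ) * I).im|) ^ (-(3 / 4) : ℝ) ≤ 1 :=
        Real.rpow_le_one_of_one_le_of_nonpos (by linarith [abs_nonneg ((σ : ℂ) + (τ : ℂ) * I).im])
          (by norm_num)
      have h4 := mul_le_mul_of_nonneg_left h3 hC1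
      linarith
  set c2 : ℝ := min δ0 (δ1 / 2) with hc2
  have hc2p : 0 < c2 := by positivity
  set κ : ℝ := kap G with hκ
  set D : ℝ := 2 + 2 * δ1 with hD
  set C3 : ℝ := 2 / c2 ^ 2 * (16 * D ^ 2 * Cd + 2 / c2 ^ 2 * (16 * D ^ 2 * C2 + 2 * δ1 * κ ^ 2))
    with hC3
  have hC3p : 0 ≤ C3 := by positivity
  set b : ℤ → ℝ := fun m => C3 * (1 + |(m : ℝ)|) ^ (-(3 / 2) : ℝ) with hb
  have hb0 : ∀ m, 0 ≤ b m := fun m => by
    have : 0 ≤ |(m : ℝ)| := abs_nonneg _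
    positivity
  have hbs : Summable b := C6_summable.mul_left C3
  have hts : 0 ≤ ∑' m, b m := tsum_nonneg hb0
  refine ⟨2 * δ0 * K' ^ 2 + ∑' m, b m, by positivity, fun σ hσ hσ1 => ?_⟩
  have hcL := cont_line hL.diff hσ
  have hcD := cont_line (hL.diff.deriv half_open) hσ
  have hcV := cont_line ((vv_diff hL.diff (kap G)).deriv half_open) hσ
  rw [← hκ] at hcV
  set f : ℝ → ℝ := fun τ => ‖deriv (VV L κ) ((σ : ℂ) + (τ : ℂ) * I)‖ ^ 2 with hf
  have hf0 : ∀ τ, 0 ≤ f τ := fun τ => by positivity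
  set S0 : Set ℝ := Icc (-δ0) δ0 with hS0
  set J : ℤ → Set ℝ := fun m => Icc (2 * δ1 * m - δ1) (2 * δ1 * m + δ1) with hJ
  have hσi : 1 ≤ 1 / σ := by
    rw [le_div_iff₀ hσ]
    linarith
  have hlint : ∫⁻ τ, ENNReal.ofReal (f τ) ≤
      ENNReal.ofReal (2 * δ0 * K' ^ 2 + ∑' m, b m / σ) := by
    have hcov : (univ : Set ℝ) ⊆ S0 ∪ ⋃ m, (J m \ S0) := by
      intro τ _
      by_cases h : τ ∈ S0
      · exact Or.inl h
      · refine Or.inr (mem_iUnion.2 ⟨round (τ / (2 * δ1)), ?_, h⟩)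
        have h1 := abs_sub_round (τ / (2 * δ1))
        rw [abs_le] at h1
        have h2 : τ = τ / (2 * δ1) * (2 * δ1) := by field_simp
        constructor
        · nlinarith [h1.1, h1.2]
        · nlinarith [h1.1, h1.2]
    have h1 : ∫⁻ τ in S0, ENNReal.ofReal (f τ) ≤ ENNReal.ofReal (2 * δ0 * K' ^ 2) := by
      calc ∫⁻ τ in S0, ENNReal.ofReal (f τ) ≤ ∫⁻ τ in S0, ENNReal.ofReal (K' ^ 2) := by
            refine setLIntegral_mono measurable_const fun τ hτ => ENNReal.ofReal_le_ofReal ?_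
            have := hcen σ τ hσ (abs_le.2 hτ)
            show ‖deriv (VV L κ) ((σ : ℂ) + (τ : ℂ) * I)‖ ^ 2 ≤ K' ^ 2
            gcongr
        _ = ENNReal.ofReal (2 * δ0 * K' ^ 2) := by
            rw [setLIntegral_const, hS0, Real.volume_Icc, ← ENNReal.ofReal_mul (by positivity)]
            congr 1
            ring
    have h2 : ∀ m, ∫⁻ τ in J m \ S0, ENNReal.ofReal (f τ) ≤ ENNReal.ofReal (b m / σ) := by
      intro m
      have hM : 0 ≤ |(m : ℝ)| := abs_nonneg _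
      set M : ℝ := |(m : ℝ)| with hMdef
      set q : ℝ := c2 * (1 + M) with hq
      have hqp : 0 < q := by positivity
      have hqc : c2 ≤ q := by
        rw [hq]
        nlinarith
      have hqt : ∀ τ ∈ J m \ S0, q ≤ |τ| := by
        rintro τ ⟨hτ, hτ0⟩
        have e1 : |τ - 2 * δ1 * m| ≤ δ1 := by
          rw [abs_le]
          constructor
          · linarith [hτ.1]
          · linarith [hτ.2]
        have e2 : δ0 < |τ| := by
          by_contra h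
          exact hτ0 (abs_le.1 (not_lt.1 h))
        have e3 : c2 ≤ δ0 := min_le_left _ _
        have e4 : c2 ≤ δ1 / 2 := min_le_right _ _
        rcases eq_or_ne m 0 with h | h
        · rw [hq, hMdef, h]
          simp only [Int.cast_zero, abs_zero, add_zero, mul_one]
          linarith
        · have e5 : 1 ≤ M := by
            rw [hMdef, ← Int.cast_abs]
            exact_mod_cast Int.one_le_abs h
          have e6 : 2 * δ1 * M ≤ |τ| + δ1 := by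
            have e7 : |2 * δ1 * (m : ℝ)| = 2 * δ1 * M := by
              rw [abs_mul, abs_of_pos (by positivity : (0 : ℝ) < 2 * δ1)]
            have e8 := abs_sub_abs_le_abs_sub (2 * δ1 * (m : ℝ)) τ
            rw [abs_sub_comm, e7] at e8
            linarith
          have e9 : q ≤ δ1 / 2 * (1 + M) := mul_le_mul_of_nonneg_right e4 (by linarith)
          nlinarith
      have hJc : IsCompact (J m) := isCompact_Icc
      have hJv : volume.real (J m) = 2 * δ1 := by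
        rw [measureReal_def, Real.volume_Icc, ENNReal.toReal_ofReal (by linarith)]
        ring
      set gL : ℝ → ℝ := fun τ => ‖L ((σ : ℂ) + (τ : ℂ) * I)‖ ^ 2 with hgL
      set gD : ℝ → ℝ := fun τ => ‖deriv L ((σ : ℂ) + (τ : ℂ) * I)‖ ^ 2 with hgD
      set g : ℝ → ℝ := fun τ => 2 / q ^ 2 * (gD τ + 2 / c2 ^ 2 * (gL τ + κ ^ 2)) with hg
      have hgc : Continuous g :=
        (hcD.add ((hcL.add continuous_const).const_smul (2 / c2 ^ 2))).const_smul (2 / q ^ 2)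
      have hgi : IntegrableOn g (J m) := hgc.continuousOn.integrableOn_compact hJc
      have hg0 : ∀ τ, 0 ≤ g τ := fun τ => by positivity
      have hLi : IntegrableOn gL (J m) := hcL.continuousOn.integrableOn_compact hJc
      have hDi : IntegrableOn gD (J m) := hcD.continuousOn.integrableOn_compact hJc
      have hlogb : Real.log (2 + |2 * δ1 * (m : ℝ)|) ^ 2 ≤ 16 * D ^ 2 * (1 + M) ^ (1 / 2 : ℝ) := by
        have e3 : Real.log (2 + |2 * δ1 * (m : ℝ)|) ≤ 4 * D * (1 + M) ^ (1 / 4 : ℝ) := by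
          have e7 : |2 * δ1 * (m : ℝ)| = 2 * δ1 * M := by
            rw [abs_mul, abs_of_pos (by positivity : (0 : ℝ) < 2 * δ1)]
          rw [e7]
          have : 0 ≤ 2 * δ1 * M := by positivity
          exact C6_log D M (by linarith) hM _ (by linarith) (by rw [hD]; nlinarith)
        have e4 : 0 ≤ Real.log (2 + |2 * δ1 * (m : ℝ)|) :=
          Real.log_nonneg (by linarith [abs_nonneg (2 * δ1 * (m : ℝ))])
        have h5 : Real.log (2 + |2 * δ1 * (m : ℝ)|) ^ 2 ≤ (4 * D * (1 + M) ^ (1 / 4 : ℝ)) ^ 2 := by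
          gcongr
        have h6 : ((1 + M) ^ (1 / 4 : ℝ)) ^ 2 = (1 + M) ^ (1 / 2 : ℝ) := by
          rw [← Real.rpow_natCast, ← Real.rpow_mul (by linarith)]
          norm_num
        calc _ ≤ (4 * D * (1 + M) ^ (1 / 4 : ℝ)) ^ 2 := h5
          _ = 16 * D ^ 2 * ((1 + M) ^ (1 / 4 : ℝ)) ^ 2 := by ring
          _ = _ := by rw [h6]
      have hLb : ∫ τ in J m, gL τ ≤ C2 * Real.log (2 + |2 * δ1 * (m : ℝ)|) ^ 2 := by
        refine le_trans ?_ (hL2 σ (2 * δ1 * m) hσ (hσ1.trans hF.hc1))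
        refine setIntegral_mono_set (hcL.continuousOn.integrableOn_compact isCompact_Icc)
          (Eventually.of_forall fun τ => sq_nonneg _) (LE.le.eventuallyLE ?_)
        exact Icc_subset_Icc (by linarith) (by linarith)
      have hDb : ∫ τ in J m, gD τ ≤ Cd * Real.log (2 + |2 * δ1 * (m : ℝ)|) ^ 2 / σ := by
        refine le_trans ?_ (hLd σ (2 * δ1 * m) hσ hσ1)
        refine setIntegral_mono_set (hcD.continuousOn.integrableOn_compact isCompact_Icc)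
          (Eventually.of_forall fun τ => sq_nonneg _) (LE.le.eventuallyLE ?_)
        exact Icc_subset_Icc (by linarith) (by linarith)
      have hgb : ∫ τ in J m, g τ ≤ b m / σ := by
        have e1 : ∫ τ in J m, g τ =
            2 / q ^ 2 * ((∫ τ in J m, gD τ) +
              2 / c2 ^ 2 * ((∫ τ in J m, gL τ) + 2 * δ1 * κ ^ 2)) := by
          have i1 : IntegrableOn (fun _ : ℝ => κ ^ 2) (J m) :=
            integrableOn_const hJc.measure_lt_top.ne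
          have i2 : IntegrableOn (fun τ => gL τ + κ ^ 2) (J m) := hLi.add i1
          have i3 : IntegrableOn (fun τ => 2 / c2 ^ 2 * (gL τ + κ ^ 2)) (J m) := i2.const_mul _
          have j1 : ∫ τ in J m, (gL τ + κ ^ 2) = (∫ τ in J m, gL τ) + 2 * δ1 * κ ^ 2 := by
            rw [integral_add hLi i1, setIntegral_const, hJv, smul_eq_mul]
          have j2 : ∫ τ in J m, (gD τ + 2 / c2 ^ 2 * (gL τ + κ ^ 2)) = (∫ τ in J m, gD τ) +
              2 / c2 ^ 2 * ((∫ τ in J m, gL τ) + 2 * δ1 * κ ^ 2) := by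
            rw [integral_add hDi i3, integral_const_mul, j1]
          rw [hg, integral_const_mul, j2]
        set Y : ℝ := (1 + M) ^ (1 / 2 : ℝ) with hY
        have hY1 : 1 ≤ Y := Real.one_le_rpow (by linarith) (by norm_num)
        have hY0 : 0 ≤ Y := by linarith
        have f1 : ∫ τ in J m, gD τ ≤ 16 * D ^ 2 * Cd * Y / σ := by
          refine hDb.trans ?_
          apply div_le_div_of_nonneg_right _ hσ.le
          have := mul_le_mul_of_nonneg_left hlogb hCd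
          linarith
        have f2 : (∫ τ in J m, gL τ) + 2 * δ1 * κ ^ 2 ≤
            (16 * D ^ 2 * C2 + 2 * δ1 * κ ^ 2) * Y / σ := by
          have h7 := mul_le_mul_of_nonneg_left hlogb hC2
          have h8 : 2 * δ1 * κ ^ 2 * 1 ≤ 2 * δ1 * κ ^ 2 * Y :=
            mul_le_mul_of_nonneg_left hY1 (by positivity)
          have h9 : (16 * D ^ 2 * C2 + 2 * δ1 * κ ^ 2) * Y ≤
              (16 * D ^ 2 * C2 + 2 * δ1 * κ ^ 2) * Y / σ := by
            rw [le_div_iff₀ hσ]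
            exact mul_le_of_le_one_right (by positivity) hσ1
          linarith
        have f3 : (∫ τ in J m, gD τ) + 2 / c2 ^ 2 * ((∫ τ in J m, gL τ) + 2 * δ1 * κ ^ 2) ≤
            (16 * D ^ 2 * Cd + 2 / c2 ^ 2 * (16 * D ^ 2 * C2 + 2 * δ1 * κ ^ 2)) * Y / σ := by
          have h7 := mul_le_mul_of_nonneg_left f2 (show 0 ≤ 2 / c2 ^ 2 by positivity)
          have h8 : (16 * D ^ 2 * Cd + 2 / c2 ^ 2 * (16 * D ^ 2 * C2 + 2 * δ1 * κ ^ 2)) * Y / σ =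
              16 * D ^ 2 * Cd * Y / σ +
                2 / c2 ^ 2 * ((16 * D ^ 2 * C2 + 2 * δ1 * κ ^ 2) * Y / σ) := by
            ring
          rw [h8]
          linarith
        have e8 : (1 + M) ^ (-(3 / 2) : ℝ) = Y / (1 + M) ^ 2 := by
          rw [hY, show (-(3 / 2) : ℝ) = 1 / 2 - 2 by norm_num, Real.rpow_sub (by linarith)]
          norm_num
        have e9 : 2 / q ^ 2 * ((16 * D ^ 2 * Cd + 2 / c2 ^ 2 * (16 * D ^ 2 * C2 + 2 * δ1 * κ ^ 2)) *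
            Y / σ) = b m / σ := by
          simp only [hb]
          rw [← hMdef, e8, hC3, hq]
          have : (1 + M) ≠ 0 := by positivity
          field_simp
        rw [e1, ← e9]
        exact mul_le_mul_of_nonneg_left f3 (by positivity)
      calc ∫⁻ τ in J m \ S0, ENNReal.ofReal (f τ) ≤ ∫⁻ τ in J m \ S0, ENNReal.ofReal (g τ) := by
            refine setLIntegral_mono hgc.measurable.ennreal_ofReal fun τ hτ =>
              ENNReal.ofReal_le_ofReal ?_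
            exact C6_pt hL.diff κ σ τ q c2 hσ hc2p hqc (hqt τ hτ)
        _ ≤ ∫⁻ τ in J m, ENNReal.ofReal (g τ) := lintegral_mono_set Set.sdiff_subset
        _ = ENNReal.ofReal (∫ τ in J m, g τ) :=
            (ofReal_integral_eq_lintegral_ofReal hgi (Eventually.of_forall hg0)).symm
        _ ≤ ENNReal.ofReal (b m / σ) := ENNReal.ofReal_le_ofReal hgb
    have hbσ0 : ∀ m, 0 ≤ b m / σ := fun m => div_nonneg (hb0 m) hσ.le
    have hbσs : Summable (fun m => b m / σ) := hbs.div_const σ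
    calc ∫⁻ τ, ENNReal.ofReal (f τ) = ∫⁻ τ in univ, ENNReal.ofReal (f τ) := by
          rw [setLIntegral_univ]
      _ ≤ ∫⁻ τ in S0 ∪ ⋃ m, (J m \ S0), ENNReal.ofReal (f τ) := lintegral_mono_set hcov
      _ ≤ (∫⁻ τ in S0, ENNReal.ofReal (f τ)) + ∫⁻ τ in ⋃ m, (J m \ S0), ENNReal.ofReal (f τ) :=
          lintegral_union_le _ _ _
      _ ≤ ENNReal.ofReal (2 * δ0 * K' ^ 2) + ∑' m, ENNReal.ofReal (b m / σ) := by
          refine add_le_add h1 ?_
          exact (lintegral_iUnion_le _ _).trans (ENNReal.tsum_le_tsum h2)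
      _ = ENNReal.ofReal (2 * δ0 * K' ^ 2 + ∑' m, b m / σ) := by
          rw [← ENNReal.ofReal_tsum_of_nonneg hbσ0 hbσs, ENNReal.ofReal_add (by positivity)
            (tsum_nonneg hbσ0)]
  have hle : 2 * δ0 * K' ^ 2 + ∑' m, b m / σ ≤ (2 * δ0 * K' ^ 2 + ∑' m, b m) / σ := by
    rw [tsum_div_const, add_div]
    have : 2 * δ0 * K' ^ 2 ≤ 2 * δ0 * K' ^ 2 / σ := by
      rw [le_div_iff₀ hσ]
      exact mul_le_of_le_one_right (by positivity) hσ1
    linarith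
  have hint : Integrable f := by
    refine ⟨hcV.aestronglyMeasurable, ?_⟩
    rw [hasFiniteIntegral_iff_ofReal (Eventually.of_forall hf0)]
    exact hlint.trans_lt ENNReal.ofReal_lt_top
  refine ⟨hint, ?_⟩
  have h3 := ofReal_integral_eq_lintegral_ofReal hint (Eventually.of_forall hf0)
  rw [← h3] at hlint
  exact ((ENNReal.ofReal_le_ofReal_iff (by
    have : 0 ≤ ∑' m, b m / σ := tsum_nonneg fun m => div_nonneg (hb0 m) hσ.le
    positivity)).1 hlint).trans hle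

end Pool.Agent.Helper46.CR
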