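import Pool.Agent.Helper46.CR.D2core
import Pool.Agent.Helper16.CR.C8r
import Pool.Agent.Helper76.CR.K5b
import Pool.Agent.Helper16.OM.Count

/-!
CR, leaf D2: `t (v t - κ)` is almost periodic in mean square (the zeros on the line are the frequencies).
-/

set_option autoImplicit false

namespace Pool.Agent.Helper46.CR

open Complex Filter Topology MeasureTheory Set Metric
open Pool.Agent.Helper13.Bsd Pool.Agent.Helper7.GW Pool.Agent.Helper58.BSD Pool.Agent.Helper29.MS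
open Pool.Agent.Helper16.CR Pool.Agent.Helper16.OM

variable {v : ℝ → ℝ} {G : ℂ → ℂ} {A a η B c : ℝ} {k : ℕ}

private theorem d2_lapInt {f : ℝ → ℝ} {A a : ℝ} (h : Grow f A a) {x : ℝ} (hx : a < x) : LapInt f x := by
  unfold LapInt
  have hint : IntegrableOn (fun t : ℝ => A * Real.exp (-(x - a) * t)) (Ioi (0 : ℝ)) :=
    (exp_neg_integrableOn_Ioi 0 (by linarith : (0 : ℝ) < x - a)).const_mul A
  refine Integrable.mono' hint ?_ ?_
  · exact (h.meas.mul (by fun_prop)).aestronglyMeasurable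
  · rw [ae_restrict_iff' measurableSet_Ioi]
    filter_upwards with t ht
    have h1 := h.bd t ht
    rw [norm_mul, Real.norm_eq_abs, Real.norm_eq_abs, Real.abs_exp]
    calc |f t| * Real.exp (-x * t) ≤ (A * Real.exp (a * t)) * Real.exp (-x * t) :=
          mul_le_mul_of_nonneg_right h1 (Real.exp_pos _).le
      _ = A * Real.exp (-(x - a) * t) := by
          rw [mul_assoc, ← Real.exp_add]
          ring_nf

private theorem d2_lap_const (κ : ℝ) {w : ℂ} (hw : 0 < w.re) : Lap (fun _ => κ) w = (κ : ℂ) / w := by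
  unfold Lap
  rw [integral_const_mul]
  have h1 : ∫ t in Ioi (0 : ℝ), cexp (-w * t) = -cexp (-w * ((0 : ℝ) : ℂ)) / (-w) :=
    integral_exp_mul_complex_Ioi (by simpa using hw) 0
  rw [h1]
  have hw0 : w ≠ 0 := by
    intro h
    rw [h] at hw
    simp at hw
  simp only [ofReal_zero, mul_zero, Complex.exp_zero]
  field_simp

private theorem d2_hp (x : ℝ) : IsOpen {w : ℂ | x < w.re} := isOpen_lt continuous_const continuous_re

/-- the Laplace transform of `t (v t - κ)` in the whole half plane -/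
theorem lap_all (hF : Frame v G A a η B c k) {L : ℂ → ℂ} (hL : Branch v G a L) {w : ℂ} (hw : 0 < w.re) :
    ∫ t in Ioi (0 : ℝ), ((t * (v t - kap G) : ℝ) : ℂ) * cexp (-w * t) = -deriv (VV L (kap G)) w := by
  have ha : 0 ≤ a := hF.setup.grow.ha
  have hgu : Grow (fun t => v t - kap G) (A + |kap G|) a := by
    refine ⟨hF.setup.grow.meas.sub_const _, add_nonneg hF.setup.grow.hA (abs_nonneg _), ha, fun t ht => ?_⟩
    have h1 := hF.setup.grow.bd t ht
    have h2 : (1 : ℝ) ≤ Real.exp (a * t) := Real.one_le_exp (by positivity)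
    have h3 : |kap G| * 1 ≤ |kap G| * Real.exp (a * t) := mul_le_mul_of_nonneg_left h2 (abs_nonneg _)
    have h4 : |v t - kap G| ≤ |v t| + |kap G| := abs_sub _ _
    rw [add_mul]
    linarith
  obtain ⟨hgt, hlapt⟩ := lap_mul_t hgu
  have hne : ∀ w : ℂ, 0 < w.re → w ≠ 0 := by
    intro w hw h
    rw [h] at hw
    simp at hw
  have hV : DifferentiableOn ℂ (VV L (kap G)) {w : ℂ | 0 < w.re} := by
    have h1 : DifferentiableOn ℂ (fun w => -(L w + (kap G : ℂ)) / w) {w : ℂ | 0 < w.re} :=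
      ((hL.diff.add_const _).neg).div differentiableOn_id fun w hw => hne w hw
    exact h1
  have hVu : ∀ w : ℂ, a < w.re → VV L (kap G) w = Lap (fun t => v t - kap G) w := by
    intro w hw
    have hw0 : 0 < w.re := ha.trans_lt hw
    have hg0 : Grow (fun _ : ℝ => kap G) |kap G| 0 :=
      ⟨measurable_const, abs_nonneg _, le_rfl, fun t _ => by simp⟩
    rw [Lap_sub hF.setup.grow.meas measurable_const (d2_lapInt hF.setup.grow hw) (d2_lapInt hg0 hw0),
      d2_lap_const _ hw0]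
    unfold VV
    rw [hL.eq w hw]
    have := hne w hw0
    field_simp
    ring
  have hV1u : ∀ w : ℂ, a + 1 < w.re → -deriv (VV L (kap G)) w = Lap (fun t => t * (v t - kap G)) w := by
    intro w hw
    rw [hlapt w hw]
    congr 1
    have h1 : VV L (kap G) =ᶠ[𝓝 w] Lap (fun t => v t - kap G) := by
      filter_upwards [(d2_hp a).mem_nhds (show a < w.re by linarith)] with z hz
      exact hVu z hz
    exact h1.deriv_eq
  obtain ⟨-, hpl⟩ := planch_deriv hF hL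
  have hli : ∀ x : ℝ, 0 < x → LapInt (fun t => t * (v t - kap G)) x := by
    intro x hx
    unfold LapInt
    have h1 := (hpl (x / 2) (by positivity)).1
    rw [show 2 * (x / 2) = x by ring] at h1
    have hg : IntegrableOn (fun t : ℝ => ((t * (v t - kap G)) ^ 2 * Real.exp (-x * t) + Real.exp (-x * t)) / 2)
        (Ioi 0) := (h1.add (exp_neg_integrableOn_Ioi 0 hx)).div_const 2
    refine Integrable.mono' hg ?_ (Eventually.of_forall fun t => ?_)
    · exact (hgt.meas.mul (by fun_prop)).aestronglyMeasurable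
    · have e0 := Real.exp_pos (-x * t)
      rw [norm_mul, Real.norm_eq_abs, Real.norm_eq_abs, abs_of_pos e0]
      have e1 : |t * (v t - kap G)| ≤ ((t * (v t - kap G)) ^ 2 + 1) / 2 := by
        nlinarith [sq_nonneg (|t * (v t - kap G)| - 1), sq_abs (t * (v t - kap G))]
      nlinarith [mul_le_mul_of_nonneg_right e1 e0.le]
  have hd1 : DifferentiableOn ℂ (Lap (fun t => t * (v t - kap G))) {w : ℂ | 0 < w.re} := by
    intro z hz
    exact (hasDerivAt_Lap hgt.meas 0 hli hz).differentiableAt.differentiableWithinAt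
  have hd2 : DifferentiableOn ℂ (fun w => -deriv (VV L (kap G)) w) {w : ℂ | 0 < w.re} :=
    (hV.deriv (d2_hp 0)).neg
  have hpre : IsPreconnected {w : ℂ | 0 < w.re} := (convex_halfSpace_re_gt 0).isPreconnected
  have hz0 : (((a + 2 : ℝ)) : ℂ) ∈ {w : ℂ | 0 < w.re} := by
    show 0 < (((a + 2 : ℝ)) : ℂ).re
    rw [ofReal_re]
    linarith
  have hev : Lap (fun t => t * (v t - kap G)) =ᶠ[𝓝 (((a + 2 : ℝ)) : ℂ)]
      fun w => -deriv (VV L (kap G)) w := by
    filter_upwards [(d2_hp (a + 1)).mem_nhds (show a + 1 < (((a + 2 : ℝ)) : ℂ).re by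
      rw [ofReal_re]; linarith)] with z hz
    exact (hV1u z hz).symm
  exact (hd1.analyticOnNhd (d2_hp 0)).eqOn_of_preconnected_of_eventuallyEq
    (hd2.analyticOnNhd (d2_hp 0)) hpre hz0 hev hw

/-- the residue at a zero on the line -/
theorem residue {L : ℂ → ℂ} (hL : Branch v G a L) {mm : ℝ → ℕ} (hmm : Fac G mm) {γ : ℝ} (hγ : γ ≠ 0) :
    Tendsto (fun s : ℝ => (s : ℂ) * -deriv (VV L (kap G)) ((s : ℂ) + (γ : ℂ) * I)) (𝓝[>] 0)
      (𝓝 ((mm γ : ℂ) / ((γ : ℂ) * I))) := by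
  obtain ⟨g, hg, hg0, hG⟩ := hmm γ hγ
  obtain ⟨ρ, C, hρ, hC, hnear⟩ := L_near hL γ (mm γ) g hg hg0 hG
  have hs0 : Tendsto (fun s : ℝ => (s : ℂ)) (𝓝[>] 0) (𝓝 0) := by
    have h1 : Tendsto (fun s : ℝ => (s : ℂ)) (𝓝 0) (𝓝 ((0 : ℝ) : ℂ)) := continuous_ofReal.tendsto 0
    rw [ofReal_zero] at h1
    exact h1.mono_left nhdsWithin_le_nhds
  have hev : ∀ᶠ s : ℝ in 𝓝[>] 0, 0 < s ∧ s < ρ := by
    have h1 : ∀ᶠ s : ℝ in 𝓝[>] 0, s < ρ := (gt_mem_nhds hρ).filter_mono nhdsWithin_le_nhds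
    filter_upwards [self_mem_nhdsWithin, h1] with s h2 h3
    exact ⟨h2, h3⟩
  have hw : Tendsto (fun s : ℝ => (s : ℂ) + (γ : ℂ) * I) (𝓝[>] 0) (𝓝 ((γ : ℂ) * I)) := by
    have h1 := hs0.add_const ((γ : ℂ) * I)
    rwa [zero_add] at h1
  have hγI : (γ : ℂ) * I ≠ 0 := mul_ne_zero (by exact_mod_cast hγ) I_ne_zero
  -- `s L' → m`
  have hA : Tendsto (fun s : ℝ => (s : ℂ) * deriv L ((s : ℂ) + (γ : ℂ) * I)) (𝓝[>] 0) (𝓝 (mm γ : ℂ)) := by
    rw [tendsto_iff_norm_sub_tendsto_zero]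
    have hb : Tendsto (fun s : ℝ => C * s) (𝓝[>] 0) (𝓝 0) := by
      have h1 : Tendsto (fun s : ℝ => C * s) (𝓝 0) (𝓝 (C * 0)) := (continuous_const.mul continuous_id).tendsto 0
      rw [mul_zero] at h1
      exact h1.mono_left nhdsWithin_le_nhds
    refine squeeze_zero' (Eventually.of_forall fun _ => norm_nonneg _) ?_ hb
    filter_upwards [hev] with s hs
    have hsn : ‖(s : ℂ) + (γ : ℂ) * I - (γ : ℂ) * I‖ < ρ := by
      rw [add_sub_cancel_right, norm_real, Real.norm_eq_abs, abs_of_pos hs.1]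
      exact hs.2
    have h1 := (hnear _ hsn (by simp; exact hs.1)).1
    rw [add_sub_cancel_right] at h1
    have hsne : (s : ℂ) ≠ 0 := by exact_mod_cast hs.1.ne'
    have h2 : (s : ℂ) * deriv L ((s : ℂ) + (γ : ℂ) * I) - (mm γ : ℂ) =
        (s : ℂ) * (deriv L ((s : ℂ) + (γ : ℂ) * I) - (mm γ : ℂ) / (s : ℂ)) := by
      field_simp
    rw [h2, norm_mul, norm_real, Real.norm_eq_abs, abs_of_pos hs.1, mul_comm C s]
    exact mul_le_mul_of_nonneg_left h1 hs.1.le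
  -- `s L → 0`
  have hB : Tendsto (fun s : ℝ => (s : ℂ) * (L ((s : ℂ) + (γ : ℂ) * I) + (kap G : ℂ))) (𝓝[>] 0) (𝓝 0) := by
    have hb : Tendsto (fun s : ℝ => C * √s + |kap G| * s) (𝓝[>] 0) (𝓝 0) := by
      have h1 : Tendsto (fun s : ℝ => C * √s + |kap G| * s) (𝓝 0) (𝓝 (C * √0 + |kap G| * 0)) := by
        have h2 : Continuous (fun s : ℝ => C * √s + |kap G| * s) := by fun_prop
        exact h2.tendsto 0
      rw [Real.sqrt_zero, mul_zero, mul_zero, add_zero] at h1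
      exact h1.mono_left nhdsWithin_le_nhds
    refine squeeze_zero_norm' ?_ hb
    filter_upwards [hev] with s hs
    have hsn : ‖(s : ℂ) + (γ : ℂ) * I - (γ : ℂ) * I‖ < ρ := by
      rw [add_sub_cancel_right, norm_real, Real.norm_eq_abs, abs_of_pos hs.1]
      exact hs.2
    have h1 := (hnear _ hsn (by simp; exact hs.1)).2
    rw [add_sub_cancel_right, norm_real, Real.norm_eq_abs, abs_of_pos hs.1] at h1
    rw [norm_mul, norm_real, Real.norm_eq_abs, abs_of_pos hs.1]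
    have h3 : ‖L ((s : ℂ) + (γ : ℂ) * I) + (kap G : ℂ)‖ ≤ ‖L ((s : ℂ) + (γ : ℂ) * I)‖ + |kap G| := by
      refine (norm_add_le _ _).trans ?_
      rw [norm_real, Real.norm_eq_abs]
    have h4 : s * ‖L ((s : ℂ) + (γ : ℂ) * I)‖ ≤ C * √s := by
      have h5 : √s * √s = s := Real.mul_self_sqrt hs.1.le
      calc s * ‖L ((s : ℂ) + (γ : ℂ) * I)‖ = √s * (√s * ‖L ((s : ℂ) + (γ : ℂ) * I)‖) := by
            rw [← mul_assoc, h5]
        _ ≤ √s * C := mul_le_mul_of_nonneg_left h1 (Real.sqrt_nonneg _)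
        _ = C * √s := mul_comm _ _
    calc s * ‖L ((s : ℂ) + (γ : ℂ) * I) + (kap G : ℂ)‖
        ≤ s * (‖L ((s : ℂ) + (γ : ℂ) * I)‖ + |kap G|) := mul_le_mul_of_nonneg_left h3 hs.1.le
      _ = s * ‖L ((s : ℂ) + (γ : ℂ) * I)‖ + |kap G| * s := by ring
      _ ≤ _ := by linarith
  have hlim := (hA.div hw hγI).sub (hB.div (hw.pow 2) (pow_ne_zero 2 hγI))
  rw [zero_div, sub_zero] at hlim
  refine hlim.congr' ?_
  filter_upwards [hev] with s hs
  have hre : 0 < ((s : ℂ) + (γ : ℂ) * I).re := by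
    simp
    exact hs.1
  have hw0 : (s : ℂ) + (γ : ℂ) * I ≠ 0 := by
    intro h0
    rw [h0] at hre
    simp at hre
  have h1 := (hasDerivAt_VV hL (kap G) hre).deriv
  show (s : ℂ) * deriv L ((s : ℂ) + (γ : ℂ) * I) / ((s : ℂ) + (γ : ℂ) * I) -
      (s : ℂ) * (L ((s : ℂ) + (γ : ℂ) * I) + (kap G : ℂ)) / ((s : ℂ) + (γ : ℂ) * I) ^ 2 =
    (s : ℂ) * -deriv (VV L (kap G)) ((s : ℂ) + (γ : ℂ) * I)
  rw [h1]
  field_simp
  ring

/-- almost periodicity in mean square, from the mean square limit of `VV'` -/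
theorem ap_zero_core (hF : Frame v G A a η B c k) {L : ℂ → ℂ} (hL : Branch v G a L) {mm : ℝ → ℕ}
    (hmm : Fac G mm)
    (hsum : Summable (fun γ : ℝ => if γ = 0 then 0 else (mm γ : ℝ) ^ 2 / γ ^ 2))
    (hlim : Tendsto (fun σ : ℝ => σ * ∫ τ : ℝ, ‖deriv (VV L (kap G)) ((σ : ℂ) + (τ : ℂ) * I)‖ ^ 2)
      (𝓝[>] 0) (𝓝 (Real.pi * ∑' γ : ℝ, if γ = 0 then 0 else (mm γ : ℝ) ^ 2 / γ ^ 2)))
    {ε : ℝ} (hε : 0 < ε) :
    ∃ (s : Finset ℝ) (c : ℝ → ℂ), (0 : ℝ) ∉ s ∧ ∀ᶠ T : ℝ in atTop,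
      IntegrableOn (fun t : ℝ => ‖((t * (v t - kap G) : ℝ) : ℂ) -
        ∑ γ ∈ s, c γ * cexp (((γ * t : ℝ) : ℂ) * I)‖ ^ 2) (Ioc 0 T) ∧
      (1 / T) * ∫ t in Ioc 0 T, ‖((t * (v t - kap G) : ℝ) : ℂ) -
        ∑ γ ∈ s, c γ * cexp (((γ * t : ℝ) : ℂ) * I)‖ ^ 2 ≤ ε := by
  classical
  set cc : ℝ → ℝ := fun γ : ℝ => if γ = 0 then 0 else (mm γ : ℝ) ^ 2 / γ ^ 2 with hcc
  obtain ⟨-, hpl⟩ := planch_deriv hF hL
  have hu : Measurable (fun t : ℝ => t * (v t - kap G)) :=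
    measurable_id.mul (hF.setup.grow.meas.sub_const _)
  have h2 : ∀ s : ℝ, 0 < s → IntegrableOn (fun t => (t * (v t - kap G)) ^ 2 * Real.exp (-s * t)) (Ioi 0) := by
    intro s hs
    have h1 := (hpl (s / 2) (by positivity)).1
    rwa [show 2 * (s / 2) = s by ring] at h1
  have hS : Tendsto (fun s : ℝ => s * ∫ t in Ioi (0 : ℝ), (t * (v t - kap G)) ^ 2 * Real.exp (-s * t))
      (𝓝[>] 0) (𝓝 (∑' γ : ℝ, cc γ)) := by
    have hhalf : Tendsto (fun s : ℝ => s / 2) (𝓝[>] 0) (𝓝[>] 0) := by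
      rw [tendsto_nhdsWithin_iff]
      constructor
      · have h1 : Tendsto (fun s : ℝ => s / 2) (𝓝 0) (𝓝 (0 / 2)) := (continuous_id.div_const 2).tendsto 0
        rw [zero_div] at h1
        exact h1.mono_left nhdsWithin_le_nhds
      · filter_upwards [self_mem_nhdsWithin] with s hs
        have hs' : (0 : ℝ) < s := hs
        exact half_pos hs'
    have h3 := (hlim.comp hhalf).const_mul (Real.pi)⁻¹
    have h4 : (Real.pi)⁻¹ * (Real.pi * ∑' γ : ℝ, cc γ) = ∑' γ : ℝ, cc γ := by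
      rw [← mul_assoc, inv_mul_cancel₀ Real.pi_pos.ne', one_mul]
    rw [h4] at h3
    refine h3.congr' ?_
    filter_upwards [self_mem_nhdsWithin] with s hs
    have hs' : (0 : ℝ) < s := hs
    have h5 := (hpl (s / 2) (by positivity)).2
    rw [show 2 * (s / 2) = s by ring] at h5
    show (Real.pi)⁻¹ * (s / 2 * ∫ τ : ℝ, ‖deriv (VV L (kap G)) (((s / 2 : ℝ) : ℂ) + (τ : ℂ) * I)‖ ^ 2) = _
    rw [← h5]
    have := Real.pi_pos.ne'
    field_simp
  -- a finite set of frequencies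
  have h6 : ∀ᶠ Γ : Finset ℝ in atTop, (∑' γ : ℝ, cc γ) - ε < ∑ γ ∈ Γ, cc γ :=
    hsum.hasSum.eventually (lt_mem_nhds (by linarith))
  obtain ⟨Γ0, hΓ0⟩ := h6.exists
  set Γ : Finset ℝ := Γ0.filter (fun γ => γ ≠ 0) with hΓ
  have hΓs : ∑ γ ∈ Γ, cc γ = ∑ γ ∈ Γ0, cc γ := by
    rw [hΓ, Finset.sum_filter]
    refine Finset.sum_congr rfl fun γ _ => ?_
    by_cases h : γ = 0
    · simp [hcc, h]
    · simp [h]
  obtain ⟨hi, ht⟩ := ap_core hu h2 (fun w hw => lap_all hF hL hw) hS Γ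
    (fun γ => (mm γ : ℂ) / ((γ : ℂ) * I)) (fun γ hγ => residue hL hmm (Finset.mem_filter.1 hγ).2)
  have hnorm : ∑ γ ∈ Γ, ‖(mm γ : ℂ) / ((γ : ℂ) * I)‖ ^ 2 = ∑ γ ∈ Γ, cc γ := by
    refine Finset.sum_congr rfl fun γ hγ => ?_
    have h0 : γ ≠ 0 := (Finset.mem_filter.1 hγ).2
    rw [norm_div, norm_mul, norm_I, mul_one, norm_real, Complex.norm_natCast, div_pow, Real.norm_eq_abs, sq_abs]
    simp only [hcc, if_neg h0]
  rw [hnorm, hΓs] at ht
  refine ⟨Γ, fun γ => (mm γ : ℂ) / ((γ : ℂ) * I), fun h => (Finset.mem_filter.1 h).2 rfl, ?_⟩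
  have h7 : (∑' γ : ℝ, cc γ) - ∑ γ ∈ Γ0, cc γ < ε := by linarith
  filter_upwards [ht.eventually (gt_mem_nhds h7)] with T hT
  constructor
  · exact hi T
  · exact hT.le

end Pool.Agent.Helper46.CR
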