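import Mathlib
import Pool.Agent.Helper91.CR.K1

/-!
CR-D2, core (MP_ad1693_nt). Almost periodicity in the mean square from the Abel mean of the square and the residues on the
imaginary axis: `(1/T) ∫_0^T ‖u - ∑_{γ ∈ Γ} a_γ e^{iγt}‖² → S - ∑_{γ ∈ Γ} ‖a_γ‖²`.
-/

set_option autoImplicit false

namespace Pool.Agent.Helper46.CR

open Complex Filter Topology MeasureTheory Set

/-- the character `e^{iγt}` -/
noncomputable def ee (γ t : ℝ) : ℂ := cexp (((γ * t : ℝ) : ℂ) * I)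

theorem norm_ee (γ t : ℝ) : ‖ee γ t‖ = 1 := by
  unfold ee
  exact norm_exp_ofReal_mul_I _

theorem ee_cont (γ : ℝ) : Continuous (ee γ) := by
  unfold ee
  fun_prop

theorem ee_conj_mul (γ δ t : ℝ) : (starRingEnd ℂ) (ee γ t) * ee δ t = ee (δ - γ) t := by
  unfold ee
  rw [← exp_conj, ← Complex.exp_add]
  congr 1
  simp only [map_mul, conj_ofReal, conj_I]
  push_cast
  ring

/-- the weight `e^{-st}` -/
theorem ee_weight (γ s t : ℝ) :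
    ee γ t * ((Real.exp (-s * t) : ℝ) : ℂ) = cexp ((-(s : ℂ) + (γ : ℂ) * I) * t) := by
  unfold ee
  rw [ofReal_exp, ← Complex.exp_add]
  congr 1
  push_cast
  ring

theorem ee_int (γ s : ℝ) (hs : 0 < s) :
    IntegrableOn (fun t : ℝ => ee γ t * ((Real.exp (-s * t) : ℝ) : ℂ)) (Ioi 0) ∧
    ∫ t in Ioi (0 : ℝ), ee γ t * ((Real.exp (-s * t) : ℝ) : ℂ) = ((s : ℂ) - (γ : ℂ) * I)⁻¹ := by
  have hre : (-(s : ℂ) + (γ : ℂ) * I).re < 0 := by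
    simp
    exact hs
  simp only [ee_weight]
  refine ⟨integrableOn_exp_mul_complex_Ioi hre 0, ?_⟩
  rw [integral_exp_mul_complex_Ioi hre 0]
  simp only [ofReal_zero, mul_zero, Complex.exp_zero]
  have h1 : (-(s : ℂ) + (γ : ℂ) * I) = -((s : ℂ) - (γ : ℂ) * I) := by ring
  rw [h1, neg_div_neg_eq, one_div]

theorem ee_lim (γ : ℝ) : Tendsto (fun s : ℝ => (s : ℂ) * ((s : ℂ) - (γ : ℂ) * I)⁻¹) (𝓝[>] 0)
    (𝓝 (if γ = 0 then 1 else 0)) := by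
  by_cases h : γ = 0
  · rw [if_pos h, h]
    refine tendsto_const_nhds.congr' ?_
    filter_upwards [self_mem_nhdsWithin] with s hs
    have hs0 : (s : ℂ) ≠ 0 := by
      have : (0 : ℝ) < s := hs
      exact_mod_cast this.ne'
    simp [hs0]
  · rw [if_neg h]
    have hne : ((0 : ℝ) : ℂ) - (γ : ℂ) * I ≠ 0 := by
      simp [h]
    have h1 : Tendsto (fun s : ℝ => (s : ℂ) * ((s : ℂ) - (γ : ℂ) * I)⁻¹) (𝓝 0)
        (𝓝 (((0 : ℝ) : ℂ) * (((0 : ℝ) : ℂ) - (γ : ℂ) * I)⁻¹)) := by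
      have hc : ContinuousAt (fun s : ℝ => (s : ℂ)) 0 := continuous_ofReal.continuousAt
      exact (hc.mul ((hc.sub continuousAt_const).inv₀ hne))
    have h2 : ((0 : ℝ) : ℂ) * (((0 : ℝ) : ℂ) - (γ : ℂ) * I)⁻¹ = 0 := by simp
    rw [h2] at h1
    exact h1.mono_left nhdsWithin_le_nhds

/-- the trigonometric sum -/
noncomputable def PP (Γ : Finset ℝ) (a : ℝ → ℂ) (t : ℝ) : ℂ := ∑ γ ∈ Γ, a γ * ee γ t

theorem PP_cont (Γ : Finset ℝ) (a : ℝ → ℂ) : Continuous (PP Γ a) := by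
  unfold PP
  exact continuous_finsetSum _ fun γ _ => continuous_const.mul (ee_cont γ)

/-- Abel mean of `‖P‖²` -/
theorem PP_sq (Γ : Finset ℝ) (a : ℝ → ℂ) :
    (∀ s : ℝ, 0 < s → IntegrableOn (fun t => ((‖PP Γ a t‖ ^ 2 * Real.exp (-s * t) : ℝ) : ℂ)) (Ioi 0)) ∧
    Tendsto (fun s : ℝ => (s : ℂ) * ∫ t in Ioi (0 : ℝ), ((‖PP Γ a t‖ ^ 2 * Real.exp (-s * t) : ℝ) : ℂ))
      (𝓝[>] 0) (𝓝 ((∑ γ ∈ Γ, ‖a γ‖ ^ 2 : ℝ) : ℂ)) := by
  have hexp : ∀ s t : ℝ, ((‖PP Γ a t‖ ^ 2 * Real.exp (-s * t) : ℝ) : ℂ) =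
      ∑ γ ∈ Γ, ∑ δ ∈ Γ, ((starRingEnd ℂ) (a γ) * a δ) * (ee (δ - γ) t * ((Real.exp (-s * t) : ℝ) : ℂ)) := by
    intro s t
    have h1 : ((‖PP Γ a t‖ ^ 2 : ℝ) : ℂ) = (starRingEnd ℂ) (PP Γ a t) * PP Γ a t := by
      rw [conj_mul']
      push_cast
      rfl
    rw [ofReal_mul, h1]
    unfold PP
    rw [map_sum, Finset.sum_mul_sum, Finset.sum_mul]
    refine Finset.sum_congr rfl fun γ _ => ?_
    rw [Finset.sum_mul]
    refine Finset.sum_congr rfl fun δ _ => ?_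
    rw [← ee_conj_mul γ δ t, map_mul]
    ring
  have hI : ∀ s : ℝ, 0 < s → ∀ γ ∈ Γ, ∀ δ ∈ Γ, IntegrableOn (fun t : ℝ =>
      ((starRingEnd ℂ) (a γ) * a δ) * (ee (δ - γ) t * ((Real.exp (-s * t) : ℝ) : ℂ))) (Ioi 0) :=
    fun s hs γ _ δ _ => (ee_int (δ - γ) s hs).1.const_mul _
  constructor
  · intro s hs
    simp only [hexp]
    exact integrable_finsetSum _ fun γ hγ => integrable_finsetSum _ fun δ hδ => hI s hs γ hγ δ hδ
  · have h1 : ∀ s : ℝ, 0 < s → (s : ℂ) * ∫ t in Ioi (0 : ℝ), ((‖PP Γ a t‖ ^ 2 * Real.exp (-s * t) : ℝ) : ℂ) =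
        ∑ γ ∈ Γ, ∑ δ ∈ Γ, ((starRingEnd ℂ) (a γ) * a δ) *
          ((s : ℂ) * ((s : ℂ) - ((δ - γ : ℝ) : ℂ) * I)⁻¹) := by
      intro s hs
      simp only [hexp]
      rw [integral_finsetSum _ fun γ hγ => integrable_finsetSum _ fun δ hδ => hI s hs γ hγ δ hδ,
        Finset.mul_sum]
      refine Finset.sum_congr rfl fun γ hγ => ?_
      rw [integral_finsetSum _ fun δ hδ => hI s hs γ hγ δ hδ, Finset.mul_sum]
      refine Finset.sum_congr rfl fun δ _ => ?_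
      rw [integral_const_mul, (ee_int (δ - γ) s hs).2]
      ring
    have h2 : Tendsto (fun s : ℝ => ∑ γ ∈ Γ, ∑ δ ∈ Γ, ((starRingEnd ℂ) (a γ) * a δ) *
          ((s : ℂ) * ((s : ℂ) - ((δ - γ : ℝ) : ℂ) * I)⁻¹)) (𝓝[>] 0)
        (𝓝 (∑ γ ∈ Γ, ∑ δ ∈ Γ, ((starRingEnd ℂ) (a γ) * a δ) * (if δ - γ = 0 then 1 else 0))) :=
      tendsto_finsetSum _ fun γ _ => tendsto_finsetSum _ fun δ _ => (ee_lim (δ - γ)).const_mul _
    have h3 : ∑ γ ∈ Γ, ∑ δ ∈ Γ, ((starRingEnd ℂ) (a γ) * a δ) * (if δ - γ = 0 then (1 : ℂ) else 0) =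
        ((∑ γ ∈ Γ, ‖a γ‖ ^ 2 : ℝ) : ℂ) := by
      rw [ofReal_sum]
      refine Finset.sum_congr rfl fun γ hγ => ?_
      rw [Finset.sum_eq_single_of_mem γ hγ]
      · rw [sub_self, if_pos rfl, mul_one, conj_mul']
        push_cast
        rfl
      · intro δ _ hne
        rw [if_neg (sub_ne_zero.2 hne), mul_zero]
    rw [h3] at h2
    refine h2.congr' ?_
    filter_upwards [self_mem_nhdsWithin] with s hs
    exact (h1 s hs).symm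

theorem ap_core {u : ℝ → ℝ} (hu : Measurable u) {V1 : ℂ → ℂ}
    (h2 : ∀ s : ℝ, 0 < s → IntegrableOn (fun t => u t ^ 2 * Real.exp (-s * t)) (Ioi 0))
    (h1 : ∀ w : ℂ, 0 < w.re → ∫ t in Ioi (0 : ℝ), (u t : ℂ) * cexp (-w * t) = V1 w) {S : ℝ}
    (hS : Tendsto (fun s : ℝ => s * ∫ t in Ioi (0 : ℝ), u t ^ 2 * Real.exp (-s * t)) (𝓝[>] 0) (𝓝 S))
    (Γ : Finset ℝ) (a : ℝ → ℂ)
    (ha : ∀ γ ∈ Γ, Tendsto (fun s : ℝ => (s : ℂ) * V1 ((s : ℂ) + (γ : ℂ) * I)) (𝓝[>] 0) (𝓝 (a γ))) :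
    (∀ T : ℝ, IntegrableOn (fun t => ‖(u t : ℂ) - PP Γ a t‖ ^ 2) (Ioc 0 T)) ∧
    Tendsto (fun T : ℝ => (1 / T) * ∫ t in Ioc 0 T, ‖(u t : ℂ) - PP Γ a t‖ ^ 2) atTop
      (𝓝 (S - ∑ γ ∈ Γ, ‖a γ‖ ^ 2)) := by
  -- the cross term
  have hux : ∀ (s γ : ℝ), 0 < s → IntegrableOn (fun t : ℝ =>
      (starRingEnd ℂ) (ee γ t) * ((u t : ℂ) * ((Real.exp (-s * t) : ℝ) : ℂ))) (Ioi 0) := by
    intro s γ hs
    have hg : IntegrableOn (fun t : ℝ => (u t ^ 2 * Real.exp (-s * t) + Real.exp (-s * t)) / 2) (Ioi 0) :=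
      ((h2 s hs).add (exp_neg_integrableOn_Ioi 0 hs)).div_const 2
    refine Integrable.mono' hg ?_ (Eventually.of_forall fun t => ?_)
    · refine Measurable.aestronglyMeasurable ?_
      have m1 : Measurable (fun t => (starRingEnd ℂ) (ee γ t)) :=
        (continuous_conj.comp (ee_cont γ)).measurable
      have m2 : Measurable (fun t : ℝ => ((Real.exp (-s * t) : ℝ) : ℂ)) := by fun_prop
      exact m1.mul ((measurable_ofReal.comp hu).mul m2)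
    · have e0 := Real.exp_pos (-s * t)
      rw [norm_mul, norm_mul, norm_conj, norm_ee, one_mul, norm_real, norm_real, Real.norm_eq_abs,
        Real.norm_eq_abs, abs_of_pos e0]
      have e1 : |u t| ≤ (u t ^ 2 + 1) / 2 := by
        nlinarith [sq_nonneg (|u t| - 1), sq_abs (u t)]
      nlinarith [mul_le_mul_of_nonneg_right e1 e0.le]
  have hcross : ∀ (s γ : ℝ), 0 < s → ∫ t in Ioi (0 : ℝ),
      (starRingEnd ℂ) (ee γ t) * ((u t : ℂ) * ((Real.exp (-s * t) : ℝ) : ℂ)) =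
        V1 ((s : ℂ) + (γ : ℂ) * I) := by
    intro s γ hs
    rw [← h1 ((s : ℂ) + (γ : ℂ) * I) (by simp; exact hs)]
    refine integral_congr_ae (Eventually.of_forall fun t => ?_)
    show (starRingEnd ℂ) (ee γ t) * ((u t : ℂ) * ((Real.exp (-s * t) : ℝ) : ℂ)) =
      (u t : ℂ) * cexp (-((s : ℂ) + (γ : ℂ) * I) * t)
    unfold ee
    rw [← exp_conj, mul_left_comm, ofReal_exp, ← Complex.exp_add]
    congr 2
    simp only [map_mul, conj_ofReal, conj_I]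
    push_cast
    ring
  set f : ℝ → ℝ := fun t => ‖(u t : ℂ) - PP Γ a t‖ ^ 2 with hf
  have hfm : Measurable f := by
    have h3 : Measurable (fun t => (u t : ℂ) - PP Γ a t) :=
      (measurable_ofReal.comp hu).sub (PP_cont Γ a).measurable
    exact h3.norm.pow_const 2
  have hf0 : ∀ t, 0 ≤ f t := fun t => sq_nonneg _
  -- expansion
  have hexp : ∀ s t : ℝ, ((f t * Real.exp (-s * t) : ℝ) : ℂ) =
      ((u t ^ 2 * Real.exp (-s * t) : ℝ) : ℂ) -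
      (∑ γ ∈ Γ, (starRingEnd ℂ) (a γ) *
        ((starRingEnd ℂ) (ee γ t) * ((u t : ℂ) * ((Real.exp (-s * t) : ℝ) : ℂ)))) -
      (starRingEnd ℂ) (∑ γ ∈ Γ, (starRingEnd ℂ) (a γ) *
        ((starRingEnd ℂ) (ee γ t) * ((u t : ℂ) * ((Real.exp (-s * t) : ℝ) : ℂ)))) +
      ((‖PP Γ a t‖ ^ 2 * Real.exp (-s * t) : ℝ) : ℂ) := by
    intro s t
    have e1 : ∑ γ ∈ Γ, (starRingEnd ℂ) (a γ) *
        ((starRingEnd ℂ) (ee γ t) * ((u t : ℂ) * ((Real.exp (-s * t) : ℝ) : ℂ))) =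
        (starRingEnd ℂ) (PP Γ a t) * ((u t : ℂ) * ((Real.exp (-s * t) : ℝ) : ℂ)) := by
      unfold PP
      rw [map_sum, Finset.sum_mul]
      refine Finset.sum_congr rfl fun γ _ => ?_
      rw [map_mul]
      ring
    have e2 : ((f t : ℝ) : ℂ) = ((u t : ℂ) - PP Γ a t) * (starRingEnd ℂ) ((u t : ℂ) - PP Γ a t) := by
      rw [mul_conj']
      simp only [hf]
      push_cast
      rfl
    have e3 : ((‖PP Γ a t‖ ^ 2 : ℝ) : ℂ) = PP Γ a t * (starRingEnd ℂ) (PP Γ a t) := by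
      rw [mul_conj']
      push_cast
      rfl
    rw [e1, ofReal_mul, ofReal_mul, ofReal_mul, e2, e3]
    simp only [map_mul, map_sub, conj_conj, conj_ofReal, ofReal_pow]
    ring
  obtain ⟨hPi, hPl⟩ := PP_sq Γ a
  have hXi : ∀ s : ℝ, 0 < s → IntegrableOn (fun t : ℝ => ∑ γ ∈ Γ, (starRingEnd ℂ) (a γ) *
        ((starRingEnd ℂ) (ee γ t) * ((u t : ℂ) * ((Real.exp (-s * t) : ℝ) : ℂ)))) (Ioi 0) :=
    fun s hs => integrable_finsetSum _ fun γ _ => (hux s γ hs).const_mul _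
  have hXc : ∀ s : ℝ, 0 < s → IntegrableOn (fun t : ℝ => (starRingEnd ℂ) (∑ γ ∈ Γ, (starRingEnd ℂ) (a γ) *
        ((starRingEnd ℂ) (ee γ t) * ((u t : ℂ) * ((Real.exp (-s * t) : ℝ) : ℂ))))) (Ioi 0) := by
    intro s hs
    have h3 := hXi s hs
    refine Integrable.mono h3 ?_ (Eventually.of_forall fun t => ?_)
    · exact continuous_conj.comp_aestronglyMeasurable h3.aestronglyMeasurable
    · rw [norm_conj]
  have hui : ∀ s : ℝ, 0 < s → IntegrableOn (fun t : ℝ => ((u t ^ 2 * Real.exp (-s * t) : ℝ) : ℂ)) (Ioi 0) :=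
    fun s hs => (h2 s hs).ofReal
  have hfc : ∀ s : ℝ, 0 < s → IntegrableOn (fun t : ℝ => ((f t * Real.exp (-s * t) : ℝ) : ℂ)) (Ioi 0) := by
    intro s hs
    have i1 := (hui s hs).sub (hXi s hs)
    have i2 := i1.sub (hXc s hs)
    have i3 := i2.add (hPi s hs)
    exact i3.congr (Eventually.of_forall fun t => (hexp s t).symm)
  have hfi : ∀ s : ℝ, 0 < s → IntegrableOn (fun t : ℝ => f t * Real.exp (-s * t)) (Ioi 0) := by
    intro s hs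
    have h3 := (hfc s hs).re
    exact h3.congr (Eventually.of_forall fun t => rfl)
  have hval : ∀ s : ℝ, 0 < s → ((s * ∫ t in Ioi (0 : ℝ), f t * Real.exp (-s * t) : ℝ) : ℂ) =
      ((s * ∫ t in Ioi (0 : ℝ), u t ^ 2 * Real.exp (-s * t) : ℝ) : ℂ) -
      (∑ γ ∈ Γ, (starRingEnd ℂ) (a γ) * ((s : ℂ) * V1 ((s : ℂ) + (γ : ℂ) * I))) -
      (starRingEnd ℂ) (∑ γ ∈ Γ, (starRingEnd ℂ) (a γ) * ((s : ℂ) * V1 ((s : ℂ) + (γ : ℂ) * I))) +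
      (s : ℂ) * ∫ t in Ioi (0 : ℝ), ((‖PP Γ a t‖ ^ 2 * Real.exp (-s * t) : ℝ) : ℂ) := by
    intro s hs
    have e1 : ∫ t in Ioi (0 : ℝ), ((f t * Real.exp (-s * t) : ℝ) : ℂ) =
        (∫ t in Ioi (0 : ℝ), ((u t ^ 2 * Real.exp (-s * t) : ℝ) : ℂ)) -
        (∫ t in Ioi (0 : ℝ), ∑ γ ∈ Γ, (starRingEnd ℂ) (a γ) *
          ((starRingEnd ℂ) (ee γ t) * ((u t : ℂ) * ((Real.exp (-s * t) : ℝ) : ℂ)))) -
        (∫ t in Ioi (0 : ℝ), (starRingEnd ℂ) (∑ γ ∈ Γ, (starRingEnd ℂ) (a γ) *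
          ((starRingEnd ℂ) (ee γ t) * ((u t : ℂ) * ((Real.exp (-s * t) : ℝ) : ℂ))))) +
        ∫ t in Ioi (0 : ℝ), ((‖PP Γ a t‖ ^ 2 * Real.exp (-s * t) : ℝ) : ℂ) := by
      have i1 : IntegrableOn (fun t : ℝ => ((u t ^ 2 * Real.exp (-s * t) : ℝ) : ℂ) -
          ∑ γ ∈ Γ, (starRingEnd ℂ) (a γ) *
            ((starRingEnd ℂ) (ee γ t) * ((u t : ℂ) * ((Real.exp (-s * t) : ℝ) : ℂ)))) (Ioi 0) :=
        (hui s hs).sub (hXi s hs)
      have i2 : IntegrableOn (fun t : ℝ => ((u t ^ 2 * Real.exp (-s * t) : ℝ) : ℂ) -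
          (∑ γ ∈ Γ, (starRingEnd ℂ) (a γ) *
            ((starRingEnd ℂ) (ee γ t) * ((u t : ℂ) * ((Real.exp (-s * t) : ℝ) : ℂ)))) -
          (starRingEnd ℂ) (∑ γ ∈ Γ, (starRingEnd ℂ) (a γ) *
            ((starRingEnd ℂ) (ee γ t) * ((u t : ℂ) * ((Real.exp (-s * t) : ℝ) : ℂ))))) (Ioi 0) :=
        i1.sub (hXc s hs)
      rw [← integral_sub (hui s hs) (hXi s hs), ← integral_sub i1 (hXc s hs),
        ← integral_add i2 (hPi s hs)]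
      exact integral_congr_ae (Eventually.of_forall fun t => hexp s t)
    have e2 : ∫ t in Ioi (0 : ℝ), ∑ γ ∈ Γ, (starRingEnd ℂ) (a γ) *
          ((starRingEnd ℂ) (ee γ t) * ((u t : ℂ) * ((Real.exp (-s * t) : ℝ) : ℂ))) =
        ∑ γ ∈ Γ, (starRingEnd ℂ) (a γ) * V1 ((s : ℂ) + (γ : ℂ) * I) := by
      rw [integral_finsetSum _ fun γ _ => (hux s γ hs).const_mul _]
      refine Finset.sum_congr rfl fun γ _ => ?_
      rw [integral_const_mul, hcross s γ hs]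
    rw [integral_conj, e2, integral_complex_ofReal, integral_complex_ofReal] at e1
    have e3 : ∑ γ ∈ Γ, (starRingEnd ℂ) (a γ) * ((s : ℂ) * V1 ((s : ℂ) + (γ : ℂ) * I)) =
        (s : ℂ) * ∑ γ ∈ Γ, (starRingEnd ℂ) (a γ) * V1 ((s : ℂ) + (γ : ℂ) * I) := by
      rw [Finset.mul_sum]
      refine Finset.sum_congr rfl fun γ _ => ?_
      ring
    rw [e3, ofReal_mul, e1, map_mul, conj_ofReal, ofReal_mul]
    ring
  have hX : Tendsto (fun s : ℝ => ∑ γ ∈ Γ, (starRingEnd ℂ) (a γ) * ((s : ℂ) * V1 ((s : ℂ) + (γ : ℂ) * I)))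
      (𝓝[>] 0) (𝓝 ((∑ γ ∈ Γ, ‖a γ‖ ^ 2 : ℝ) : ℂ)) := by
    have h3 : ((∑ γ ∈ Γ, ‖a γ‖ ^ 2 : ℝ) : ℂ) = ∑ γ ∈ Γ, (starRingEnd ℂ) (a γ) * a γ := by
      rw [ofReal_sum]
      refine Finset.sum_congr rfl fun γ _ => ?_
      rw [conj_mul']
      push_cast
      rfl
    rw [h3]
    exact tendsto_finsetSum _ fun γ hγ => (ha γ hγ).const_mul _
  have hXcl : Tendsto (fun s : ℝ => (starRingEnd ℂ)
      (∑ γ ∈ Γ, (starRingEnd ℂ) (a γ) * ((s : ℂ) * V1 ((s : ℂ) + (γ : ℂ) * I))))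
      (𝓝[>] 0) (𝓝 ((∑ γ ∈ Γ, ‖a γ‖ ^ 2 : ℝ) : ℂ)) := by
    have h3 := (continuous_conj.tendsto ((∑ γ ∈ Γ, ‖a γ‖ ^ 2 : ℝ) : ℂ)).comp hX
    rw [conj_ofReal] at h3
    exact h3
  have hlimc : Tendsto (fun s : ℝ => ((s * ∫ t in Ioi (0 : ℝ), f t * Real.exp (-s * t) : ℝ) : ℂ)) (𝓝[>] 0)
      (𝓝 (((S : ℝ) : ℂ) - ((∑ γ ∈ Γ, ‖a γ‖ ^ 2 : ℝ) : ℂ) - ((∑ γ ∈ Γ, ‖a γ‖ ^ 2 : ℝ) : ℂ) +
        ((∑ γ ∈ Γ, ‖a γ‖ ^ 2 : ℝ) : ℂ))) := by
    have h3 : Tendsto (fun s : ℝ => ((s * ∫ t in Ioi (0 : ℝ), u t ^ 2 * Real.exp (-s * t) : ℝ) : ℂ))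
        (𝓝[>] 0) (𝓝 ((S : ℝ) : ℂ)) := (continuous_ofReal.tendsto S).comp hS
    refine (((h3.sub hX).sub hXcl).add hPl).congr' ?_
    filter_upwards [self_mem_nhdsWithin] with s hs
    exact (hval s hs).symm
  have hlim : Tendsto (fun s : ℝ => s * ∫ t in Ioi (0 : ℝ), f t * Real.exp (-s * t)) (𝓝[>] 0)
      (𝓝 (S - ∑ γ ∈ Γ, ‖a γ‖ ^ 2)) := by
    have h3 := (continuous_re.tendsto _).comp hlimc
    have h4 : (((S : ℝ) : ℂ) - ((∑ γ ∈ Γ, ‖a γ‖ ^ 2 : ℝ) : ℂ) - ((∑ γ ∈ Γ, ‖a γ‖ ^ 2 : ℝ) : ℂ) +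
        ((∑ γ ∈ Γ, ‖a γ‖ ^ 2 : ℝ) : ℂ)).re = S - ∑ γ ∈ Γ, ‖a γ‖ ^ 2 := by
      simp only [add_re, sub_re, ofReal_re]
      ring
    rw [h4] at h3
    exact h3
  refine ⟨fun T => ?_, Pool.Agent.Helper16.CR.karamata hf0 hfm _ hfi hlim⟩
  -- integrability on bounded intervals
  have h3 : IntegrableOn (fun t : ℝ => Real.exp |T| * (f t * Real.exp (-1 * t))) (Ioc 0 T) :=
    ((hfi 1 one_pos).mono_set Ioc_subset_Ioi_self).const_mul _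
  refine Integrable.mono' h3 hfm.aestronglyMeasurable ?_
  rw [ae_restrict_iff' measurableSet_Ioc]
  refine Eventually.of_forall fun t ht => ?_
  rw [Real.norm_eq_abs, abs_of_nonneg (hf0 t)]
  have h4 : (1 : ℝ) ≤ Real.exp |T| * Real.exp (-1 * t) := by
    rw [← Real.exp_add]
    apply Real.one_le_exp
    have := le_abs_self T
    linarith [ht.2]
  nlinarith [hf0 t]

end Pool.Agent.Helper46.CR
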