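import Pool.Agent.Helper46.CR.D2
import Pool.Agent.Helper16.CR.K5r
import Pool.Agent.Helper16.OM.Order
import Pool.Agent.Helper29.MS.Red

/-!
CR, leaf D7a: the reduced frame at order `r`, almost periodicity in mean square of `t (v t - r ein t - κ)`, perturbation.
-/

set_option autoImplicit false

namespace Pool.Agent.Helper46.CR

open Complex Filter Topology MeasureTheory Set Metric
open Pool.Agent.Helper13.Bsd Pool.Agent.Helper7.GW Pool.Agent.Helper58.BSD Pool.Agent.Helper29.MS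
open Pool.Agent.Helper16.CR
open Pool.Agent.Helper16.OM (Fac EinL2_bounds)

variable {v : ℝ → ℝ} {G : ℂ → ℂ} {A a η B c : ℝ} {k : ℕ}

private theorem d7_lapInt (h : Grow v A a) {x : ℝ} (hx : a < x) : LapInt v x := by
  unfold LapInt
  have h1 : IntegrableOn (fun t : ℝ => A * Real.exp (-(x - a) * t)) (Ioi (0 : ℝ)) :=
    (exp_neg_integrableOn_Ioi 0 (sub_pos.2 hx)).const_mul A
  refine Integrable.mono' h1 ?_ ?_
  · exact (h.meas.mul (Real.measurable_exp.comp (measurable_const.mul measurable_id))).aestronglyMeasurable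
  · rw [ae_restrict_iff' measurableSet_Ioi]
    refine Eventually.of_forall fun t ht => ?_
    have ht0 : 0 < t := ht
    rw [norm_mul, Real.norm_eq_abs, Real.norm_eq_abs, abs_of_pos (Real.exp_pos _)]
    calc |v t| * Real.exp (-x * t) ≤ (A * Real.exp (a * t)) * Real.exp (-x * t) :=
          mul_le_mul_of_nonneg_right (h.bd t ht0) (Real.exp_pos _).le
      _ = A * Real.exp (-(x - a) * t) := by
          rw [mul_assoc, ← Real.exp_add]
          congr 2
          ring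

/-- the reduced frame -/
theorem frame_order (hS : Setup v G A a η) (r : ℕ) (g : ℝ) (hg0 : 0 < g)
    (hg : Tendsto (fun y : ℝ => ‖G (y : ℂ)‖ / y ^ r) (𝓝[>] 0) (𝓝 g))
    (hrh : ∀ s : ℂ, 0 < s.re → G s ≠ 0)
    (hgr : ∀ s : ℂ, -η < s.re → ‖G s‖ ≤ B * (1 + ‖s‖) ^ k)
    (hr : ∀ s : ℂ, c ≤ s.re → ‖s * Lap v s‖ ≤ B) (mm : ℝ → ℕ) (hmm : Fac G mm) :
    ∃ (G' : ℂ → ℂ) (A' a' B' c' : ℝ) (k' : ℕ),
      Frame (fun t => v t - r * ein t) G' A' a' η B' c' k' ∧ kap G' = -Real.log g ∧ Fac G' mm := by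
  obtain ⟨G1, hG1, hfac, hG10⟩ := factor_order hS r g hg0 hg
  have hS0 := setup_reduce hS r G1 hG1 hfac
  have hη := hS.hη
  have ha := hS.grow.ha
  have h0 : (fun s => G1 s * (1 + s) ^ r) (0 : ℂ) ≠ 0 := by
    simp only [add_zero, one_pow, mul_one]
    rw [← norm_pos_iff, hG10]
    exact hg0
  have hkap : kap (fun s => G1 s * (1 + s) ^ r) = -Real.log g := by
    unfold kap
    simp only [add_zero, one_pow, mul_one]
    rw [hG10]
  obtain ⟨C, hC0, hC⟩ := lap_ein_bdd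
  have hB0 : 0 ≤ B := by
    have h1 := hgr 0 (by rw [zero_re]; linarith)
    rw [norm_zero, add_zero, one_pow, mul_one] at h1
    exact (norm_nonneg _).trans h1
  -- the bound on the closed ball
  obtain ⟨M, hM⟩ : ∃ M : ℝ, ∀ s ∈ closedBall (0 : ℂ) (η / 2), ‖G1 s * (1 + s) ^ r‖ ≤ M := by
    have hsub : closedBall (0 : ℂ) (η / 2) ⊆ {s : ℂ | -η < s.re} := by
      intro s hs
      rw [mem_closedBall_zero_iff] at hs
      have h1 := abs_re_le_norm s
      have h2 := neg_abs_le s.re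
      show -η < s.re
      linarith
    have hcont : ContinuousOn (fun s => G1 s * (1 + s) ^ r) (closedBall (0 : ℂ) (η / 2)) :=
      (hG1.continuousOn.mono hsub).mul (by fun_prop)
    exact (isCompact_closedBall (0 : ℂ) (η / 2)).exists_bound_of_continuousOn hcont
  have hr0 : (0 : ℝ) ≤ r := Nat.cast_nonneg r
  have hq0 : 0 ≤ B * (2 / η) ^ r := by positivity
  have hrC : 0 ≤ (r : ℝ) * C := by positivity
  set B' : ℝ := 1 + |M| + B * (2 / η) ^ r + (B + r * C) with hB'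
  have habs := abs_nonneg M
  have hF : Frame (fun t => v t - r * ein t) (fun s => G1 s * (1 + s) ^ r) (A + r) (a + 1) η B'
      (max c (a + 2)) (k + r) := by
    refine ⟨hS0, h0, ?_, by rw [hB']; linarith, ?_, ?_, ?_, ?_⟩
    · intro s hs
      have h1 := hrh s hs
      have h2 := hfac s (by linarith)
      rw [h2] at h1
      have h3 : (1 : ℂ) + s ≠ 0 := by
        intro h
        have := congrArg Complex.re h
        simp at this
        linarith
      exact mul_ne_zero (right_ne_zero_of_mul h1) (pow_ne_zero _ h3)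
    · intro s hs
      have hge : (1 : ℝ) ≤ (1 + ‖s‖) ^ (k + r) :=
        one_le_pow₀ (by linarith [norm_nonneg s])
      by_cases hb : ‖s‖ ≤ η / 2
      · have h1 := hM s (by rw [mem_closedBall_zero_iff]; exact hb)
        have h2 : M ≤ B' := by
          have := le_abs_self M
          rw [hB']
          linarith
        have h3 : 0 ≤ B' := by rw [hB']; linarith
        calc ‖G1 s * (1 + s) ^ r‖ ≤ B' * 1 := by linarith
          _ ≤ B' * (1 + ‖s‖) ^ (k + r) := mul_le_mul_of_nonneg_left hge h3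
      · push Not at hb
        have hs0 : 0 < ‖s‖ := by linarith
        have h1 : ‖G1 s‖ ≤ B * (1 + ‖s‖) ^ k * (2 / η) ^ r := by
          have h2 := hgr s hs
          rw [hfac s hs, norm_mul, norm_pow] at h2
          have h3 : 1 ≤ ‖s‖ ^ r * (2 / η) ^ r := by
            rw [← mul_pow]
            apply one_le_pow₀
            rw [mul_div_assoc', le_div_iff₀ hη]
            linarith
          calc ‖G1 s‖ = ‖G1 s‖ * 1 := (mul_one _).symm
            _ ≤ ‖G1 s‖ * (‖s‖ ^ r * (2 / η) ^ r) := mul_le_mul_of_nonneg_left h3 (norm_nonneg _)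
            _ = ‖s‖ ^ r * ‖G1 s‖ * (2 / η) ^ r := by ring
            _ ≤ B * (1 + ‖s‖) ^ k * (2 / η) ^ r :=
                mul_le_mul_of_nonneg_right h2 (by positivity)
        have h4 : ‖(1 + s) ^ r‖ ≤ (1 + ‖s‖) ^ r := by
          rw [norm_pow]
          apply pow_le_pow_left₀ (norm_nonneg _)
          calc ‖1 + s‖ ≤ ‖(1 : ℂ)‖ + ‖s‖ := norm_add_le _ _
            _ = 1 + ‖s‖ := by rw [norm_one]
        rw [norm_mul]
        calc ‖G1 s‖ * ‖(1 + s) ^ r‖ ≤ (B * (1 + ‖s‖) ^ k * (2 / η) ^ r) * (1 + ‖s‖) ^ r :=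
              mul_le_mul h1 h4 (norm_nonneg _) (by positivity)
          _ = B * (2 / η) ^ r * (1 + ‖s‖) ^ (k + r) := by rw [pow_add]; ring
          _ ≤ B' * (1 + ‖s‖) ^ (k + r) := by
              apply mul_le_mul_of_nonneg_right _ (by positivity)
              rw [hB']
              linarith
    · have := le_max_right c (a + 2)
      linarith
    · have := le_max_right c (a + 2)
      linarith
    · intro s hs
      have hs1 : c ≤ s.re := (le_max_left _ _).trans hs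
      have hs2 : a + 2 ≤ s.re := (le_max_right _ _).trans hs
      have hw1 : a < s.re := by linarith
      have hw0 : 0 < s.re := by linarith
      have e1 : Lap (fun t => v t - r * ein t) s = Lap v s - r * Lap ein s := by
        have hm : Measurable fun t => (r : ℝ) * ein t := measurable_const.mul measurable_ein
        rw [Lap_sub hS.grow.meas hm
          (d7_lapInt hS.grow hw1) ((lapInt_ein hw0).const_mul _), Lap_const_mul]
        push_cast
        rfl
      have e2 : s * Lap (fun t => v t - r * ein t) s = s * Lap v s - r * (s * Lap ein s) := by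
        rw [e1]; ring
      rw [e2]
      have h1 := hr s hs1
      have h2 := hC s (by linarith)
      calc ‖s * Lap v s - r * (s * Lap ein s)‖ ≤ ‖s * Lap v s‖ + ‖(r : ℂ) * (s * Lap ein s)‖ :=
            norm_sub_le _ _
        _ ≤ B + r * C := by
            rw [norm_mul (r : ℂ), Complex.norm_natCast]
            exact add_le_add h1 (mul_le_mul_of_nonneg_left h2 hr0)
        _ ≤ B' := by
            rw [hB']
            linarith
  -- the factorisation
  have hopen : IsOpen {s : ℂ | -η < s.re} := isOpen_lt continuous_const continuous_re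
  have hmem : ∀ μ : ℝ, (μ * I : ℂ) ∈ {s : ℂ | -η < s.re} := by
    intro μ
    show -η < (μ * I : ℂ).re
    simp
    linarith
  have hmm0 : Fac (fun s => G1 s * (1 + s) ^ r) mm := by
    intro μ hμ
    obtain ⟨gm, hga, hgm0, hgeq⟩ := hmm μ hμ
    have hμI : (μ * I : ℂ) ≠ 0 := mul_ne_zero (by exact_mod_cast hμ) I_ne_zero
    have h1I : (1 + μ * I : ℂ) ≠ 0 := by
      intro h1
      have := congrArg Complex.re h1
      simp at this
    refine ⟨fun w => gm w * (1 + w) ^ r / w ^ r, ?_, ?_, ?_⟩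
    · refine AnalyticAt.div (hga.mul ?_) ?_ (pow_ne_zero _ hμI)
      · exact (analyticAt_const.add analyticAt_id).pow r
      · exact analyticAt_id.pow r
    · exact div_ne_zero (mul_ne_zero hgm0 (pow_ne_zero _ h1I)) (pow_ne_zero _ hμI)
    · filter_upwards [hgeq, hopen.mem_nhds (hmem μ), isOpen_ne.mem_nhds hμI] with w h1 h2 h3
      have h4 := hfac w h2
      have h5 : w ^ r ≠ 0 := pow_ne_zero _ h3
      have h6 : G1 w = (w - μ * I) ^ mm μ * gm w / w ^ r := by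
        rw [eq_div_iff h5, ← h1, h4]
        ring
      show G1 w * (1 + w) ^ r = _
      rw [h6]
      ring
  exact ⟨_, _, _, _, _, _, hF, hkap, hmm0⟩

/-- almost periodicity in mean square at order zero -/
theorem ap_zero (hF : Frame v G A a η B c k) (mm : ℝ → ℕ) (hmm : Fac G mm) {ε : ℝ} (hε : 0 < ε) :
    ∃ (s : Finset ℝ) (c : ℝ → ℂ), (0 : ℝ) ∉ s ∧ ∀ᶠ T : ℝ in atTop,
      IntegrableOn (fun t : ℝ => ‖((t * (v t - kap G) : ℝ) : ℂ) -
        ∑ γ ∈ s, c γ * cexp (((γ * t : ℝ) : ℂ) * I)‖ ^ 2) (Ioc 0 T) ∧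
      (1 / T) * ∫ t in Ioc 0 T, ‖((t * (v t - kap G) : ℝ) : ℂ) -
        ∑ γ ∈ s, c γ * cexp (((γ * t : ℝ) : ℂ) * I)‖ ^ 2 ≤ ε := by
  obtain ⟨L, hL⟩ := exists_branch hF
  obtain ⟨hsum, hlim⟩ := mean_sq hF hL mm hmm
  exact ap_zero_core hF hL hmm hsum hlim hε

/-- almost periodicity in mean square is stable under square integrable perturbations -/
theorem ap_pert {u w : ℝ → ℝ} (hu : Measurable u) (hw : Measurable w)
    (hd : IntegrableOn (fun t => (w t - u t) ^ 2) (Ioi 0))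
    (hap : ∀ e : ℝ, 0 < e → ∃ (s : Finset ℝ) (c : ℝ → ℂ), (0 : ℝ) ∉ s ∧ ∀ᶠ T : ℝ in atTop,
      IntegrableOn (fun t => ‖(u t : ℂ) - ∑ γ ∈ s, c γ * cexp (((γ * t : ℝ) : ℂ) * I)‖ ^ 2) (Ioc 0 T) ∧
      (1 / T) * ∫ t in Ioc 0 T, ‖(u t : ℂ) - ∑ γ ∈ s, c γ * cexp (((γ * t : ℝ) : ℂ) * I)‖ ^ 2 ≤ e) :
    ∀ e : ℝ, 0 < e → ∃ (s : Finset ℝ) (c : ℝ → ℂ), (0 : ℝ) ∉ s ∧ ∀ᶠ T : ℝ in atTop,
      IntegrableOn (fun t => ‖(w t : ℂ) - ∑ γ ∈ s, c γ * cexp (((γ * t : ℝ) : ℂ) * I)‖ ^ 2) (Ioc 0 T) ∧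
      (1 / T) * ∫ t in Ioc 0 T, ‖(w t : ℂ) - ∑ γ ∈ s, c γ * cexp (((γ * t : ℝ) : ℂ) * I)‖ ^ 2 ≤ e := by
  intro e he
  obtain ⟨s, c, hs0, hsc⟩ := hap (e / 4) (by positivity)
  refine ⟨s, c, hs0, ?_⟩
  set M : ℝ := ∫ t in Ioi (0 : ℝ), (w t - u t) ^ 2 with hM
  have hM0 : 0 ≤ M := setIntegral_nonneg measurableSet_Ioi fun t _ => sq_nonneg _
  have hPc : Continuous (fun t : ℝ => ∑ γ ∈ s, c γ * cexp (((γ * t : ℝ) : ℂ) * I)) := by fun_prop
  set P : ℝ → ℂ := fun t => ∑ γ ∈ s, c γ * cexp (((γ * t : ℝ) : ℂ) * I) with hP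
  filter_upwards [hsc, eventually_gt_atTop (0 : ℝ), eventually_ge_atTop (4 * M / e)] with T hT hT0 hTM
  obtain ⟨h1, h2⟩ := hT
  have hdT : IntegrableOn (fun t => (w t - u t) ^ 2) (Ioc 0 T) := hd.mono_set Ioc_subset_Ioi_self
  have hpt : ∀ t, ‖(w t : ℂ) - P t‖ ^ 2 ≤ 2 * ‖(u t : ℂ) - P t‖ ^ 2 + 2 * (w t - u t) ^ 2 := by
    intro t
    have e1 : (w t : ℂ) - P t = ((u t : ℂ) - P t) + ((w t - u t : ℝ) : ℂ) := by
      push_cast
      ring
    have e2 : ‖((w t - u t : ℝ) : ℂ)‖ = |w t - u t| := by rw [norm_real, Real.norm_eq_abs]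
    have e3 := norm_add_le ((u t : ℂ) - P t) ((w t - u t : ℝ) : ℂ)
    rw [e2] at e3
    rw [e1]
    have e4 : ‖((u t : ℂ) - P t) + ((w t - u t : ℝ) : ℂ)‖ ^ 2 ≤ (‖(u t : ℂ) - P t‖ + |w t - u t|) ^ 2 :=
      pow_le_pow_left₀ (norm_nonneg _) e3 2
    nlinarith [sq_nonneg (‖(u t : ℂ) - P t‖ - |w t - u t|), sq_abs (w t - u t)]
  have hi : IntegrableOn (fun t => 2 * ‖(u t : ℂ) - P t‖ ^ 2 + 2 * (w t - u t) ^ 2) (Ioc 0 T) :=
    (h1.const_mul 2).add (hdT.const_mul 2)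
  have hwm : Measurable (fun t => ‖(w t : ℂ) - P t‖ ^ 2) :=
    (((measurable_ofReal.comp hw).sub hPc.measurable).norm).pow_const 2
  have hwi : IntegrableOn (fun t => ‖(w t : ℂ) - P t‖ ^ 2) (Ioc 0 T) := by
    refine Integrable.mono' hi hwm.aestronglyMeasurable (Eventually.of_forall fun t => ?_)
    rw [Real.norm_eq_abs, abs_of_nonneg (sq_nonneg _)]
    exact hpt t
  refine ⟨hwi, ?_⟩
  have h3 : ∫ t in Ioc 0 T, ‖(w t : ℂ) - P t‖ ^ 2 ≤
      2 * (∫ t in Ioc 0 T, ‖(u t : ℂ) - P t‖ ^ 2) + 2 * M := by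
    calc ∫ t in Ioc 0 T, ‖(w t : ℂ) - P t‖ ^ 2
        ≤ ∫ t in Ioc 0 T, (2 * ‖(u t : ℂ) - P t‖ ^ 2 + 2 * (w t - u t) ^ 2) :=
          integral_mono hwi hi hpt
      _ = 2 * (∫ t in Ioc 0 T, ‖(u t : ℂ) - P t‖ ^ 2) + 2 * ∫ t in Ioc 0 T, (w t - u t) ^ 2 := by
          rw [integral_add (h1.const_mul 2) (hdT.const_mul 2), integral_const_mul, integral_const_mul]
      _ ≤ _ := by
          have h4 : ∫ t in Ioc 0 T, (w t - u t) ^ 2 ≤ M :=
            setIntegral_mono_set hd (Eventually.of_forall fun t => sq_nonneg _)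
              (Eventually.of_forall fun t ht => Ioc_subset_Ioi_self ht)
          linarith
  have h5 : 4 * M ≤ e * T := by
    rw [div_le_iff₀ he] at hTM
    linarith
  have h6 : (1 / T) * (2 * M) ≤ e / 2 := by
    rw [one_div, inv_mul_le_iff₀ hT0]
    linarith
  have hT' : 0 ≤ 1 / T := by positivity
  calc (1 / T) * ∫ t in Ioc 0 T, ‖(w t : ℂ) - P t‖ ^ 2
      ≤ (1 / T) * (2 * (∫ t in Ioc 0 T, ‖(u t : ℂ) - P t‖ ^ 2) + 2 * M) := mul_le_mul_of_nonneg_left h3 hT'
    _ = 2 * ((1 / T) * ∫ t in Ioc 0 T, ‖(u t : ℂ) - P t‖ ^ 2) + (1 / T) * (2 * M) := by ring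
    _ ≤ 2 * (e / 4) + e / 2 := by
        have h7 : 2 * ((1 / T) * ∫ t in Ioc 0 T, ‖(u t : ℂ) - P t‖ ^ 2) ≤ 2 * (e / 4) :=
          mul_le_mul_of_nonneg_left h2 two_pos.le
        exact add_le_add h7 h6
    _ = e := by ring

end Pool.Agent.Helper46.CR
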