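import Mathlib

/-!
CR, leaf D7b: a function which is almost periodic in mean square without constant frequency has mean zero.
-/

set_option autoImplicit false

namespace Pool.Agent.Helper46.CR

open Complex Filter Topology MeasureTheory Set

private theorem d7b_char {γ : ℝ} (hγ : γ ≠ 0) :
    Tendsto (fun T : ℝ => ((1 / T : ℝ) : ℂ) * ∫ t in Ioc 0 T, cexp (((γ * t : ℝ) : ℂ) * I)) atTop (𝓝 0) := by
  have hγI : (γ : ℂ) * I ≠ 0 := mul_ne_zero (by exact_mod_cast hγ) I_ne_zero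
  have hb : Tendsto (fun T : ℝ => 1 / T * (2 / |γ|)) atTop (𝓝 0) := by
    have h3 : Tendsto (fun T : ℝ => 1 / T) atTop (𝓝 0) := by
      simp_rw [one_div]
      exact tendsto_inv_atTop_zero
    have h4 := h3.mul_const (2 / |γ|)
    rwa [zero_mul] at h4
  refine squeeze_zero_norm' ?_ hb
  filter_upwards [eventually_gt_atTop (0 : ℝ)] with T hT
  have h1 : ∫ t in Ioc 0 T, cexp (((γ * t : ℝ) : ℂ) * I) =
      (cexp (((γ * T : ℝ) : ℂ) * I) - 1) / ((γ : ℂ) * I) := by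
    rw [← intervalIntegral.integral_of_le hT.le]
    have h2 : (fun t : ℝ => cexp (((γ * t : ℝ) : ℂ) * I)) = fun t : ℝ => cexp (((γ : ℂ) * I) * t) := by
      funext t
      congr 1
      push_cast
      ring
    rw [h2, integral_exp_mul_complex hγI]
    have h3 : ((γ * T : ℝ) : ℂ) * I = ((γ : ℂ) * I) * T := by
      push_cast
      ring
    rw [h3, ofReal_zero, mul_zero, Complex.exp_zero]
  rw [h1, norm_mul, norm_div, norm_mul, norm_real, norm_real, norm_I, mul_one, Real.norm_eq_abs,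
    Real.norm_eq_abs, abs_of_pos (by positivity : 0 < 1 / T)]
  have h4 : ‖cexp (((γ * T : ℝ) : ℂ) * I) - 1‖ ≤ 2 := by
    have h5 := norm_sub_le (cexp (((γ * T : ℝ) : ℂ) * I)) 1
    rw [norm_exp_ofReal_mul_I, norm_one] at h5
    linarith
  have hγ0 : 0 < |γ| := abs_pos.2 hγ
  have hT' : 0 ≤ 1 / T := by positivity
  gcongr

theorem mean_zero_of_ap {w : ℝ → ℝ} (hw : Measurable w)
    (hap : ∀ e : ℝ, 0 < e → ∃ (s : Finset ℝ) (c : ℝ → ℂ), (0 : ℝ) ∉ s ∧ ∀ᶠ T : ℝ in atTop,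
      IntegrableOn (fun t => ‖(w t : ℂ) - ∑ γ ∈ s, c γ * cexp (((γ * t : ℝ) : ℂ) * I)‖ ^ 2) (Ioc 0 T) ∧
      (1 / T) * ∫ t in Ioc 0 T, ‖(w t : ℂ) - ∑ γ ∈ s, c γ * cexp (((γ * t : ℝ) : ℂ) * I)‖ ^ 2 ≤ e) :
    Tendsto (fun T : ℝ => (1 / T) * ∫ t in Ioc 0 T, w t) atTop (𝓝 0) := by
  rw [Metric.tendsto_nhds]
  intro e he
  set δ : ℝ := e / 4 with hδ
  have hδ0 : 0 < δ := by rw [hδ]; positivity
  obtain ⟨s, c, hs0, hsc⟩ := hap (δ ^ 2) (by positivity)
  have hPc : Continuous (fun t : ℝ => ∑ γ ∈ s, c γ * cexp (((γ * t : ℝ) : ℂ) * I)) := by fun_prop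
  set P : ℝ → ℂ := fun t => ∑ γ ∈ s, c γ * cexp (((γ * t : ℝ) : ℂ) * I) with hP
  have hPm : Tendsto (fun T : ℝ => ((1 / T : ℝ) : ℂ) * ∫ t in Ioc 0 T, P t) atTop (𝓝 0) := by
    have h1 : Tendsto (fun T : ℝ => ∑ γ ∈ s, c γ * (((1 / T : ℝ) : ℂ) *
        ∫ t in Ioc 0 T, cexp (((γ * t : ℝ) : ℂ) * I))) atTop (𝓝 (∑ γ ∈ s, c γ * 0)) := by
      refine tendsto_finsetSum _ fun γ hγ => (d7b_char ?_).const_mul _
      intro h0
      rw [h0] at hγ
      exact hs0 hγ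
    simp only [mul_zero, Finset.sum_const_zero] at h1
    refine h1.congr fun T => ?_
    have h2 : ∫ t in Ioc 0 T, P t = ∑ γ ∈ s, c γ * ∫ t in Ioc 0 T, cexp (((γ * t : ℝ) : ℂ) * I) := by
      simp only [hP]
      rw [integral_finsetSum]
      · refine Finset.sum_congr rfl fun γ _ => ?_
        rw [integral_const_mul]
      · intro γ _
        refine Continuous.integrableOn_Ioc ?_
        fun_prop
    rw [h2, Finset.mul_sum]
    refine Finset.sum_congr rfl fun γ _ => ?_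
    ring
  have hPe : ∀ᶠ T : ℝ in atTop, ‖((1 / T : ℝ) : ℂ) * ∫ t in Ioc 0 T, P t‖ < δ := by
    have h1 := (Metric.tendsto_nhds.1 hPm) δ hδ0
    filter_upwards [h1] with T h2
    rwa [dist_zero_right] at h2
  filter_upwards [hsc, hPe, eventually_gt_atTop (0 : ℝ)] with T h1 h2 hT
  obtain ⟨hi, hle⟩ := h1
  have hT' : 0 < 1 / T := by positivity
  have hdm : Measurable (fun t => (w t : ℂ) - P t) := (measurable_ofReal.comp hw).sub hPc.measurable
  have hbd : ∀ t, ‖(w t : ℂ) - P t‖ ≤ δ / 2 + 1 / (2 * δ) * ‖(w t : ℂ) - P t‖ ^ 2 := by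
    intro t
    have h3 : 0 ≤ (‖(w t : ℂ) - P t‖ - δ) ^ 2 / (2 * δ) := by positivity
    have h4 : (‖(w t : ℂ) - P t‖ - δ) ^ 2 / (2 * δ) =
        1 / (2 * δ) * ‖(w t : ℂ) - P t‖ ^ 2 - ‖(w t : ℂ) - P t‖ + δ / 2 := by
      field_simp
      ring
    rw [h4] at h3
    linarith
  have hc0 : Integrable (fun _ : ℝ => δ / 2) (volume.restrict (Ioc 0 T)) :=
    integrableOn_const measure_Ioc_lt_top.ne
  have hc1 : Integrable (fun t : ℝ => 1 / (2 * δ) * ‖(w t : ℂ) - P t‖ ^ 2) (volume.restrict (Ioc 0 T)) :=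
    hi.const_mul _
  have hgi : IntegrableOn (fun t => δ / 2 + 1 / (2 * δ) * ‖(w t : ℂ) - P t‖ ^ 2) (Ioc 0 T) := hc0.add hc1
  have hdi : IntegrableOn (fun t => (w t : ℂ) - P t) (Ioc 0 T) :=
    Integrable.mono' hgi hdm.aestronglyMeasurable (Eventually.of_forall hbd)
  have hPi : IntegrableOn P (Ioc 0 T) := hPc.integrableOn_Ioc
  have h5 : ‖∫ t in Ioc 0 T, ((w t : ℂ) - P t)‖ ≤ T * (δ / 2) + 1 / (2 * δ) * (δ ^ 2 * T) := by
    calc ‖∫ t in Ioc 0 T, ((w t : ℂ) - P t)‖ ≤ ∫ t in Ioc 0 T, ‖(w t : ℂ) - P t‖ :=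
          norm_integral_le_integral_norm _
      _ ≤ ∫ t in Ioc 0 T, (δ / 2 + 1 / (2 * δ) * ‖(w t : ℂ) - P t‖ ^ 2) := integral_mono hdi.norm hgi hbd
      _ = T * (δ / 2) + 1 / (2 * δ) * ∫ t in Ioc 0 T, ‖(w t : ℂ) - P t‖ ^ 2 := by
          rw [integral_add hc0 hc1, integral_const_mul,
            setIntegral_const, Real.volume_real_Ioc_of_le hT.le, sub_zero, smul_eq_mul]
      _ ≤ _ := by
          have h6 : ∫ t in Ioc 0 T, ‖(w t : ℂ) - P t‖ ^ 2 ≤ δ ^ 2 * T := by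
            rw [one_div, inv_mul_le_iff₀ hT] at hle
            linarith
          have h7 := mul_le_mul_of_nonneg_left h6 (by positivity : 0 ≤ 1 / (2 * δ))
          linarith
  have h8 : T * (δ / 2) + 1 / (2 * δ) * (δ ^ 2 * T) = δ * T := by
    field_simp
    ring
  rw [h8] at h5
  have h9 : (((1 / T) * ∫ t in Ioc 0 T, w t : ℝ) : ℂ) =
      ((1 / T : ℝ) : ℂ) * (∫ t in Ioc 0 T, P t) + ((1 / T : ℝ) : ℂ) * ∫ t in Ioc 0 T, ((w t : ℂ) - P t) := by
    have h10 : ∫ t in Ioc 0 T, (w t : ℂ) = (∫ t in Ioc 0 T, P t) + ∫ t in Ioc 0 T, ((w t : ℂ) - P t) := by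
      rw [← integral_add hPi hdi]
      refine integral_congr_ae (Eventually.of_forall fun t => ?_)
      show (w t : ℂ) = P t + ((w t : ℂ) - P t)
      ring
    rw [ofReal_mul, ← integral_complex_ofReal, h10]
    ring
  have h11 : |(1 / T) * ∫ t in Ioc 0 T, w t| < e := by
    rw [← Real.norm_eq_abs, ← norm_real, h9]
    refine (norm_add_le _ _).trans_lt ?_
    have h12 : ‖((1 / T : ℝ) : ℂ) * ∫ t in Ioc 0 T, ((w t : ℂ) - P t)‖ ≤ δ := by
      rw [norm_mul, norm_real, Real.norm_eq_abs, abs_of_pos hT', one_div, inv_mul_le_iff₀ hT]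
      linarith
    have h13 : δ + δ < e := by
      rw [hδ]
      linarith
    linarith
  rw [dist_zero_right, Real.norm_eq_abs]
  exact h11

end Pool.Agent.Helper46.CR
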