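import Pool.Agent.Helper46.CR.E3a

/-!
CR, leaf E3: the explicit formula in mean square for `hs x * log x`.
-/

set_option autoImplicit false

namespace Pool.Agent.Helper16.CR

open Complex Filter Topology MeasureTheory Set
open Pool.Agent.Helper13.Bsd Pool.Agent.Helper7.GW Pool.Agent.Helper58.BSD Pool.Agent.Helper29.MS
open Pool.Agent.Helper16.OM (hs Fac)

/-- E3. the explicit formula in mean square -/
theorem expl_hs (W : WeierstrassCurve ℤ) (N : ℕ → ℕ)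
    (hNdef : ∀ p : ℕ, N p = 1 + ((Finset.range p ×ˢ Finset.range p).filter
      (fun q : ℕ × ℕ => (p : ℤ) ∣ ((q.2 : ℤ) ^ 2 + W.a₁ * (q.1 : ℤ) * (q.2 : ℤ) + W.a₃ * (q.2 : ℤ)
        - ((q.1 : ℤ) ^ 3 + W.a₂ * (q.1 : ℤ) ^ 2 + W.a₄ * (q.1 : ℤ) + W.a₆)))).card)
    (hΔ : W.Δ ≠ 0) (F : ℂ → ℂ) (hFd : Differentiable ℂ F) (hF : EulerHyp W N F)
    (hgr : ∃ (A : ℝ) (k : ℕ), ∀ s : ℂ, 1 / 2 ≤ s.re → ‖F s‖ ≤ A * (1 + ‖s‖) ^ k)
    (hRH : ∀ ρ : ℂ, 1 < ρ.re → F ρ ≠ 0) (s : Finset ℝ) (hs0 : (0 : ℝ) ∉ s) :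
    (∀ X : ℝ, IntegrableOn (fun x => ‖((hs W N F x * Real.log x : ℝ) : ℂ) -
        ∑ t ∈ s, (analyticOrderNatAt F (1 + t * I) : ℂ) / ((t : ℂ) * I) *
          cexp (((t * Real.log x : ℝ) : ℂ) * I)‖ ^ 2 / x) (Ioc 2 X)) ∧
    Tendsto (fun X : ℝ => (1 / Real.log X) * ∫ x in Ioc 2 X, ‖((hs W N F x * Real.log x : ℝ) : ℂ) -
        ∑ t ∈ s, (analyticOrderNatAt F (1 + t * I) : ℂ) / ((t : ℂ) * I) *
          cexp (((t * Real.log x : ℝ) : ℂ) * I)‖ ^ 2 / x) atTop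
      (𝓝 ((∑' t : ℝ, if t = 0 then 0 else (analyticOrderNatAt F (1 + t * I) : ℝ) ^ 2 / t ^ 2) -
        ∑ t ∈ s, (analyticOrderNatAt F (1 + t * I) : ℝ) ^ 2 / t ^ 2)) := by
  have hmeas := Pool.Agent.Helper29.CR.measurable_hs W N F
  obtain ⟨r, G', A', a', B', c', k', hFr, hmm, hd⟩ := frame_hs_of W N hNdef hΔ F hFd hF hmeas
    (Pool.Agent.Helper29.CR.hs_bdd W N hNdef hΔ F hFd hF) hgr hRH
  obtain ⟨hi, hl⟩ := expl_zero hFr _ hmm s hs0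
  have hPc : Continuous (fun t : ℝ => ∑ γ ∈ s, (analyticOrderNatAt F (1 + γ * I) : ℂ) / ((γ : ℂ) * I) *
      cexp (((γ * t : ℝ) : ℂ) * I)) := by fun_prop
  obtain ⟨hi2, hl2⟩ := exact_pert (measurable_wcut W N F hmeas) hPc.measurable hd hi hl
  have h := expl_transfer W N F (fun t : ℝ => ∑ γ ∈ s, (analyticOrderNatAt F (1 + γ * I) : ℂ) / ((γ : ℂ) * I) *
      cexp (((γ * t : ℝ) : ℂ) * I)) _ hi2 hl2
  exact h

end Pool.Agent.Helper16.CR
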