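import Pool.Agent.Helper46.CR.D7

/-!
CR, leaf E3a: towards the explicit formula in mean square for `hs x * log x`.
-/

set_option autoImplicit false

namespace Pool.Agent.Helper16.CR

open Complex Filter Topology MeasureTheory Set
open Pool.Agent.Helper13.Bsd Pool.Agent.Helper7.GW Pool.Agent.Helper58.BSD Pool.Agent.Helper29.MS
open Pool.Agent.Helper46.CR (ap_core lap_all residue frame_order PP)
open Pool.Agent.Helper16.OM (hs TTb Fac GG_fac hs_exp log_kon ee_rate2 EinL2_bounds)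

/-- order zero: the mean square distance to every finite trigonometric sum of zeros -/
theorem expl_zero {v : ℝ → ℝ} {G : ℂ → ℂ} {A a η B c : ℝ} {k : ℕ} (hF : Frame v G A a η B c k) (mm : ℝ → ℕ)
    (hmm : Fac G mm) (s : Finset ℝ) (hs0 : (0 : ℝ) ∉ s) :
    (∀ T : ℝ, IntegrableOn (fun t : ℝ => ‖((t * (v t - kap G) : ℝ) : ℂ) -
        ∑ γ ∈ s, (mm γ : ℂ) / ((γ : ℂ) * I) * cexp (((γ * t : ℝ) : ℂ) * I)‖ ^ 2) (Ioc 0 T)) ∧
    Tendsto (fun T : ℝ => (1 / T) * ∫ t in Ioc 0 T, ‖((t * (v t - kap G) : ℝ) : ℂ) -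
        ∑ γ ∈ s, (mm γ : ℂ) / ((γ : ℂ) * I) * cexp (((γ * t : ℝ) : ℂ) * I)‖ ^ 2) atTop
      (𝓝 ((∑' γ : ℝ, if γ = 0 then 0 else (mm γ : ℝ) ^ 2 / γ ^ 2) - ∑ γ ∈ s, (mm γ : ℝ) ^ 2 / γ ^ 2)) := by
  classical
  obtain ⟨L, hL⟩ := exists_branch hF
  obtain ⟨hsum, hlim⟩ := mean_sq hF hL mm hmm
  set cc : ℝ → ℝ := fun γ : ℝ => if γ = 0 then 0 else (mm γ : ℝ) ^ 2 / γ ^ 2 with hcc
  obtain ⟨-, hpl⟩ := planch_deriv hF hL
  have hu : Measurable (fun t : ℝ => t * (v t - kap G)) :=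
    measurable_id.mul (hF.setup.grow.meas.sub_const _)
  have h2 : ∀ s : ℝ, 0 < s → IntegrableOn (fun t => (t * (v t - kap G)) ^ 2 * Real.exp (-s * t)) (Ioi 0) := by
    intro s hs
    have h1 := (hpl (s / 2) (by positivity)).1
    rwa [show 2 * (s / 2) = s by ring] at h1
  have hS : Tendsto (fun s : ℝ => s * ∫ t in Ioi (0 : ℝ), (t * (v t - kap G)) ^ 2 * Real.exp (-s * t))
      (𝓝[>] 0) (𝓝 (∑' γ : ℝ, cc γ)) := by
    have hhalf : Tendsto (fun s : ℝ => s / 2) (𝓝[>] 0) (𝓝[>] 0) := by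
      rw [tendsto_nhdsWithin_iff]
      constructor
      · have h1 : Tendsto (fun s : ℝ => s / 2) (𝓝 0) (𝓝 (0 / 2)) := (continuous_id.div_const 2).tendsto 0
        rw [zero_div] at h1
        exact h1.mono_left nhdsWithin_le_nhds
      · filter_upwards [self_mem_nhdsWithin] with s hs
        have hs' : (0 : ℝ) < s := hs
        exact half_pos hs'
    have h3 := (hlim.comp hhalf).const_mul (Real.pi)⁻¹
    have h4 : (Real.pi)⁻¹ * (Real.pi * ∑' γ : ℝ, cc γ) = ∑' γ : ℝ, cc γ := by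
      rw [← mul_assoc, inv_mul_cancel₀ Real.pi_pos.ne', one_mul]
    rw [h4] at h3
    refine h3.congr' ?_
    filter_upwards [self_mem_nhdsWithin] with s hs
    have hs' : (0 : ℝ) < s := hs
    have h5 := (hpl (s / 2) (by positivity)).2
    rw [show 2 * (s / 2) = s by ring] at h5
    show (Real.pi)⁻¹ * (s / 2 * ∫ τ : ℝ, ‖deriv (VV L (kap G)) (((s / 2 : ℝ) : ℂ) + (τ : ℂ) * I)‖ ^ 2) = _
    rw [← h5]
    have := Real.pi_pos.ne'
    field_simp
  obtain ⟨hi, ht⟩ := ap_core hu h2 (fun w hw => lap_all hF hL hw) hS s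
    (fun γ => (mm γ : ℂ) / ((γ : ℂ) * I)) (fun γ hγ => residue hL hmm (fun h => hs0 (h ▸ hγ)))
  have hnorm : ∑ γ ∈ s, ‖(mm γ : ℂ) / ((γ : ℂ) * I)‖ ^ 2 = ∑ γ ∈ s, (mm γ : ℝ) ^ 2 / γ ^ 2 := by
    refine Finset.sum_congr rfl fun γ _ => ?_
    rw [norm_div, norm_mul, norm_I, mul_one, norm_real, Complex.norm_natCast, div_pow, Real.norm_eq_abs, sq_abs]
  rw [hnorm] at ht
  exact ⟨hi, ht⟩

/-- square integrable perturbations do not change the mean square distance to a bounded function -/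
theorem exact_pert {u w : ℝ → ℝ} (hw : Measurable w) {P : ℝ → ℂ} (hP : Measurable P)
    (hd : IntegrableOn (fun t => (w t - u t) ^ 2) (Ioi 0)) {S : ℝ}
    (hi : ∀ T : ℝ, IntegrableOn (fun t => ‖(u t : ℂ) - P t‖ ^ 2) (Ioc 0 T))
    (hl : Tendsto (fun T : ℝ => (1 / T) * ∫ t in Ioc 0 T, ‖(u t : ℂ) - P t‖ ^ 2) atTop (𝓝 S)) :
    (∀ T : ℝ, IntegrableOn (fun t => ‖(w t : ℂ) - P t‖ ^ 2) (Ioc 0 T)) ∧
    Tendsto (fun T : ℝ => (1 / T) * ∫ t in Ioc 0 T, ‖(w t : ℂ) - P t‖ ^ 2) atTop (𝓝 S) := by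
  set M : ℝ := ∫ t in Ioi (0 : ℝ), (w t - u t) ^ 2 with hM
  have hM0 : 0 ≤ M := setIntegral_nonneg measurableSet_Ioi fun t _ => sq_nonneg _
  have hdT : ∀ T : ℝ, IntegrableOn (fun t => (w t - u t) ^ 2) (Ioc 0 T) := fun T =>
    hd.mono_set Ioc_subset_Ioi_self
  -- pointwise
  have hpt : ∀ θ : ℝ, 0 < θ → ∀ t, |‖(w t : ℂ) - P t‖ ^ 2 - ‖(u t : ℂ) - P t‖ ^ 2| ≤
      θ * ‖(u t : ℂ) - P t‖ ^ 2 + (1 + 1 / θ) * (w t - u t) ^ 2 := by
    intro θ hθ t
    set x := ‖(u t : ℂ) - P t‖ with hx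
    set y := ‖(w t : ℂ) - P t‖ with hy
    set d := |w t - u t| with hd'
    have hx0 : 0 ≤ x := norm_nonneg _
    have hy0 : 0 ≤ y := norm_nonneg _
    have hd0 : 0 ≤ d := abs_nonneg _
    have e1 : |y - x| ≤ d := by
      have e2 := abs_norm_sub_norm_le ((w t : ℂ) - P t) ((u t : ℂ) - P t)
      have e3 : ((w t : ℂ) - P t) - ((u t : ℂ) - P t) = ((w t - u t : ℝ) : ℂ) := by
        push_cast
        ring
      rw [e3, norm_real, Real.norm_eq_abs] at e2
      exact e2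
    have e4 : |y ^ 2 - x ^ 2| ≤ d * (2 * x + d) := by
      have e5 : y ^ 2 - x ^ 2 = (y - x) * (y + x) := by ring
      rw [e5, abs_mul, abs_of_nonneg (add_nonneg hy0 hx0)]
      have e6 : y + x ≤ 2 * x + d := by
        have := (abs_le.1 e1).2
        linarith
      exact mul_le_mul e1 e6 (add_nonneg hy0 hx0) hd0
    have e7 : 2 * x * d ≤ θ * x ^ 2 + 1 / θ * d ^ 2 := by
      have e8 : 0 ≤ (θ * x - d) ^ 2 / θ := by positivity
      have e9 : (θ * x - d) ^ 2 / θ = θ * x ^ 2 - 2 * x * d + 1 / θ * d ^ 2 := by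
        field_simp
        ring
      linarith
    have e10 : (w t - u t) ^ 2 = d ^ 2 := (sq_abs _).symm
    rw [e10]
    calc |y ^ 2 - x ^ 2| ≤ d * (2 * x + d) := e4
      _ = 2 * x * d + d ^ 2 := by ring
      _ ≤ (θ * x ^ 2 + 1 / θ * d ^ 2) + d ^ 2 := by linarith
      _ = _ := by ring
  have hwm : Measurable (fun t => ‖(w t : ℂ) - P t‖ ^ 2) :=
    (((measurable_ofReal.comp hw).sub hP).norm).pow_const 2
  have hwi : ∀ T : ℝ, IntegrableOn (fun t => ‖(w t : ℂ) - P t‖ ^ 2) (Ioc 0 T) := by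
    intro T
    have h1 : IntegrableOn (fun t => 2 * ‖(u t : ℂ) - P t‖ ^ 2 + 2 * (w t - u t) ^ 2) (Ioc 0 T) :=
      ((hi T).const_mul 2).add ((hdT T).const_mul 2)
    refine Integrable.mono' h1 hwm.aestronglyMeasurable (Filter.Eventually.of_forall fun t => ?_)
    rw [Real.norm_eq_abs, abs_of_nonneg (sq_nonneg _)]
    have h2 := hpt 1 one_pos t
    have h3 := (abs_le.1 h2).2
    norm_num at h3
    linarith
  refine ⟨hwi, ?_⟩
  have hS0 : 0 ≤ S := by
    refine ge_of_tendsto hl ?_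
    filter_upwards [eventually_gt_atTop (0 : ℝ)] with T hT
    exact mul_nonneg (by positivity) (setIntegral_nonneg measurableSet_Ioc fun t _ => sq_nonneg _)
  have hdiff : Tendsto (fun T : ℝ => (1 / T) * (∫ t in Ioc 0 T, ‖(w t : ℂ) - P t‖ ^ 2) -
      (1 / T) * ∫ t in Ioc 0 T, ‖(u t : ℂ) - P t‖ ^ 2) atTop (𝓝 0) := by
    rw [Metric.tendsto_nhds]
    intro e he
    set θ : ℝ := e / (4 * (S + 1)) with hθ
    have hθ0 : 0 < θ := by rw [hθ]; positivity
    have h1 : ∀ᶠ T : ℝ in atTop, (1 / T) * (∫ t in Ioc 0 T, ‖(u t : ℂ) - P t‖ ^ 2) < S + 1 :=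
      hl.eventually (gt_mem_nhds (by linarith))
    have h2 : Tendsto (fun T : ℝ => 1 / T * ((1 + 1 / θ) * M)) atTop (𝓝 0) := by
      have h3 : Tendsto (fun T : ℝ => 1 / T) atTop (𝓝 0) := by
        simp_rw [one_div]
        exact tendsto_inv_atTop_zero
      have h4 := h3.mul_const ((1 + 1 / θ) * M)
      rwa [zero_mul] at h4
    have h3 : ∀ᶠ T : ℝ in atTop, 1 / T * ((1 + 1 / θ) * M) < e / 4 := h2.eventually (gt_mem_nhds (by positivity))
    filter_upwards [h1, h3, eventually_gt_atTop (0 : ℝ)] with T h4 h5 hT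
    have hT' : 0 < 1 / T := by positivity
    have hbi : IntegrableOn (fun t => θ * ‖(u t : ℂ) - P t‖ ^ 2 + (1 + 1 / θ) * (w t - u t) ^ 2) (Ioc 0 T) :=
      ((hi T).const_mul _).add ((hdT T).const_mul _)
    have h6 : |(∫ t in Ioc 0 T, ‖(w t : ℂ) - P t‖ ^ 2) - ∫ t in Ioc 0 T, ‖(u t : ℂ) - P t‖ ^ 2| ≤
        θ * (∫ t in Ioc 0 T, ‖(u t : ℂ) - P t‖ ^ 2) + (1 + 1 / θ) * M := by
      rw [← integral_sub (hwi T) (hi T), ← Real.norm_eq_abs]
      refine (norm_integral_le_of_norm_le hbi (Filter.Eventually.of_forall fun t => ?_)).trans ?_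
      · rw [Real.norm_eq_abs]
        exact hpt θ hθ0 t
      · rw [integral_add ((hi T).const_mul _) ((hdT T).const_mul _), integral_const_mul, integral_const_mul]
        have h7 : ∫ t in Ioc 0 T, (w t - u t) ^ 2 ≤ M :=
          setIntegral_mono_set hd (Filter.Eventually.of_forall fun t => sq_nonneg _)
            (Filter.Eventually.of_forall fun t ht => Ioc_subset_Ioi_self ht)
        have h8 := mul_le_mul_of_nonneg_left h7 (by positivity : 0 ≤ 1 + 1 / θ)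
        linarith
    rw [dist_zero_right, Real.norm_eq_abs, ← mul_sub, abs_mul, abs_of_pos hT']
    calc 1 / T * |(∫ t in Ioc 0 T, ‖(w t : ℂ) - P t‖ ^ 2) - ∫ t in Ioc 0 T, ‖(u t : ℂ) - P t‖ ^ 2|
        ≤ 1 / T * (θ * (∫ t in Ioc 0 T, ‖(u t : ℂ) - P t‖ ^ 2) + (1 + 1 / θ) * M) :=
          mul_le_mul_of_nonneg_left h6 hT'.le
      _ = θ * ((1 / T) * (∫ t in Ioc 0 T, ‖(u t : ℂ) - P t‖ ^ 2)) + 1 / T * ((1 + 1 / θ) * M) := by ring
      _ ≤ θ * (S + 1) + e / 4 := add_le_add (mul_le_mul_of_nonneg_left h4.le hθ0.le) h5.le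
      _ = e / 2 := by
          rw [hθ]
          field_simp
          ring
      _ < e := by linarith
  have h1 := hdiff.add hl
  rw [zero_add] at h1
  refine h1.congr fun T => ?_
  ring

theorem frame_hs_of (W : WeierstrassCurve ℤ) (N : ℕ → ℕ)
    (hNdef : ∀ p : ℕ, N p = 1 + ((Finset.range p ×ˢ Finset.range p).filter
      (fun q : ℕ × ℕ => (p : ℤ) ∣ ((q.2 : ℤ) ^ 2 + W.a₁ * (q.1 : ℤ) * (q.2 : ℤ) + W.a₃ * (q.2 : ℤ)
        - ((q.1 : ℤ) ^ 3 + W.a₂ * (q.1 : ℤ) ^ 2 + W.a₄ * (q.1 : ℤ) + W.a₆)))).card)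
    (hΔ : W.Δ ≠ 0) (F : ℂ → ℂ) (hFd : Differentiable ℂ F) (hF : EulerHyp W N F)
    (hmeas : Measurable (hs W N F))
    (hbdd : ∀ a b : ℝ, 0 < a → ∃ C : ℝ, 0 ≤ C ∧ ∀ t : ℝ, a ≤ t → t ≤ b → |hs W N F (Real.exp t)| ≤ C)
    (hgr : ∃ (A : ℝ) (k : ℕ), ∀ s : ℂ, 1 / 2 ≤ s.re → ‖F s‖ ≤ A * (1 + ‖s‖) ^ k)
    (hRH : ∀ ρ : ℂ, 1 < ρ.re → F ρ ≠ 0) :
    ∃ (r : ℕ) (G' : ℂ → ℂ) (A' a' B' c' : ℝ) (k' : ℕ),
      Frame (fun t => (LL N (badW W) t - ee N (badW W) t) - r * ein t) G' A' a' (1 / 100) B' c' k' ∧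
      Fac G' (fun γ : ℝ => analyticOrderNatAt F (1 + γ * I)) ∧
      IntegrableOn (fun t => (wcut W N F t -
        t * (((LL N (badW W) t - ee N (badW W) t) - r * ein t) - kap G')) ^ 2) (Ioi 0) := by
  set r := analyticOrderNatAt F 1 with hr
  have hN := nhyp W N hNdef
  have hB : EulerB N (badW W) F := hF
  obtain ⟨A, hS⟩ := bsd_setup hN F hFd hB
  obtain ⟨hg0, hg⟩ := GG_lead hN F hFd hB
  rw [← hr] at hg0 hg
  obtain ⟨B1, k, hB1, hgrow⟩ := GG_growth (bad := badW W) hN F hgr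
  obtain ⟨B2, hB2, hright⟩ := right_bound (bad := badW W) hN
  have hrh : ∀ s : ℂ, 0 < s.re → GG N (badW W) F s ≠ 0 := by
    intro s hs h0
    rw [GG_zero_iff hN F s hs.le] at h0
    refine hRH (1 + s) ?_ h0
    rw [add_re, one_re]
    linarith
  set g : ℝ := ‖iteratedDeriv r F 1‖ / (r.factorial : ℝ) * Real.exp (E0 N (badW W)) with hgdef
  have hgr2 : ∀ s : ℂ, -(1 / 100 : ℝ) < s.re → ‖GG N (badW W) F s‖ ≤ max B1 B2 * (1 + ‖s‖) ^ k := by
    intro s hs
    refine (hgrow s hs).trans ?_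
    gcongr
    exact le_max_left _ _
  have hr2 : ∀ s : ℂ, (11 : ℝ) ≤ s.re →
      ‖s * Lap (fun t => LL N (badW W) t - ee N (badW W) t) s‖ ≤ max B1 B2 := fun s hs =>
    (hright s hs).trans (le_max_right _ _)
  have hmm : Fac (GG N (badW W) F) (fun γ : ℝ => analyticOrderNatAt F (1 + γ * I)) := fun μ _ =>
    GG_fac hN F hFd hB (μ * I) (by simp)
  obtain ⟨G', A', a', B', c', k', hFr, hkap, hmm'⟩ := frame_order hS r g hg0 hg hrh hgr2 hr2 _ hmm
  set u : ℝ → ℝ := fun t => t * (((LL N (badW W) t - ee N (badW W) t) - r * ein t) - kap G') with hu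
  have hum : Measurable u := measurable_id.mul (hFr.setup.grow.meas.sub_const _)
  have hwm := measurable_wcut W N F hmeas
  refine ⟨r, G', A', a', B', c', k', hFr, hmm', ?_⟩
  -- the difference is square integrable
  obtain ⟨K, T0, hK, hT0, hrate⟩ := ee_rate2 hN (finite_bad W hΔ)
  have hr0 : (0 : ℝ) ≤ r := Nat.cast_nonneg r
  have hl2 : Real.log 2 ≤ 1 := by
    have := Real.log_two_lt_d9
    linarith
  have hdm : Measurable (fun t => (wcut W N F t - u t) ^ 2) := (hwm.sub hum).pow_const 2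
  -- bounded part
  have h1 : IntegrableOn (fun t => (wcut W N F t - u t) ^ 2) (Ioc 0 T0) := by
    obtain ⟨K0, -, hK0⟩ := cramer_zero hFr
    have h2 : IntegrableOn (fun t => u t ^ 2) (Ioc 0 T0) := (hK0 T0 hT0).1
    obtain ⟨D, hD, hDb⟩ := wcut_bdd W N F hbdd T0
    have h3 : IntegrableOn (fun t => wcut W N F t ^ 2) (Ioc 0 T0) := by
      refine Measure.integrableOn_of_bounded (M := D ^ 2) measure_Ioc_lt_top.ne
        (hwm.pow_const 2).aestronglyMeasurable ?_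
      rw [ae_restrict_iff' measurableSet_Ioc]
      refine Filter.Eventually.of_forall fun t ht => ?_
      rw [Real.norm_eq_abs, abs_of_nonneg (sq_nonneg _), ← sq_abs]
      exact pow_le_pow_left₀ (abs_nonneg _) (hDb t ht) 2
    refine Integrable.mono' ((h3.const_mul 2).add (h2.const_mul 2)) hdm.aestronglyMeasurable
      (Filter.Eventually.of_forall fun t => ?_)
    rw [Real.norm_eq_abs, abs_of_nonneg (sq_nonneg _)]
    show (wcut W N F t - u t) ^ 2 ≤ 2 * wcut W N F t ^ 2 + 2 * u t ^ 2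
    nlinarith [sq_nonneg (wcut W N F t + u t)]
  -- tail
  have hdeq : ∀ t : ℝ, T0 < t → wcut W N F t - u t = t * ((ee N (badW W) t + TTb N (badW W) (Real.exp t)
      - E0 N (badW W)) + r * (ein t - Real.log t - Real.eulerMascheroniConstant)) := by
    intro t ht
    have ht0 : 0 < t := by linarith
    have h2 : wcut W N F t = t * hs W N F (Real.exp t) := by
      unfold wcut
      rw [indicator_of_mem]
      show Real.log 2 < t
      linarith
    rw [h2, hs_exp W N hNdef hΔ F hFd hF t ht0, log_kon W N hNdef hΔ F hFd hF, ← hr, ← hgdef]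
    simp only [hu]
    rw [hkap]
    ring
  have hdb : ∀ t : ℝ, T0 < t → (wcut W N F t - u t) ^ 2 ≤ (100 * (K + r) ^ 2) * Real.exp (-(1 / 4) * t) := by
    intro t ht
    have ht1 : 1 ≤ t := by linarith
    have ht0 : 0 < t := by linarith
    rw [hdeq t ht]
    have h2 := hrate t ht.le
    obtain ⟨h6, h7⟩ := EinL2_bounds ht1
    have e1 : Real.exp (-t) ≤ Real.exp (-(47 / 200 * t)) := Real.exp_le_exp.2 (by linarith)
    have e0 := Real.exp_pos (-(47 / 200 * t))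
    have h3 : |(ee N (badW W) t + TTb N (badW W) (Real.exp t) - E0 N (badW W)) +
        r * (ein t - Real.log t - Real.eulerMascheroniConstant)| ≤ (K + r) * Real.exp (-(47 / 200 * t)) := by
      refine (abs_add_le _ _).trans ?_
      rw [abs_of_nonneg (mul_nonneg hr0 h6), add_mul]
      exact add_le_add h2 (mul_le_mul_of_nonneg_left (h7.trans e1) hr0)
    have h4 : t ≤ 10 * Real.exp (t / 10) := by
      have := Real.add_one_le_exp (t / 10)
      linarith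
    have h5 : |t * ((ee N (badW W) t + TTb N (badW W) (Real.exp t) - E0 N (badW W)) +
        r * (ein t - Real.log t - Real.eulerMascheroniConstant))| ≤
        10 * (K + r) * Real.exp (-(1 / 8) * t) := by
      rw [abs_mul, abs_of_pos ht0]
      calc t * _ ≤ (10 * Real.exp (t / 10)) * ((K + r) * Real.exp (-(47 / 200 * t))) :=
            mul_le_mul h4 h3 (abs_nonneg _) (by positivity)
        _ = 10 * (K + r) * (Real.exp (t / 10) * Real.exp (-(47 / 200 * t))) := by ring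
        _ ≤ 10 * (K + r) * Real.exp (-(1 / 8) * t) := by
            apply mul_le_mul_of_nonneg_left _ (by positivity)
            rw [← Real.exp_add, Real.exp_le_exp]
            linarith
    rw [← sq_abs]
    calc _ ≤ (10 * (K + r) * Real.exp (-(1 / 8) * t)) ^ 2 := pow_le_pow_left₀ (abs_nonneg _) h5 2
      _ = 100 * (K + r) ^ 2 * (Real.exp (-(1 / 8) * t) * Real.exp (-(1 / 8) * t)) := by ring
      _ = _ := by
          rw [← Real.exp_add]
          congr 2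
          ring
  have h2 : IntegrableOn (fun t => (wcut W N F t - u t) ^ 2) (Ioi T0) := by
    have h3 : IntegrableOn (fun t : ℝ => (100 * (K + r) ^ 2) * Real.exp (-(1 / 4) * t)) (Ioi T0) :=
      (exp_neg_integrableOn_Ioi T0 (by norm_num : (0 : ℝ) < 1 / 4)).const_mul _
    refine Integrable.mono' h3 hdm.aestronglyMeasurable ?_
    rw [ae_restrict_iff' measurableSet_Ioi]
    refine Filter.Eventually.of_forall fun t ht => ?_
    rw [Real.norm_eq_abs, abs_of_nonneg (sq_nonneg _)]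
    exact hdb t ht
  have h3 : Ioi (0 : ℝ) = Ioc 0 T0 ∪ Ioi T0 := (Ioc_union_Ioi_eq_Ioi (by linarith)).symm
  rw [h3]
  exact h1.union h2


/-- transfer of mean square distances -/
theorem expl_transfer (W : WeierstrassCurve ℤ) (N : ℕ → ℕ) (F : ℂ → ℂ) (P : ℝ → ℂ) (l : ℝ)
    (hi : ∀ T : ℝ, IntegrableOn (fun t => ‖(wcut W N F t : ℂ) - P t‖ ^ 2) (Ioc 0 T))
    (h : Tendsto (fun T : ℝ => (1 / T) * ∫ t in Ioc 0 T, ‖(wcut W N F t : ℂ) - P t‖ ^ 2) atTop (𝓝 l)) :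
    (∀ X : ℝ, IntegrableOn (fun x => ‖((hs W N F x * Real.log x : ℝ) : ℂ) - P (Real.log x)‖ ^ 2 / x) (Ioc 2 X)) ∧
    Tendsto (fun X : ℝ => (1 / Real.log X) *
      ∫ x in Ioc 2 X, ‖((hs W N F x * Real.log x : ℝ) : ℂ) - P (Real.log x)‖ ^ 2 / x) atTop (𝓝 l) := by
  have hl2 : 0 < Real.log 2 := Real.log_pos one_lt_two
  have h1 := shift_start hi hl2.le h
  have hfun : ∀ t ∈ Ioi (Real.log 2), ‖((hs W N F (Real.exp t) * Real.log (Real.exp t) : ℝ) : ℂ) -
      P (Real.log (Real.exp t))‖ ^ 2 = ‖(wcut W N F t : ℂ) - P t‖ ^ 2 := by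
    intro t ht
    unfold wcut
    rw [indicator_of_mem ht, Real.log_exp, mul_comm]
  have hsub : ∀ X : ℝ, 0 < X →
      IntegrableOn (fun x => ‖((hs W N F x * Real.log x : ℝ) : ℂ) - P (Real.log x)‖ ^ 2 / x) (Ioc 2 X) ∧
      ∫ x in Ioc 2 X, ‖((hs W N F x * Real.log x : ℝ) : ℂ) - P (Real.log x)‖ ^ 2 / x =
        ∫ t in Ioc (Real.log 2) (Real.log X), ‖(wcut W N F t : ℂ) - P t‖ ^ 2 := by
    intro X hX
    have h5 := subst_exp (fun x => ‖((hs W N F x * Real.log x : ℝ) : ℂ) - P (Real.log x)‖ ^ 2)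
      (Real.log 2) (Real.log X)
    rw [Real.exp_log two_pos, Real.exp_log hX] at h5
    have h6 : IntegrableOn (fun t => ‖((hs W N F (Real.exp t) * Real.log (Real.exp t) : ℝ) : ℂ) -
        P (Real.log (Real.exp t))‖ ^ 2) (Ioc (Real.log 2) (Real.log X)) := by
      refine ((hi (Real.log X)).mono_set (Ioc_subset_Ioc_left hl2.le)).congr_fun (fun t ht => ?_) measurableSet_Ioc
      exact (hfun t ht.1).symm
    refine ⟨h5.1.2 h6, h5.2.trans ?_⟩
    exact setIntegral_congr_fun measurableSet_Ioc fun t ht => hfun t ht.1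
  refine ⟨fun X => ?_, ?_⟩
  · rcases lt_or_ge 0 X with hX | hX
    · exact (hsub X hX).1
    · rw [Ioc_eq_empty (by linarith)]
      exact integrableOn_empty
  · refine (h1.comp Real.tendsto_log_atTop).congr' ?_
    filter_upwards [eventually_gt_atTop (0 : ℝ)] with X hX
    rw [(hsub X hX).2]
    rfl

end Pool.Agent.Helper16.CR
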