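import Mathlib

/-!
CR, leaf S1: a trigonometric polynomial whose positive part above `K` has mean zero is at most `K`.
-/

set_option autoImplicit false

namespace Pool.Agent.Helper46.CR

open Complex Filter Topology MeasureTheory Set

/-- almost periods are relatively dense -/
theorem exists_periods (s : Finset ℝ) {δ : ℝ} (hδ : 0 < δ) :
    ∃ B : ℝ, 0 < B ∧ ∀ t : ℝ, ∃ τ : ℝ, |τ - t| ≤ B ∧ ∀ γ ∈ s, ‖cexp (((γ * τ : ℝ) : ℂ) * I) - 1‖ ≤ δ := by
  classical
  set f : ℝ → (s → ℂ) := fun t γ => cexp ((((γ : ℝ) * t : ℝ) : ℂ) * I) with hf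
  have hb : TotallyBounded (range f) := by
    have h1 : range f ⊆ Metric.closedBall (0 : s → ℂ) 1 := by
      rintro _ ⟨t, rfl⟩
      rw [mem_closedBall_zero_iff, pi_norm_le_iff_of_nonneg zero_le_one]
      intro γ
      simp only [hf]
      rw [norm_exp_ofReal_mul_I]
    exact (isCompact_closedBall (0 : s → ℂ) 1).totallyBounded.subset h1
  obtain ⟨t0, ht0, hcov⟩ := Metric.totallyBounded_iff.1 hb (δ / 2) (by positivity)
  obtain ⟨T, hT, hTc⟩ : ∃ T : Set ℝ, T.Finite ∧ ∀ z : ℝ, ∃ y ∈ T, dist (f z) (f y) < δ := by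
    have hchoose : ∀ y ∈ t0, ∃ x : ℝ, (∃ z, f z ∈ Metric.ball y (δ / 2)) → f x ∈ Metric.ball y (δ / 2) := by
      intro y _
      by_cases h : ∃ z, f z ∈ Metric.ball y (δ / 2)
      · obtain ⟨z, hz⟩ := h
        exact ⟨z, fun _ => hz⟩
      · exact ⟨0, fun h' => absurd h' h⟩
    choose! g hg using hchoose
    refine ⟨g '' t0, ht0.image g, fun z => ?_⟩
    have h1 := hcov (mem_range_self z)
    simp only [mem_iUnion] at h1
    obtain ⟨y, hy, hzy⟩ := h1
    have h2 := hg y hy ⟨z, hzy⟩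
    refine ⟨g y, mem_image_of_mem g hy, ?_⟩
    rw [Metric.mem_ball] at h2 hzy
    have h3 := dist_triangle_right (f z) (f (g y)) y
    linarith
  obtain ⟨B, hB⟩ := hT.isBounded.exists_norm_le
  refine ⟨|B| + 1, by positivity, fun t => ?_⟩
  obtain ⟨y, hy, hyt⟩ := hTc t
  refine ⟨t - y, ?_, fun γ hγ => ?_⟩
  · have h1 := hB y hy
    rw [Real.norm_eq_abs] at h1
    rw [show t - y - t = -y by ring, abs_neg]
    have := le_abs_self B
    linarith
  · have h1 : dist (f t ⟨γ, hγ⟩) (f y ⟨γ, hγ⟩) ≤ dist (f t) (f y) := dist_le_pi_dist _ _ _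
    have h2 : cexp (((γ * (t - y) : ℝ) : ℂ) * I) - 1 =
        (cexp (((γ * t : ℝ) : ℂ) * I) - cexp (((γ * y : ℝ) : ℂ) * I)) * cexp (((-(γ * y) : ℝ) : ℂ) * I) := by
      rw [sub_mul, ← Complex.exp_add, ← Complex.exp_add]
      congr 1
      · congr 1
        push_cast
        ring
      · rw [← Complex.exp_zero]
        congr 1
        push_cast
        ring
    rw [h2, norm_mul, norm_exp_ofReal_mul_I, mul_one]
    rw [dist_eq_norm] at h1
    exact h1.trans hyt.le

theorem trig_le_of_mean {s : Finset ℝ} {c : ℝ → ℂ} {v : ℝ → ℝ}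
    (hv : ∀ t, (v t : ℂ) = ∑ γ ∈ s, c γ * cexp (((γ * t : ℝ) : ℂ) * I)) (K : ℝ)
    (h : Tendsto (fun T : ℝ => (1 / T) * ∫ t in Ioc 0 T, max (v t - K) 0) atTop (𝓝 0)) :
    ∀ t, v t ≤ K := by
  classical
  intro t0
  by_contra hcon
  push Not at hcon
  have hvc : Continuous v := by
    have h1 : v = fun t => (∑ γ ∈ s, c γ * cexp (((γ * t : ℝ) : ℂ) * I)).re := by
      funext t
      rw [← hv t, ofReal_re]
    rw [h1]
    fun_prop
  set ε : ℝ := (v t0 - K) / 3 with hε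
  have hε0 : 0 < ε := by rw [hε]; linarith
  set A : ℝ := (∑ γ ∈ s, ‖c γ‖) + 1 with hA
  have hA0 : 0 < A := by positivity
  obtain ⟨B, hB0, hB⟩ := exists_periods s (δ := ε / A) (by positivity)
  have hper : ∀ τ : ℝ, (∀ γ ∈ s, ‖cexp (((γ * τ : ℝ) : ℂ) * I) - 1‖ ≤ ε / A) → ∀ x : ℝ,
      v x - ε ≤ v (x + τ) := by
    intro τ hτ x
    have h1 : ((v (x + τ) - v x : ℝ) : ℂ) = ∑ γ ∈ s, c γ * cexp (((γ * x : ℝ) : ℂ) * I) *
        (cexp (((γ * τ : ℝ) : ℂ) * I) - 1) := by
      push_cast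
      rw [hv, hv, ← Finset.sum_sub_distrib]
      refine Finset.sum_congr rfl fun γ _ => ?_
      have h2 : cexp (((γ * (x + τ) : ℝ) : ℂ) * I) = cexp (((γ * x : ℝ) : ℂ) * I) * cexp (((γ * τ : ℝ) : ℂ) * I) := by
        rw [← Complex.exp_add]
        congr 1
        push_cast
        ring
      rw [h2]
      push_cast
      ring
    have h2 : |v (x + τ) - v x| ≤ ε := by
      rw [← Real.norm_eq_abs, ← norm_real, h1]
      calc ‖∑ γ ∈ s, c γ * cexp (((γ * x : ℝ) : ℂ) * I) * (cexp (((γ * τ : ℝ) : ℂ) * I) - 1)‖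
          ≤ ∑ γ ∈ s, ‖c γ * cexp (((γ * x : ℝ) : ℂ) * I) * (cexp (((γ * τ : ℝ) : ℂ) * I) - 1)‖ :=
            norm_sum_le _ _
        _ ≤ ∑ γ ∈ s, ‖c γ‖ * (ε / A) := by
            refine Finset.sum_le_sum fun γ hγ => ?_
            rw [norm_mul, norm_mul, norm_exp_ofReal_mul_I, mul_one]
            exact mul_le_mul_of_nonneg_left (hτ γ hγ) (norm_nonneg _)
        _ = (∑ γ ∈ s, ‖c γ‖) * (ε / A) := by rw [Finset.sum_mul]
        _ ≤ A * (ε / A) := by
            apply mul_le_mul_of_nonneg_right _ (by positivity)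
            rw [hA]
            linarith
        _ = ε := by field_simp
    have := (abs_le.1 h2).1
    linarith
  obtain ⟨ρ, hρ0, hρ⟩ : ∃ ρ : ℝ, 0 < ρ ∧ ∀ x, |x - t0| ≤ ρ → v t0 - ε ≤ v x := by
    have h1 : ∀ᶠ x in 𝓝 t0, v t0 - ε < v x := hvc.continuousAt.eventually (lt_mem_nhds (by linarith))
    obtain ⟨ρ, hρ, h2⟩ := Metric.eventually_nhds_iff.1 h1
    refine ⟨ρ / 2, by positivity, fun x hx => (h2 ?_).le⟩
    rw [Real.dist_eq]
    linarith
  set L : ℝ := 2 * (B + ρ) with hL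
  have hL0 : 0 < L := by positivity
  set f : ℝ → ℝ := fun t => max (v t - K) 0 with hf
  have hfc : Continuous f := by fun_prop
  have hf0 : ∀ t, 0 ≤ f t := fun t => le_max_right _ _
  have hwin : ∀ a : ℝ, 2 * ρ * ε ≤ ∫ t in Ioc a (a + L), f t := by
    intro a
    obtain ⟨τ, hτ, hτp⟩ := hB (a + B + ρ - t0)
    have h1 := abs_le.1 hτ
    have hsub : Ioc (t0 + τ - ρ) (t0 + τ + ρ) ⊆ Ioc a (a + L) := by
      intro x hx
      constructor
      · linarith [hx.1, h1.1]
      · rw [hL]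
        linarith [hx.2, h1.2]
    have h2 : ∫ t in Ioc (t0 + τ - ρ) (t0 + τ + ρ), f t ≤ ∫ t in Ioc a (a + L), f t :=
      setIntegral_mono_set hfc.integrableOn_Ioc (Eventually.of_forall fun t => hf0 t)
        (Eventually.of_forall fun t ht => hsub ht)
    have h3 : ∫ t in Ioc (t0 + τ - ρ) (t0 + τ + ρ), ε ≤ ∫ t in Ioc (t0 + τ - ρ) (t0 + τ + ρ), f t := by
      refine setIntegral_mono_on (integrableOn_const measure_Ioc_lt_top.ne) hfc.integrableOn_Ioc
        measurableSet_Ioc fun x hx => ?_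
      have h4 : |(x - τ) - t0| ≤ ρ := by
        rw [abs_le]
        constructor <;> linarith [hx.1, hx.2]
      have h5 := hρ _ h4
      have h6 := hper τ hτp (x - τ)
      rw [sub_add_cancel] at h6
      refine le_trans ?_ (le_max_left _ _)
      rw [hε] at *
      linarith
    rw [setIntegral_const, Real.volume_real_Ioc_of_le (by linarith), smul_eq_mul] at h3
    have h4 : (t0 + τ + ρ - (t0 + τ - ρ)) * ε = 2 * ρ * ε := by ring
    rw [h4] at h3
    exact h3.trans h2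
  have hstep : ∀ n : ℕ, (n : ℝ) * (2 * ρ * ε) ≤ ∫ t in Ioc 0 ((n : ℝ) * L), f t := by
    intro n
    induction n with
    | zero => simp
    | succ n ih =>
      have h1 : Ioc (0 : ℝ) (((n + 1 : ℕ) : ℝ) * L) = Ioc 0 ((n : ℝ) * L) ∪ Ioc ((n : ℝ) * L) ((n : ℝ) * L + L) := by
        rw [Ioc_union_Ioc_eq_Ioc (by positivity) (by linarith)]
        congr 1
        push_cast
        ring
      rw [h1, setIntegral_union (Ioc_disjoint_Ioc_of_le le_rfl) measurableSet_Ioc hfc.integrableOn_Ioc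
        hfc.integrableOn_Ioc]
      have h2 := hwin ((n : ℝ) * L)
      push_cast
      linarith
  have hseq : Tendsto (fun n : ℕ => (n : ℝ) * L) atTop atTop :=
    tendsto_natCast_atTop_atTop.atTop_mul_const hL0
  have h1 := h.comp hseq
  have h2 : 2 * ρ * ε / L ≤ 0 := by
    refine ge_of_tendsto h1 ?_
    filter_upwards [eventually_ge_atTop 1] with n hn
    have hn0 : (0 : ℝ) < n := by exact_mod_cast hn
    show 2 * ρ * ε / L ≤ 1 / ((n : ℝ) * L) * ∫ t in Ioc 0 ((n : ℝ) * L), f t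
    rw [one_div, ← div_eq_inv_mul, div_le_div_iff₀ hL0 (by positivity)]
    have h3 := mul_le_mul_of_nonneg_right (hstep n) hL0.le
    linarith
  have h3 : 0 < 2 * ρ * ε / L := by positivity
  linarith

end Pool.Agent.Helper46.CR
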