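import Pool.Agent.Helper46.CR.D7a
import Pool.Agent.Helper46.CR.D7b
import Pool.Agent.Helper16.CR.V3c

/-!
CR-V3e. The limit law of `hs x * log x` under the Riemann hypothesis.
-/

set_option autoImplicit false

namespace Pool.Agent.Helper16.CR

open Complex Filter Topology MeasureTheory Set
open Pool.Agent.Helper13.Bsd Pool.Agent.Helper7.GW Pool.Agent.Helper58.BSD Pool.Agent.Helper29.MS
open Pool.Agent.Helper46.CR (ap_pert ap_zero frame_order mean_zero_of_ap)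
open Pool.Agent.Helper16.OM (hs TTb Fac GG_fac hs_exp log_kon ee_rate2 EinL2_bounds)

/-- `t * hs (e^t)`, cut at `log 2` -/
noncomputable def wcut (W : WeierstrassCurve ℤ) (N : ℕ → ℕ) (F : ℂ → ℂ) : ℝ → ℝ :=
  (Ioi (Real.log 2)).indicator (fun t => t * hs W N F (Real.exp t))

theorem measurable_wcut (W : WeierstrassCurve ℤ) (N : ℕ → ℕ) (F : ℂ → ℂ) (hmeas : Measurable (hs W N F)) :
    Measurable (wcut W N F) :=
  (measurable_id.mul (hmeas.comp Real.measurable_exp)).indicator measurableSet_Ioi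

theorem wcut_bdd (W : WeierstrassCurve ℤ) (N : ℕ → ℕ) (F : ℂ → ℂ)
    (hbdd : ∀ a b : ℝ, 0 < a → ∃ C : ℝ, 0 ≤ C ∧ ∀ t : ℝ, a ≤ t → t ≤ b → |hs W N F (Real.exp t)| ≤ C) (T : ℝ) :
    ∃ D : ℝ, 0 ≤ D ∧ ∀ t ∈ Ioc 0 T, |wcut W N F t| ≤ D := by
  obtain ⟨C, hC, hb⟩ := hbdd (Real.log 2) T (Real.log_pos one_lt_two)
  refine ⟨|T| * C, by positivity, fun t ht => ?_⟩
  unfold wcut
  rw [indicator_apply]
  split_ifs with h
  · have h1 : Real.log 2 < t := h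
    rw [abs_mul, abs_of_pos ht.1]
    exact mul_le_mul (ht.2.trans (le_abs_self T)) (hb t h1.le ht.2) (abs_nonneg _) (abs_nonneg _)
  · rw [abs_zero]
    positivity

theorem ap_hs_of (W : WeierstrassCurve ℤ) (N : ℕ → ℕ)
    (hNdef : ∀ p : ℕ, N p = 1 + ((Finset.range p ×ˢ Finset.range p).filter
      (fun q : ℕ × ℕ => (p : ℤ) ∣ ((q.2 : ℤ) ^ 2 + W.a₁ * (q.1 : ℤ) * (q.2 : ℤ) + W.a₃ * (q.2 : ℤ)
        - ((q.1 : ℤ) ^ 3 + W.a₂ * (q.1 : ℤ) ^ 2 + W.a₄ * (q.1 : ℤ) + W.a₆)))).card)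
    (hΔ : W.Δ ≠ 0) (F : ℂ → ℂ) (hFd : Differentiable ℂ F) (hF : EulerHyp W N F)
    (hmeas : Measurable (hs W N F))
    (hbdd : ∀ a b : ℝ, 0 < a → ∃ C : ℝ, 0 ≤ C ∧ ∀ t : ℝ, a ≤ t → t ≤ b → |hs W N F (Real.exp t)| ≤ C)
    (hgr : ∃ (A : ℝ) (k : ℕ), ∀ s : ℂ, 1 / 2 ≤ s.re → ‖F s‖ ≤ A * (1 + ‖s‖) ^ k)
    (hRH : ∀ ρ : ℂ, 1 < ρ.re → F ρ ≠ 0) :
    ∀ e : ℝ, 0 < e → ∃ (s : Finset ℝ) (c : ℝ → ℂ), (0 : ℝ) ∉ s ∧ ∀ᶠ T : ℝ in atTop,
      IntegrableOn (fun t => ‖(wcut W N F t : ℂ) - ∑ γ ∈ s, c γ * cexp (((γ * t : ℝ) : ℂ) * I)‖ ^ 2) (Ioc 0 T) ∧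
      (1 / T) * ∫ t in Ioc 0 T, ‖(wcut W N F t : ℂ) - ∑ γ ∈ s, c γ * cexp (((γ * t : ℝ) : ℂ) * I)‖ ^ 2 ≤ e := by
  set r := analyticOrderNatAt F 1 with hr
  have hN := nhyp W N hNdef
  have hB : EulerB N (badW W) F := hF
  obtain ⟨A, hS⟩ := bsd_setup hN F hFd hB
  obtain ⟨hg0, hg⟩ := GG_lead hN F hFd hB
  rw [← hr] at hg0 hg
  obtain ⟨B1, k, hB1, hgrow⟩ := GG_growth (bad := badW W) hN F hgr
  obtain ⟨B2, hB2, hright⟩ := right_bound (bad := badW W) hN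
  have hrh : ∀ s : ℂ, 0 < s.re → GG N (badW W) F s ≠ 0 := by
    intro s hs h0
    rw [GG_zero_iff hN F s hs.le] at h0
    refine hRH (1 + s) ?_ h0
    rw [add_re, one_re]
    linarith
  set g : ℝ := ‖iteratedDeriv r F 1‖ / (r.factorial : ℝ) * Real.exp (E0 N (badW W)) with hgdef
  have hgr2 : ∀ s : ℂ, -(1 / 100 : ℝ) < s.re → ‖GG N (badW W) F s‖ ≤ max B1 B2 * (1 + ‖s‖) ^ k := by
    intro s hs
    refine (hgrow s hs).trans ?_
    gcongr
    exact le_max_left _ _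
  have hr2 : ∀ s : ℂ, (11 : ℝ) ≤ s.re →
      ‖s * Lap (fun t => LL N (badW W) t - ee N (badW W) t) s‖ ≤ max B1 B2 := fun s hs =>
    (hright s hs).trans (le_max_right _ _)
  have hmm : Fac (GG N (badW W) F) (fun γ : ℝ => analyticOrderNatAt F (1 + γ * I)) := fun μ _ =>
    GG_fac hN F hFd hB (μ * I) (by simp)
  obtain ⟨G', A', a', B', c', k', hFr, hkap, hmm'⟩ := frame_order hS r g hg0 hg hrh hgr2 hr2 _ hmm
  set u : ℝ → ℝ := fun t => t * (((LL N (badW W) t - ee N (badW W) t) - r * ein t) - kap G') with hu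
  have hum : Measurable u := measurable_id.mul (hFr.setup.grow.meas.sub_const _)
  have hwm := measurable_wcut W N F hmeas
  refine ap_pert hum hwm ?_ (fun e he => ap_zero hFr _ hmm' he)
  -- the difference is square integrable
  obtain ⟨K, T0, hK, hT0, hrate⟩ := ee_rate2 hN (finite_bad W hΔ)
  have hr0 : (0 : ℝ) ≤ r := Nat.cast_nonneg r
  have hl2 : Real.log 2 ≤ 1 := by
    have := Real.log_two_lt_d9
    linarith
  have hdm : Measurable (fun t => (wcut W N F t - u t) ^ 2) := (hwm.sub hum).pow_const 2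
  -- bounded part
  have h1 : IntegrableOn (fun t => (wcut W N F t - u t) ^ 2) (Ioc 0 T0) := by
    obtain ⟨K0, -, hK0⟩ := cramer_zero hFr
    have h2 : IntegrableOn (fun t => u t ^ 2) (Ioc 0 T0) := (hK0 T0 hT0).1
    obtain ⟨D, hD, hDb⟩ := wcut_bdd W N F hbdd T0
    have h3 : IntegrableOn (fun t => wcut W N F t ^ 2) (Ioc 0 T0) := by
      refine Measure.integrableOn_of_bounded (M := D ^ 2) measure_Ioc_lt_top.ne
        (hwm.pow_const 2).aestronglyMeasurable ?_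
      rw [ae_restrict_iff' measurableSet_Ioc]
      refine Filter.Eventually.of_forall fun t ht => ?_
      rw [Real.norm_eq_abs, abs_of_nonneg (sq_nonneg _), ← sq_abs]
      exact pow_le_pow_left₀ (abs_nonneg _) (hDb t ht) 2
    refine Integrable.mono' ((h3.const_mul 2).add (h2.const_mul 2)) hdm.aestronglyMeasurable
      (Filter.Eventually.of_forall fun t => ?_)
    rw [Real.norm_eq_abs, abs_of_nonneg (sq_nonneg _)]
    show (wcut W N F t - u t) ^ 2 ≤ 2 * wcut W N F t ^ 2 + 2 * u t ^ 2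
    nlinarith [sq_nonneg (wcut W N F t + u t)]
  -- tail
  have hdeq : ∀ t : ℝ, T0 < t → wcut W N F t - u t = t * ((ee N (badW W) t + TTb N (badW W) (Real.exp t)
      - E0 N (badW W)) + r * (ein t - Real.log t - Real.eulerMascheroniConstant)) := by
    intro t ht
    have ht0 : 0 < t := by linarith
    have h2 : wcut W N F t = t * hs W N F (Real.exp t) := by
      unfold wcut
      rw [indicator_of_mem]
      show Real.log 2 < t
      linarith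
    rw [h2, hs_exp W N hNdef hΔ F hFd hF t ht0, log_kon W N hNdef hΔ F hFd hF, ← hr, ← hgdef]
    simp only [hu]
    rw [hkap]
    ring
  have hdb : ∀ t : ℝ, T0 < t → (wcut W N F t - u t) ^ 2 ≤ (100 * (K + r) ^ 2) * Real.exp (-(1 / 4) * t) := by
    intro t ht
    have ht1 : 1 ≤ t := by linarith
    have ht0 : 0 < t := by linarith
    rw [hdeq t ht]
    have h2 := hrate t ht.le
    obtain ⟨h6, h7⟩ := EinL2_bounds ht1
    have e1 : Real.exp (-t) ≤ Real.exp (-(47 / 200 * t)) := Real.exp_le_exp.2 (by linarith)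
    have e0 := Real.exp_pos (-(47 / 200 * t))
    have h3 : |(ee N (badW W) t + TTb N (badW W) (Real.exp t) - E0 N (badW W)) +
        r * (ein t - Real.log t - Real.eulerMascheroniConstant)| ≤ (K + r) * Real.exp (-(47 / 200 * t)) := by
      refine (abs_add_le _ _).trans ?_
      rw [abs_of_nonneg (mul_nonneg hr0 h6), add_mul]
      exact add_le_add h2 (mul_le_mul_of_nonneg_left (h7.trans e1) hr0)
    have h4 : t ≤ 10 * Real.exp (t / 10) := by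
      have := Real.add_one_le_exp (t / 10)
      linarith
    have h5 : |t * ((ee N (badW W) t + TTb N (badW W) (Real.exp t) - E0 N (badW W)) +
        r * (ein t - Real.log t - Real.eulerMascheroniConstant))| ≤
        10 * (K + r) * Real.exp (-(1 / 8) * t) := by
      rw [abs_mul, abs_of_pos ht0]
      calc t * _ ≤ (10 * Real.exp (t / 10)) * ((K + r) * Real.exp (-(47 / 200 * t))) :=
            mul_le_mul h4 h3 (abs_nonneg _) (by positivity)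
        _ = 10 * (K + r) * (Real.exp (t / 10) * Real.exp (-(47 / 200 * t))) := by ring
        _ ≤ 10 * (K + r) * Real.exp (-(1 / 8) * t) := by
            apply mul_le_mul_of_nonneg_left _ (by positivity)
            rw [← Real.exp_add, Real.exp_le_exp]
            linarith
    rw [← sq_abs]
    calc _ ≤ (10 * (K + r) * Real.exp (-(1 / 8) * t)) ^ 2 := pow_le_pow_left₀ (abs_nonneg _) h5 2
      _ = 100 * (K + r) ^ 2 * (Real.exp (-(1 / 8) * t) * Real.exp (-(1 / 8) * t)) := by ring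
      _ = _ := by
          rw [← Real.exp_add]
          congr 2
          ring
  have h2 : IntegrableOn (fun t => (wcut W N F t - u t) ^ 2) (Ioi T0) := by
    have h3 : IntegrableOn (fun t : ℝ => (100 * (K + r) ^ 2) * Real.exp (-(1 / 4) * t)) (Ioi T0) :=
      (exp_neg_integrableOn_Ioi T0 (by norm_num : (0 : ℝ) < 1 / 4)).const_mul _
    refine Integrable.mono' h3 hdm.aestronglyMeasurable ?_
    rw [ae_restrict_iff' measurableSet_Ioi]
    refine Filter.Eventually.of_forall fun t ht => ?_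
    rw [Real.norm_eq_abs, abs_of_nonneg (sq_nonneg _)]
    exact hdb t ht
  have h3 : Ioi (0 : ℝ) = Ioc 0 T0 ∪ Ioi T0 := (Ioc_union_Ioi_eq_Ioi (by linarith)).symm
  rw [h3]
  exact h1.union h2

/-- the conclusion of D6 for a function `u` -/
def HasLaw (u : ℝ → ℝ) : Prop :=
  ∃ μ : Measure ℝ, IsProbabilityMeasure μ ∧ Integrable (fun y : ℝ => y ^ 2) μ ∧
    ∀ Φ : ℝ → ℝ, Continuous Φ → (∃ C : ℝ, ∀ y, |Φ y| ≤ C * (1 + y ^ 2)) →
      Tendsto (fun T : ℝ => (1 / T) * ∫ t in Ioc 0 T, Φ (u t)) atTop (𝓝 (∫ y, Φ y ∂μ))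

/-- transfer of means -/
theorem mean_transfer (W : WeierstrassCurve ℤ) (N : ℕ → ℕ) (F : ℂ → ℂ) (hmeas : Measurable (hs W N F))
    (hbdd : ∀ a b : ℝ, 0 < a → ∃ C : ℝ, 0 ≤ C ∧ ∀ t : ℝ, a ≤ t → t ≤ b → |hs W N F (Real.exp t)| ≤ C)
    (Φ : ℝ → ℝ) (hΦ : Continuous Φ) (l : ℝ)
    (h : Tendsto (fun T : ℝ => (1 / T) * ∫ t in Ioc 0 T, Φ (wcut W N F t)) atTop (𝓝 l)) :
    (∀ X : ℝ, IntegrableOn (fun x => Φ (hs W N F x * Real.log x) / x) (Ioc 2 X)) ∧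
    Tendsto (fun X : ℝ => (1 / Real.log X) * ∫ x in Ioc 2 X, Φ (hs W N F x * Real.log x) / x) atTop (𝓝 l) := by
  have hwm := measurable_wcut W N F hmeas
  have hl2 : 0 < Real.log 2 := Real.log_pos one_lt_two
  have hi : ∀ T : ℝ, IntegrableOn (fun t => Φ (wcut W N F t)) (Ioc 0 T) := by
    intro T
    obtain ⟨D, hD, hDb⟩ := wcut_bdd W N F hbdd T
    obtain ⟨M, hM⟩ := (isCompact_Icc (a := -D) (b := D)).exists_bound_of_continuousOn hΦ.continuousOn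
    refine Measure.integrableOn_of_bounded (M := M) measure_Ioc_lt_top.ne
      (hΦ.measurable.comp hwm).aestronglyMeasurable ?_
    rw [ae_restrict_iff' measurableSet_Ioc]
    exact Filter.Eventually.of_forall fun t ht => hM _ (abs_le.1 (hDb t ht))
  have h1 := shift_start hi hl2.le h
  have hfun : ∀ t ∈ Ioi (Real.log 2), Φ (hs W N F (Real.exp t) * Real.log (Real.exp t)) = Φ (wcut W N F t) := by
    intro t ht
    unfold wcut
    rw [indicator_of_mem ht, Real.log_exp, mul_comm]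
  have hsub : ∀ X : ℝ, 0 < X → IntegrableOn (fun x => Φ (hs W N F x * Real.log x) / x) (Ioc 2 X) ∧
      ∫ x in Ioc 2 X, Φ (hs W N F x * Real.log x) / x =
        ∫ t in Ioc (Real.log 2) (Real.log X), Φ (wcut W N F t) := by
    intro X hX
    have h5 := subst_exp (fun x => Φ (hs W N F x * Real.log x)) (Real.log 2) (Real.log X)
    rw [Real.exp_log two_pos, Real.exp_log hX] at h5
    have h6 : IntegrableOn (fun t => Φ (hs W N F (Real.exp t) * Real.log (Real.exp t)))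
        (Ioc (Real.log 2) (Real.log X)) := by
      refine ((hi (Real.log X)).mono_set (Ioc_subset_Ioc_left hl2.le)).congr_fun (fun t ht => ?_) measurableSet_Ioc
      exact (hfun t ht.1).symm
    refine ⟨h5.1.2 h6, h5.2.trans ?_⟩
    exact setIntegral_congr_fun measurableSet_Ioc fun t ht => hfun t ht.1
  refine ⟨fun X => ?_, ?_⟩
  · rcases lt_or_ge 0 X with hX | hX
    · exact (hsub X hX).1
    · rw [Ioc_eq_empty (by linarith)]
      exact integrableOn_empty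
  · refine (h1.comp Real.tendsto_log_atTop).congr' ?_
    filter_upwards [eventually_gt_atTop (0 : ℝ)] with X hX
    rw [(hsub X hX).2]
    rfl

/-- the limit law of `hs x * log x`, given D6 -/
theorem law_hs_of_core
    (D6 : ∀ {u : ℝ → ℝ}, Measurable u →
      (∀ e : ℝ, 0 < e → ∃ (s : Finset ℝ) (c : ℝ → ℂ), ∀ᶠ T : ℝ in atTop,
        IntegrableOn (fun t => ‖(u t : ℂ) - ∑ γ ∈ s, c γ * cexp (((γ * t : ℝ) : ℂ) * I)‖ ^ 2) (Ioc 0 T) ∧
        (1 / T) * ∫ t in Ioc 0 T, ‖(u t : ℂ) - ∑ γ ∈ s, c γ * cexp (((γ * t : ℝ) : ℂ) * I)‖ ^ 2 ≤ e) →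
      HasLaw u)
    (W : WeierstrassCurve ℤ) (N : ℕ → ℕ)
    (hNdef : ∀ p : ℕ, N p = 1 + ((Finset.range p ×ˢ Finset.range p).filter
      (fun q : ℕ × ℕ => (p : ℤ) ∣ ((q.2 : ℤ) ^ 2 + W.a₁ * (q.1 : ℤ) * (q.2 : ℤ) + W.a₃ * (q.2 : ℤ)
        - ((q.1 : ℤ) ^ 3 + W.a₂ * (q.1 : ℤ) ^ 2 + W.a₄ * (q.1 : ℤ) + W.a₆)))).card)
    (hΔ : W.Δ ≠ 0) (F : ℂ → ℂ) (hFd : Differentiable ℂ F) (hF : EulerHyp W N F)
    (hmeas : Measurable (hs W N F))
    (hbdd : ∀ a b : ℝ, 0 < a → ∃ C : ℝ, 0 ≤ C ∧ ∀ t : ℝ, a ≤ t → t ≤ b → |hs W N F (Real.exp t)| ≤ C)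
    (hgr : ∃ (A : ℝ) (k : ℕ), ∀ s : ℂ, 1 / 2 ≤ s.re → ‖F s‖ ≤ A * (1 + ‖s‖) ^ k)
    (hRH : ∀ ρ : ℂ, 1 < ρ.re → F ρ ≠ 0) :
    Summable (fun γ : ℝ => if γ = 0 then 0 else (analyticOrderNatAt F (1 + γ * I) : ℝ) ^ 2 / γ ^ 2) ∧
    ∃ μ : Measure ℝ, IsProbabilityMeasure μ ∧ Integrable (fun y : ℝ => y ^ 2) μ ∧ ∫ y, y ∂μ = 0 ∧
      ∫ y, y ^ 2 ∂μ = ∑' γ : ℝ, (if γ = 0 then 0 else (analyticOrderNatAt F (1 + γ * I) : ℝ) ^ 2 / γ ^ 2) ∧
      ∀ Φ : ℝ → ℝ, Continuous Φ → (∃ C : ℝ, ∀ y, |Φ y| ≤ C * (1 + y ^ 2)) →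
        (∀ X : ℝ, IntegrableOn (fun x => Φ (hs W N F x * Real.log x) / x) (Ioc 2 X)) ∧
        Tendsto (fun X : ℝ => (1 / Real.log X) * ∫ x in Ioc 2 X, Φ (hs W N F x * Real.log x) / x) atTop
          (𝓝 (∫ y, Φ y ∂μ)) := by
  have hwm := measurable_wcut W N F hmeas
  have hap := ap_hs_of W N hNdef hΔ F hFd hF hmeas hbdd hgr hRH
  obtain ⟨hsum, -, hsq⟩ := exact_hs_of W N hNdef hΔ F hFd hF hmeas hbdd hgr hRH
  obtain ⟨μ, hμ, hμ2, hlaw⟩ := D6 hwm (fun e he => by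
    obtain ⟨s, c, -, h⟩ := hap e he
    exact ⟨s, c, h⟩)
  have hall : ∀ Φ : ℝ → ℝ, Continuous Φ → (∃ C : ℝ, ∀ y, |Φ y| ≤ C * (1 + y ^ 2)) →
        (∀ X : ℝ, IntegrableOn (fun x => Φ (hs W N F x * Real.log x) / x) (Ioc 2 X)) ∧
        Tendsto (fun X : ℝ => (1 / Real.log X) * ∫ x in Ioc 2 X, Φ (hs W N F x * Real.log x) / x) atTop
          (𝓝 (∫ y, Φ y ∂μ)) := fun Φ hΦ hC => mean_transfer W N F hmeas hbdd Φ hΦ _ (hlaw Φ hΦ hC)
  refine ⟨hsum, μ, hμ, hμ2, ?_, ?_, hall⟩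
  · have h1 := hlaw (fun y => y) continuous_id ⟨1, fun y => by nlinarith [sq_nonneg (|y| - 1), sq_abs y]⟩
    exact tendsto_nhds_unique h1 (mean_zero_of_ap hwm hap)
  · have h1 := (hall (fun y => y ^ 2) (continuous_pow 2) ⟨1, fun y => by
      rw [abs_of_nonneg (sq_nonneg y)]
      linarith⟩).2
    exact tendsto_nhds_unique h1 hsq

end Pool.Agent.Helper16.CR
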